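import Pool.Agent.Helper6.FT.Tra2

/-! Specialisation of curves to the field of constants. -/

set_option autoImplicit false
set_option linter.unusedSectionVars false

namespace Pool.Agent.Helper6.FT

open EE EV Polynomial

section

variable {k M : Type} [Field k] [IsAlgClosed k] [Field M] [Algebra k M]

/-- points of finitely generated algebras -/
theorem exists_pt (B : Subalgebra k M) (hB : B.FG) : ∃ φ : B →ₐ[k] k, True := by
  have hft : Algebra.FiniteType k B := B.fg_iff_finiteType.1 hB
  obtain ⟨m, hm⟩ := Ideal.exists_maximal B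
  let _ : Field (B ⧸ m) := Ideal.Quotient.field m
  have h1 : Algebra.FiniteType k (B ⧸ m) := inferInstance
  have h2 : Module.Finite k (B ⧸ m) := finite_of_finite_type_of_isJacobsonRing k (B ⧸ m)
  have h3 : Algebra.IsIntegral k (B ⧸ m) := inferInstance
  have h4 : Function.Bijective (algebraMap k (B ⧸ m)) :=
    IsAlgClosed.algebraMap_bijective_of_isIntegral
  let e : k ≃ₐ[k] (B ⧸ m) := AlgEquiv.ofBijective (Algebra.ofId k (B ⧸ m)) h4
  exact ⟨(e.symm : (B ⧸ m) →ₐ[k] k).comp (Ideal.Quotient.mkₐ k m), trivial⟩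

/-- specialisation of finitely many polynomials -/
theorem exists_spec {κ : Type} [Finite κ] (V : κ → M[X]) {s : M} (hs : s ≠ 0) :
    ∃ (B : Subalgebra k M) (W : κ → B[X]) (φ : B →ₐ[k] k),
      (∀ j, (W j).map (B.val : B →+* M) = V j) ∧ s ∈ B ∧ ∀ t : B, (t : M) = s → φ t ≠ 0 := by
  classical
  have := Fintype.ofFinite κ
  let T : Finset M := (Finset.univ.biUnion fun j => (V j).support.image fun m => (V j).coeff m) ∪
    {s, s⁻¹}
  let B : Subalgebra k M := Algebra.adjoin k (T : Set M)
  have hB : B.FG := ⟨T, rfl⟩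
  obtain ⟨φ, -⟩ := exists_pt B hB
  have hT : ∀ t ∈ T, t ∈ B := fun t ht => Algebra.subset_adjoin ht
  have hc : ∀ j m, (V j).coeff m ∈ B := by
    intro j m
    by_cases h0 : (V j).coeff m = 0
    · rw [h0]; exact zero_mem _
    · apply hT
      refine Finset.mem_union_left _ (Finset.mem_biUnion.2 ⟨j, Finset.mem_univ j, ?_⟩)
      exact Finset.mem_image.2 ⟨m, mem_support_iff.2 h0, rfl⟩
  have hW : ∀ j, ∃ W : B[X], W.map (B.val : B →+* M) = V j := by
    intro j
    have h1 : V j ∈ Polynomial.lifts (B.val : B →+* M) := by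
      rw [Polynomial.lifts_iff_coeff_lifts]
      intro m
      exact ⟨⟨_, hc j m⟩, rfl⟩
    exact (Polynomial.mem_lifts _).1 h1
  choose W hW using hW
  have hsB : s ∈ B := hT _ (Finset.mem_union_right _ (by simp))
  have hsB' : s⁻¹ ∈ B := hT _ (Finset.mem_union_right _ (by simp))
  refine ⟨B, W, φ, hW, hsB, fun t ht h0 => ?_⟩
  have h1 : t * ⟨s⁻¹, hsB'⟩ = 1 := Subtype.ext (by
    change (t : M) * s⁻¹ = 1
    rw [ht, mul_inv_cancel₀ hs])
  have h2 := congrArg φ h1
  rw [map_mul, h0, zero_mul, map_one] at h2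
  exact zero_ne_one h2

theorem map_aeval1 {R R' : Type} [CommRing R] [CommRing R'] [Algebra k R] [Algebra k R'] {κ : Type}
    (φ : R →ₐ[k] R') (W : κ → R[X]) (F : MvPolynomial κ k) :
    (MvPolynomial.aeval W F : R[X]).map (φ : R →+* R') =
      MvPolynomial.aeval (fun j => (W j).map (φ : R →+* R')) F := by
  have h1 := MvPolynomial.comp_aeval_apply (f := W) (Polynomial.mapAlgHom φ) F
  exact h1

theorem map_aeval2 {R R' : Type} [CommRing R] [CommRing R'] [Algebra k R] [Algebra k R'] {κ : Type}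
    (φ : R →ₐ[k] R') (W : κ → R[X][X]) (F : MvPolynomial κ k) :
    (MvPolynomial.aeval W F : R[X][X]).map (mapRingHom (φ : R →+* R')) =
      MvPolynomial.aeval (fun j => (W j).map (mapRingHom (φ : R →+* R'))) F := by
  have h1 := MvPolynomial.comp_aeval_apply (f := W)
    (Polynomial.mapAlgHom (Polynomial.mapAlgHom φ)) F
  exact h1

variable {κ : Type} [Finite κ]

/-- specialisation of rational curves -/
theorem spec_rat {X : Set (MvPolynomial κ k)} {d : ℕ} {V : κ → M[X]} (hV : RatCurve X d V)
    {Q : MvPolynomial κ k} (hQ : (MvPolynomial.aeval V Q : M[X]) ≠ 0) :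
    ∃ V' : κ → k[X], RatCurve X d V' ∧ (MvPolynomial.aeval V' Q : k[X]) ≠ 0 := by
  obtain ⟨h1, ⟨i, j, m, l, h2⟩, h3⟩ := hV
  obtain ⟨m', hm'⟩ : ∃ m', (MvPolynomial.aeval V Q : M[X]).coeff m' ≠ 0 := by
    by_contra hcon
    push Not at hcon
    exact hQ (Polynomial.ext fun m' => by rw [hcon, coeff_zero])
  obtain ⟨B, W, φ, hW, -, hφ⟩ := exists_spec (k := k) V (mul_ne_zero (sub_ne_zero.2 h2) hm')
  have hinj : Function.Injective (B.val : B →+* M) := Subtype.val_injective
  have hW' : ∀ F : MvPolynomial κ k, (MvPolynomial.aeval W F : B[X]).map (B.val : B →+* M) =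
      MvPolynomial.aeval V F := by
    intro F
    rw [map_aeval1]
    congr 2
    funext j
    exact hW j
  have hcoe : ∀ j m, (((W j).coeff m : B) : M) = (V j).coeff m := by
    intro j m
    rw [← hW j, coeff_map]
    rfl
  have hs := hφ (((W i).coeff m * (W j).coeff l - (W j).coeff m * (W i).coeff l) *
    (MvPolynomial.aeval W Q : B[X]).coeff m') (by
      push_cast
      rw [hcoe, hcoe, hcoe, hcoe, ← hW' Q, coeff_map]
      rfl)
  rw [map_mul, map_sub, map_mul, map_mul] at hs
  have hs1 := left_ne_zero_of_mul hs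
  have hs2 := right_ne_zero_of_mul hs
  refine ⟨fun j => (W j).map (φ : B →+* k), ⟨fun j => ?_, ⟨i, j, m, l, ?_⟩, fun F hF => ?_⟩, ?_⟩
  · refine natDegree_map_le.trans ?_
    rw [← natDegree_map_eq_of_injective hinj, hW j]
    exact h1 j
  · rw [coeff_map, coeff_map, coeff_map, coeff_map]
    exact sub_ne_zero.1 hs1
  · rw [← map_aeval1]
    have h4 : (MvPolynomial.aeval W F : B[X]) = 0 := by
      apply Polynomial.map_injective _ hinj
      rw [hW', h3 F hF, Polynomial.map_zero]
    rw [h4, Polynomial.map_zero]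
  · intro h4
    rw [← map_aeval1] at h4
    apply hs2
    have h5 := congrArg (fun P => P.coeff m') h4
    simp only [coeff_map, coeff_zero] at h5
    exact h5

theorem wei_monic {R : Type} [Field R] (a b : R) : (wei a b).Monic :=
  monic_X_pow_sub_C _ two_ne_zero

/-- specialisation of elliptic curves -/
theorem spec_ell {X : Set (MvPolynomial κ k)} {d : ℕ} {a b : k} {A B : κ → M[X]}
    (hV : EllCurve X d (algebraMap k M a) (algebraMap k M b) A B)
    {Q : MvPolynomial κ k} (hQ : ¬ wei (algebraMap k M a) (algebraMap k M b) ∣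
      (MvPolynomial.aeval (fun j => onE (A j) (B j)) Q : M[X][X])) :
    ∃ A' B' : κ → k[X], EllCurve X d a b A' B' ∧
      ¬ wei a b ∣ (MvPolynomial.aeval (fun j => onE (A' j) (B' j)) Q : k[X][X]) := by
  obtain ⟨h0, h1, ⟨i, j, s, t, h2⟩, h3⟩ := hV
  rw [← Polynomial.modByMonic_eq_zero_iff_dvd (wei_monic _ _)] at hQ
  set Z : M[X][X] := (MvPolynomial.aeval (fun j => onE (A j) (B j)) Q : M[X][X]) %ₘ
    wei (algebraMap k M a) (algebraMap k M b) with hZ
  obtain ⟨m, l, hml⟩ : ∃ m l, (Z.coeff m).coeff l ≠ 0 := by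
    by_contra hcon
    push Not at hcon
    exact hQ (Polynomial.ext fun m => Polynomial.ext fun l => by
      rw [hcon, coeff_zero, coeff_zero])
  obtain ⟨R, W, φ, hW, -, hφ⟩ := exists_spec (k := k) (κ := κ ⊕ κ) (Sum.elim A B)
    (mul_ne_zero (sub_ne_zero.2 h2) hml)
  have hinj : Function.Injective (R.val : R →+* M) := Subtype.val_injective
  set WA : κ → R[X] := fun j => W (Sum.inl j) with hWA
  set WB : κ → R[X] := fun j => W (Sum.inr j) with hWB
  have hA : ∀ j, (WA j).map (R.val : R →+* M) = A j := fun j => hW (Sum.inl j)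
  have hB : ∀ j, (WB j).map (R.val : R →+* M) = B j := fun j => hW (Sum.inr j)
  have hone : ∀ {R' : Type} [CommRing R'] [Algebra k R'] (ψ : R →ₐ[k] R') (F : MvPolynomial κ k),
      ((MvPolynomial.aeval (fun j => two (WA j) (WB j)) F : R[X][X]) %ₘ
        weqR (algebraMap k R a) (algebraMap k R b)).map (mapRingHom (ψ : R →+* R')) =
      (MvPolynomial.aeval (fun j => two ((WA j).map (ψ : R →+* R')) ((WB j).map (ψ : R →+* R')))
        F : R'[X][X]) %ₘ weqR (algebraMap k R' a) (algebraMap k R' b) := by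
    intro R' _ _ ψ F
    have e1 : (ψ : R →+* R') (algebraMap k R a) = algebraMap k R' a := ψ.commutes a
    have e2 : (ψ : R →+* R') (algebraMap k R b) = algebraMap k R' b := ψ.commutes b
    rw [Polynomial.map_modByMonic _ (weqR_monic _ _), weqR_map, map_aeval2, e1, e2]
    congr 3
    funext j
    rw [two_map]
  have hval : ∀ F : MvPolynomial κ k,
      ((MvPolynomial.aeval (fun j => two (WA j) (WB j)) F : R[X][X]) %ₘ
        weqR (algebraMap k R a) (algebraMap k R b)).map (mapRingHom (R.val : R →+* M)) =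
      (MvPolynomial.aeval (fun j => onE (A j) (B j)) F : M[X][X]) %ₘ
        wei (algebraMap k M a) (algebraMap k M b) := by
    intro F
    rw [hone R.val F]
    change _ = (MvPolynomial.aeval (fun j => two (A j) (B j)) F : M[X][X]) %ₘ
      weqR (algebraMap k M a) (algebraMap k M b)
    congr 3
    funext j
    rw [hA, hB]
  set ZR : R[X][X] := (MvPolynomial.aeval (fun j => two (WA j) (WB j)) Q : R[X][X]) %ₘ
    weqR (algebraMap k R a) (algebraMap k R b) with hZR
  have hZR' : ZR.map (mapRingHom (R.val : R →+* M)) = Z := hval Q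
  have hcf : ∀ {R' : Type} [CommRing R'] (ψ : R →+* R') (P P' : R[X]) u,
      Sum.elim (P.map ψ).coeff (P'.map ψ).coeff u = ψ (Sum.elim P.coeff P'.coeff u) := by
    intro R' _ ψ P P' u
    rcases u with u | u
    · exact coeff_map _ _
    · exact coeff_map _ _
  have hcfs : ∀ j u, ((Sum.elim (WA j).coeff (WB j).coeff u : R) : M) = cfs (A j) (B j) u := by
    intro j u
    have := hcf (R.val : R →+* M) (WA j) (WB j) u
    rw [hA, hB] at this
    exact this.symm
  have hs := hφ ((Sum.elim (WA i).coeff (WB i).coeff s * Sum.elim (WA j).coeff (WB j).coeff t -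
      Sum.elim (WA j).coeff (WB j).coeff s * Sum.elim (WA i).coeff (WB i).coeff t) *
      (ZR.coeff m).coeff l) (by
    push_cast
    rw [hcfs, hcfs, hcfs, hcfs, ← hZR', coeff_map, coe_mapRingHom, coeff_map]
    rfl)
  rw [map_mul, map_sub, map_mul, map_mul] at hs
  have hs1 := left_ne_zero_of_mul hs
  have hs2 := right_ne_zero_of_mul hs
  refine ⟨fun j => (WA j).map (φ : R →+* k), fun j => (WB j).map (φ : R →+* k),
    ⟨?_, fun j => ⟨?_, ?_⟩, ⟨i, j, s, t, ?_⟩, fun F hF => ?_⟩, ?_⟩
  · intro h
    apply h0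
    rw [← map_ofNat (algebraMap k M) 4, ← map_ofNat (algebraMap k M) 27, ← map_pow, ← map_pow,
      ← map_mul, ← map_mul, ← map_add, h, map_zero]
  · refine natDegree_map_le.trans ?_
    rw [← natDegree_map_eq_of_injective hinj, hA j]
    exact (h1 j).1
  · refine natDegree_map_le.trans ?_
    rw [← natDegree_map_eq_of_injective hinj, hB j]
    exact (h1 j).2
  · unfold cfs
    rw [hcf, hcf, hcf, hcf]
    exact sub_ne_zero.1 hs1
  · rw [← Polynomial.modByMonic_eq_zero_iff_dvd (wei_monic _ _)]
    have h4 := hone φ F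
    have h5 : (MvPolynomial.aeval (fun j => two (WA j) (WB j)) F : R[X][X]) %ₘ
        weqR (algebraMap k R a) (algebraMap k R b) = 0 := by
      apply Polynomial.map_injective (mapRingHom (R.val : R →+* M))
        (Polynomial.map_injective _ hinj)
      rw [hval, Polynomial.map_zero, Polynomial.modByMonic_eq_zero_iff_dvd (wei_monic _ _)]
      exact h3 F hF
    rw [h5, Polynomial.map_zero] at h4
    exact h4.symm
  · rw [← Polynomial.modByMonic_eq_zero_iff_dvd (wei_monic _ _)]
    intro h4
    have h5 := hone φ Q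
    rw [← hZR] at h5
    have h6 : ZR.map (mapRingHom (φ : R →+* k)) = 0 := by
      rw [h5]
      exact h4
    apply hs2
    have h7 := congrArg (fun P => (P.coeff m).coeff l) h6
    simp only [coeff_map, coe_mapRingHom, coeff_zero] at h7
    exact h7

end

end Pool.Agent.Helper6.FT
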