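import Pool.Agent.Helper6.FT.Uni
import Pool.Agent.Helper6.FT.Spe

/-! The uniform theorem, and its form for constant varieties. -/

set_option autoImplicit false
set_option linter.unusedSectionVars false

namespace Pool.Agent.Helper6.FT

open FF Pool.Agent.W603.LV EE EV EU Filter Pool.Agent.Q33.FP Polynomial

/-- **The uniform theorem.** -/
theorem uniform (n D r e : ℕ) : ∃ A : ℕ, ∀ (k K Kb : Type) [Field k] [Field K] [Field Kb]
    [Algebra k K] [Algebra k Kb] [Algebra K Kb] [IsScalarTower k K Kb] [CharZero k] [IsFF k K]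
    [IsAlgClosed k] [IsAlgClosed Kb] [Algebra.IsAlgebraic K Kb]
    (X : Set (MvPolynomial (Fin (n + 1)) K)) (h : ℤ), 0 ≤ h →
    (∀ F ∈ X, (∃ e' ≤ D, F.IsHomogeneous e') ∧ ht k (fun m => F.coeff m) ≤ h) →
    ∀ (S : Finset (Place k K)) (F : Fin (n + 1) → MvPolynomial (Fin r) K) (w : Fin r → K)
      (p : Fin (n + 1) → K), TermVec S r e F w p → p ≠ 0 →
      (∀ G ∈ X, MvPolynomial.eval p G = 0) →
      ht k p ≤ A * (max (canDeg k K + S.card) 0 + vht k F + h) ∨
        OnRat X A (fun j => algebraMap K Kb (p j)) ∨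
        OnEll k X A (fun j => algebraMap K Kb (p j)) := by
  by_contra hcon
  push Not at hcon
  have h1 : ∀ i : ℕ, Nonempty (CE n D r e i) := by
    intro i
    obtain ⟨k, K, Kb, _, _, _, _, _, _, _, _, _, _, _, _, X, h, h0, hX, S, F, w, p, h2, h3, h4, h5,
      h6, h7⟩ := hcon i
    have hX1 : ∀ F ∈ X, ∃ e' ≤ D, F.IsHomogeneous e' := fun F hF => (hX F hF).1
    have hX2 : ∀ F ∈ X, ht k (fun m => F.coeff m) ≤ h := fun F hF => (hX F hF).2
    exact ⟨{
      k := k, K := K, Kb := Kb, X := X, h := h, h0 := h0, hX := hX1, hXh := hX2,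
      S := S, F := F, w := w, p := p, tv := h2, pne := Function.ne_iff.1 h3, van := h4,
      big := h5, nrat := h6, nell := h7 }⟩
  exact no_CE fun i => (h1 i).some

section const

variable {k : Type} [Field k]

/-- The form `G` vanishes on all nonconstant rational and elliptic curves of degree at most `d` in
the zero set of the forms in `X`. -/
def Vanish {κ : Type} (X : Set (MvPolynomial κ k)) (d : ℕ) (G : MvPolynomial κ k) : Prop :=
  (∀ V : κ → k[X], RatCurve X d V → (MvPolynomial.aeval V G : k[X]) = 0) ∧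
  ∀ (a b : k) (A B : κ → k[X]), EllCurve X d a b A B →
    wei a b ∣ (MvPolynomial.aeval (fun j => onE (A j) (B j)) G : k[X][X])

variable [CharZero k] [IsAlgClosed k] {κ : Type} [Finite κ]

theorem aeval_scale {M : Type} [Field M] [Algebra k M] {e : ℕ} {G : MvPolynomial κ k}
    (hG : G.IsHomogeneous e) (g : M) (x : κ → M) :
    MvPolynomial.aeval (fun j => g * x j) G = g ^ e * MvPolynomial.aeval x G :=
  aeval_wt hG g x

theorem van_rat {M : Type} [Field M] [Algebra k M] {X : Set (MvPolynomial κ k)} {d e : ℕ}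
    {G : MvPolynomial κ k} (hG : G.IsHomogeneous e) (hv : Vanish X d G) {η : κ → M}
    (h : OnRat X d η) : MvPolynomial.aeval η G = 0 := by
  obtain ⟨V, hV, g, q, hη⟩ := h
  have h1 : (MvPolynomial.aeval V G : M[X]) = 0 := by
    by_contra h0
    obtain ⟨V', h2, h3⟩ := spec_rat hV h0
    exact h3 (hv.1 V' h2)
  have h2 : η = fun j => g * (V j).eval q := funext hη
  rw [h2, aeval_scale hG]
  have h3 := MvPolynomial.comp_aeval_apply (f := V)
    ((aeval q : M[X] →ₐ[M] M).restrictScalars k) G
  rw [h1, map_zero] at h3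
  have h4 : (fun j => (V j).eval q) =
      fun i => ((aeval q : M[X] →ₐ[M] M).restrictScalars k) (V i) := by
    funext j
    exact (Polynomial.coe_aeval_eq_eval q ▸ rfl : (V j).eval q = aeval q (V j))
  rw [h4, ← h3, mul_zero]

theorem van_ell {M : Type} [Field M] [Algebra k M] {X : Set (MvPolynomial κ k)} {d e : ℕ}
    {G : MvPolynomial κ k} (hG : G.IsHomogeneous e) (hv : Vanish X d G) {η : κ → M}
    (h : OnEll k X d η) : MvPolynomial.aeval η G = 0 := by
  obtain ⟨a, b, A, B, hV, g, x, y, hy, hη⟩ := h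
  have h1 : wei (algebraMap k M a) (algebraMap k M b) ∣
      (MvPolynomial.aeval (fun j => onE (A j) (B j)) G : M[X][X]) := by
    by_contra h0
    obtain ⟨A', B', h2, h3⟩ := spec_ell hV h0
    exact h3 (hv.2 a b A' B' h2)
  have h2 : η = fun j => g * ((A j).eval x + (B j).eval x * y) := funext hη
  rw [h2, aeval_scale hG]
  have h3 := MvPolynomial.comp_aeval_apply (f := fun j => onE (A j) (B j))
    ((aevalAeval x y : M[X][X] →ₐ[M] M).restrictScalars k) G
  have h4 : (fun j => (A j).eval x + (B j).eval x * y) =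
      fun i => ((aevalAeval x y : M[X][X] →ₐ[M] M).restrictScalars k) (onE (A i) (B i)) := by
    funext j
    exact (two_aeval x y (A j) (B j)).symm
  have h5 : aevalAeval x y (wei (algebraMap k M a) (algebraMap k M b)) = 0 := by
    unfold wei
    rw [map_sub, map_pow, aevalAeval_Y, aevalAeval_C]
    simp only [map_add, map_mul, map_pow, aeval_X, aeval_C]
    rw [hy]
    simp
  obtain ⟨Q, hQ⟩ := h1
  rw [hQ] at h3
  have h6 : ((aevalAeval x y : M[X][X] →ₐ[M] M).restrictScalars k)
      (wei (algebraMap k M a) (algebraMap k M b) * Q) = 0 := by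
    rw [map_mul]
    have h7 : ((aevalAeval x y : M[X][X] →ₐ[M] M).restrictScalars k)
        (wei (algebraMap k M a) (algebraMap k M b)) = 0 := h5
    rw [h7, zero_mul]
  rw [h4, ← h3, h6, mul_zero]

end const

section ht0

variable {k K : Type} [Field k] [Field K] [Algebra k K] [CharZero k] [IsFF k K] [IsAlgClosed k]

/-- constant families have height zero -/
theorem ht_const_fam {σ : Type} {c : σ → k} (hc : {a | c a ≠ 0}.Finite) :
    ht k (fun a => algebraMap k K (c a)) = 0 := by
  have hc' : {a | algebraMap k K (c a) ≠ 0}.Finite := hc.subset fun a ha h0 => ha (by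
    rw [h0, map_zero])
  refine le_antisymm ?_ (ht_nonneg hc')
  by_cases h0 : ∃ a, algebraMap k K (c a) ≠ 0
  · have h1 := ht_le (k := k) hc' h0 (fun _ => 0) (by simp) (fun P a => Ge.const _)
    simpa using h1
  · push Not at h0
    rw [ht_zero h0]

end ht0

/-- **Constant varieties.** -/
theorem uniform_const (n D r e : ℕ) : ∃ A : ℕ, ∀ (k : Type) [Field k] [CharZero k] [IsAlgClosed k]
    (X : Set (MvPolynomial (Fin (n + 1)) k)), (∀ F ∈ X, ∃ e' ≤ D, F.IsHomogeneous e') →
    ∀ G : MvPolynomial (Fin (n + 1)) k, (∃ e', G.IsHomogeneous e') → Vanish X A G →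
    ∀ (K : Type) [Field K] [Algebra k K] [IsFF k K] (S : Finset (Place k K))
      (F : Fin (n + 1) → MvPolynomial (Fin r) K) (w : Fin r → K) (p : Fin (n + 1) → K),
      TermVec S r e F w p → p ≠ 0 → (∀ F ∈ X, MvPolynomial.aeval p F = 0) →
      MvPolynomial.aeval p G = 0 ∨
        ht k p ≤ A * (max (canDeg k K + S.card) 0 + vht k F) := by
  obtain ⟨A, hA⟩ := uniform n D r e
  refine ⟨A, fun k _ _ _ X hX G ⟨e', hG⟩ hv K _ _ _ S F w p h1 h2 h3 => ?_⟩
  have h4 := hA k K (AlgebraicClosure K) ((MvPolynomial.map (algebraMap k K)) '' X) 0 le_rfl (by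
    rintro _ ⟨F, hF, rfl⟩
    obtain ⟨e', he, hh⟩ := hX F hF
    refine ⟨⟨e', he, hh.map _⟩, ?_⟩
    have h5 := ht_const_fam (k := k) (K := K) (c := fun m => F.coeff m) (cfin F)
    have h6 : (fun m => ((MvPolynomial.map (algebraMap k K)) F).coeff m) =
        fun m => algebraMap k K (F.coeff m) := by
      funext m
      exact MvPolynomial.coeff_map _ _ _
    rw [h6, h5]) S F w p h1 h2 (by
    rintro _ ⟨F, hF, rfl⟩
    rw [MvPolynomial.eval_map, ← MvPolynomial.aeval_def]
    exact h3 F hF)
  rw [add_zero] at h4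
  have hG2 : MvPolynomial.aeval (fun j => algebraMap K (AlgebraicClosure K) (p j)) G =
      algebraMap K (AlgebraicClosure K) (MvPolynomial.aeval p G) :=
    MvPolynomial.aeval_algebraMap_apply (AlgebraicClosure K) p G
  have hX2 : ∀ (R : Type) [CommRing R] [Algebra k R] [Algebra K R] [IsScalarTower k K R]
      (v : Fin (n + 1) → R) (F : MvPolynomial (Fin (n + 1)) k),
      MvPolynomial.aeval v (MvPolynomial.map (algebraMap k K) F) = MvPolynomial.aeval v F := by
    intro R _ _ _ _ v F
    rw [MvPolynomial.aeval_map_algebraMap]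
  rcases h4 with h4 | h4 | h4
  · exact Or.inr h4
  · left
    obtain ⟨V, ⟨h5, h6, h7⟩, h8⟩ := h4
    have h9 : OnRat X A (fun j => algebraMap K (AlgebraicClosure K) (p j)) := by
      refine ⟨V, ⟨h5, h6, fun F hF => ?_⟩, h8⟩
      have h10 := h7 _ ⟨F, hF, rfl⟩
      rwa [hX2] at h10
    have h10 := van_rat hG hv h9
    rw [hG2] at h10
    exact (map_eq_zero _).1 h10
  · left
    obtain ⟨a, b, A', B', ⟨h5, h6, h7, h8⟩, h9⟩ := h4
    have h10 : OnEll k X A (fun j => algebraMap K (AlgebraicClosure K) (p j)) := by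
      refine ⟨a, b, A', B', ⟨h5, h6, h7, fun F hF => ?_⟩, h9⟩
      have h11 := h8 _ ⟨F, hF, rfl⟩
      rwa [hX2] at h11
    have h11 := van_ell hG hv h10
    rw [hG2] at h11
    exact (map_eq_zero _).1 h11

end Pool.Agent.Helper6.FT
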