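import Pool.Agent.Helper6.FT.Dbl
import Pool.Agent.Helper6.FT.Uni2

/-! Converse statements. -/

set_option autoImplicit false
set_option linter.unusedSectionVars false

namespace Pool.Agent.Helper6.FT

open FF Pool.Agent.W603.LV EE EV Pool.Agent.Q33.FP IntermediateField Polynomial

/-- the function field of an elliptic curve -/
theorem exists_ellff {k : Type} [Field k] [CharZero k] [IsAlgClosed k] {a b : k}
    (hd : 4 * a ^ 3 + 27 * b ^ 2 ≠ 0) :
    ∃ (K : Type) (_ : Field K) (_ : Algebra k K) (_ : IsFF k K) (x y : K), Transcendental k x ∧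
      y ^ 2 = x ^ 3 + algebraMap k K a * x + algebraMap k K b ∧ canDeg k K ≤ 0 := by
  classical
  let L := AlgebraicClosure (RatFunc k)
  have hCL : CharZero L := cz (C := k) L
  set t : L := algebraMap (RatFunc k) L RatFunc.X with ht
  have htt : Transcendental k t := by
    intro h
    exact RatFunc.transcendental_X ((isAlgebraic_algebraMap_iff (A := L)
      (algebraMap (RatFunc k) L).injective).1 h)
  have htb : Transcendental (⊥ : IntermediateField k L) t := by
    intro h
    apply htt
    have h1 : Algebra.IsAlgebraic k (⊥ : IntermediateField k L) := by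
      constructor
      rintro ⟨x, hx⟩
      obtain ⟨y, hy⟩ := IntermediateField.mem_bot.1 hx
      have : (⟨x, hx⟩ : (⊥ : IntermediateField k L)) =
          algebraMap k (⊥ : IntermediateField k L) y := Subtype.ext hy.symm
      rw [this]
      exact isAlgebraic_algebraMap y
    exact IsAlgebraic.restrictScalars k h
  obtain ⟨P, hP⟩ := exists_gen (E := fun _ _ => True) (τ := Ell a b)
    (Or.inr ⟨a, b, trivial, hd, rfl⟩) htb
  obtain ⟨x, y, hc, hx, hy0, ⟨hns, rfl⟩, hy⟩ := gen_ell hP
  let K := IntermediateField.adjoin k {x, y}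
  have hxK : x ∈ K := IntermediateField.subset_adjoin _ _ (by simp)
  have hyK : y ∈ K := IntermediateField.subset_adjoin _ _ (by simp)
  have hxk : Transcendental k (⟨x, hxK⟩ : K) := by
    intro h
    have h1 : IsAlgebraic k x := (isAlgebraic_algebraMap_iff (A := L)
      (algebraMap K L).injective).2 h
    apply hx
    exact h1.tower_top _
  have hyk : (⟨y, hyK⟩ : K) ^ 2 = (⟨x, hxK⟩ : K) ^ 3 + algebraMap k K a * ⟨x, hxK⟩ +
      algebraMap k K b := by
    apply Subtype.ext
    push_cast
    exact hy
  have hns' : (WK a b K).Nonsingular (⟨x, hxK⟩ : K) ⟨y, hyK⟩ := nonsing hd hyk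
  set Q : (Ell a b).G K := WeierstrassCurve.Affine.Point.some _ _ hns' with hQ
  have hcQ : (Ell a b).coord Q = [⟨x, hxK⟩, ⟨y, hyK⟩] := rfl
  have hset : {z | z ∈ (Ell a b).coord Q} = {⟨x, hxK⟩, ⟨y, hyK⟩} := by
    ext z
    rw [hcQ]
    simp
  have htop : IntermediateField.adjoin k {z | z ∈ (Ell a b).coord Q} = ⊤ := by
    rw [hset]
    apply IntermediateField.map_injective K.val
    rw [IntermediateField.adjoin_map, ← AlgHom.fieldRange_eq_map, IntermediateField.fieldRange_val]
    congr 1
    rw [Set.image_pair]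
    rfl
  have hgen : ∃ z ∈ (Ell a b).coord Q, Transcendental k z :=
    ⟨_, by rw [hcQ]; simp, hxk⟩
  have hff : IsFF k K := (nice_Ell a b).ff (k := k) (K := K) Q hgen htop
  refine ⟨K, inferInstance, inferInstance, hff, ⟨x, hxK⟩, ⟨y, hyK⟩, hxk, hyk, ?_⟩
  -- the canonical degree
  have hD0 := der_ne (k := k) (K := K)
  set D0 := der k K with hD0d
  have hs : (Ell a b).lam D0 Q ≠ 0 := by
    intro h
    have h1 := (Ell a b).const_of_lam D0 Q h
    obtain ⟨c, hc'⟩ := const_of_der hD0 (h1 ⟨x, hxK⟩ (by rw [hcQ]; simp))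
    apply hxk
    rw [hc']
    exact isAlgebraic_algebraMap c
  set D : Derivation k K K := ((Ell a b).lam D0 Q)⁻¹ • D0 with hDd
  have h1 : (Ell a b).lam D Q = 1 := by
    rw [hDd, (Ell a b).lam_smul, inv_mul_cancel₀ hs]
  have hD : D ≠ 0 := by
    intro h
    rw [h, (Ell a b).lam_zero_der] at h1
    exact zero_ne_one h1
  have h2 : ∀ w : Place k K, 0 ≤ vo w D := fun w =>
    (src_Ell (C := k) hd (k := k) (K := K) Q hgen htop D (by rw [rs_self]; exact h1) w).1
  rw [canDeg_eq hD, neg_nonpos]
  exact finsum_nonneg h2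

/-- A vector over `K` whose coordinates are values of polynomials of degree at most `e` with
coefficients in `k` at `r` terms. -/
def TermPt {k K : Type} [Field k] [Field K] [Algebra k K] {κ : Type} (S : Finset (Place k K))
    (r e : ℕ) (p : κ → K) : Prop :=
  ∃ (F : κ → MvPolynomial (Fin r) k) (w : Fin r → K), (∀ a, Term S (w a)) ∧
    (∀ j, (F j).totalDegree ≤ e) ∧ ∀ j, p j = MvPolynomial.aeval w (F j)

section

variable {k K : Type} [Field k] [Field K] [Algebra k K] [CharZero k] [IsFF k K] [IsAlgClosed k]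
  {κ : Type}

theorem TermPt.vec [Finite κ] {S : Finset (Place k K)} {r e : ℕ} {p : κ → K}
    (h : TermPt S r e p) :
    ∃ (F : κ → MvPolynomial (Fin r) K) (w : Fin r → K), TermVec S r e F w p ∧ vht k F = 0 := by
  obtain ⟨F, w, h1, h2, h3⟩ := h
  refine ⟨fun j => MvPolynomial.map (algebraMap k K) (F j), w, ⟨h1, fun j => ?_, fun j => ?_⟩, ?_⟩
  · exact (Finset.sup_mono (MvPolynomial.support_map_subset (algebraMap k K) (F j))).trans (h2 j)
  · rw [h3, MvPolynomial.eval_map, ← MvPolynomial.aeval_def]
  · unfold vht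
    have h4 := ht_const_fam (k := k) (K := K)
      (c := fun q : κ × (Fin r →₀ ℕ) => (F q.1).coeff q.2) (vfin F)
    rw [← h4]
    rfl

theorem two_zero {M : Type} [Field M] {A B : M[X]} (h : ∀ u, cfs A B u = 0) : A = 0 ∧ B = 0 :=
  ⟨Polynomial.ext fun m => h (Sum.inl m), Polynomial.ext fun m => h (Sum.inr m)⟩

/-- lower bound for the height of a point of a curve -/
theorem ht_curve [Finite κ] {a b : k} {x y : K} (hx : Transcendental k x)
    (hy : y ^ 2 = x ^ 3 + algebraMap k K a * x + algebraMap k K b) {A B : κ → k[X]}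
    (hnc : ∃ i j s t, cfs (A i) (B i) s * cfs (A j) (B j) t ≠
      cfs (A j) (B j) s * cfs (A i) (B i) t) :
    (∃ j, aeval x (A j) + aeval x (B j) * y ≠ 0) ∧
      hgt k x ≤ 2 * ht k (fun j => aeval x (A j) + aeval x (B j) * y) := by
  classical
  obtain ⟨i, j, s, t, hne⟩ := hnc
  have hpj : aeval x (A j) + aeval x (B j) * y ≠ 0 := by
    intro h0
    obtain ⟨h1, h2⟩ := lin_indep hx hy h0
    apply hne
    have h3 : ∀ u, cfs (A j) (B j) u = 0 := by
      intro u
      rw [h1, h2]
      rcases u with u | u <;> simp [cfs]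
    rw [h3, h3, mul_zero, zero_mul]
  refine ⟨⟨j, hpj⟩, ?_⟩
  set p : κ → K := fun j => aeval x (A j) + aeval x (B j) * y with hp
  set ψ := p i / p j with hψ
  have hψt : Transcendental k ψ := by
    intro halg
    obtain ⟨c, hc⟩ := Pool.Agent.W602.GT.const_of_algebraic halg
    have h1 : p i = algebraMap k K c * p j := by
      rw [← hc, hψ, div_mul_cancel₀ _ hpj]
    have h2 : aeval x (A i - Polynomial.C c * A j) + aeval x (B i - Polynomial.C c * B j) * y
        = 0 := by
      simp only [map_sub, map_mul, aeval_C]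
      simp only [hp] at h1
      linear_combination h1
    obtain ⟨h3, h4⟩ := lin_indep hx hy h2
    apply hne
    have h5 : ∀ u, cfs (A i) (B i) u = c * cfs (A j) (B j) u := by
      intro u
      rw [sub_eq_zero.1 h3, sub_eq_zero.1 h4]
      rcases u with u | u <;> simp [cfs]
    rw [h5, h5]
    ring
  have hm : ∀ j, p j ∈ IntermediateField.adjoin k {x, y} := by
    intro j
    have hxm : x ∈ IntermediateField.adjoin k {x, y} :=
      IntermediateField.subset_adjoin _ _ (by simp)
    have hym : y ∈ IntermediateField.adjoin k {x, y} :=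
      IntermediateField.subset_adjoin _ _ (by simp)
    have hA : ∀ P : k[X], aeval x P ∈ IntermediateField.adjoin k {x, y} := by
      intro P
      have h1 := SetLike.coe_mem (aeval (⟨x, hxm⟩ : IntermediateField.adjoin k {x, y}) P)
      rw [← IntermediateField.aeval_coe] at h1
      exact h1
    exact add_mem (hA _) (mul_mem (hA _) hym)
  have h1 := hgt_x_le hx hy hψt (div_mem (hm i) (hm j))
  have h2 := hgt_ratio_le (k := k) (κ := κ) (c := p) (Set.toFinite _) (a := i) (b := j) hpj
  linarith

/-- points of curves are term points -/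
theorem termPt_curve {a b : k} (hd : 4 * a ^ 3 + 27 * b ^ 2 ≠ 0) {x y : K}
    (hy : y ^ 2 = x ^ 3 + algebraMap k K a * x + algebraMap k K b) {A B : κ → k[X]} {d : ℕ}
    (hdeg : ∀ j, (A j).natDegree ≤ d ∧ (B j).natDegree ≤ d) :
    TermPt (∅ : Finset (Place k K)) 2 (d + 1) (fun j => aeval x (A j) + aeval x (B j) * y) := by
  classical
  have hw : ∀ P : k[X], (aeval (MvPolynomial.X 0 : MvPolynomial (Fin 2) k) P).totalDegree ≤
      P.natDegree := by
    intro P
    rw [Polynomial.aeval_eq_sum_range]
    refine (MvPolynomial.totalDegree_finsetSum _ _).trans (Finset.sup_le fun m hm => ?_)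
    refine (MvPolynomial.totalDegree_smul_le _ _).trans ?_
    refine (MvPolynomial.totalDegree_pow _ _).trans ?_
    rw [MvPolynomial.totalDegree_X, mul_one]
    exact Finset.mem_range_succ_iff.1 hm
  refine ⟨fun j => aeval (MvPolynomial.X 0) (A j) + aeval (MvPolynomial.X 0) (B j) *
    MvPolynomial.X 1, ![x, y], fun c => ?_, fun j => ?_, fun j => ?_⟩
  · refine Or.inr ⟨a, b, x, y, hd, hy, ?_⟩
    fin_cases c
    · exact Or.inl rfl
    · exact Or.inr rfl
  · refine (MvPolynomial.totalDegree_add _ _).trans (max_le ?_ ?_)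
    · exact (hw _).trans ((hdeg j).1.trans (by omega))
    · refine (MvPolynomial.totalDegree_mul _ _).trans ?_
      rw [MvPolynomial.totalDegree_X]
      have := (hw (B j)).trans (hdeg j).2
      omega
  · have h1 : ∀ P : k[X], MvPolynomial.aeval ![x, y]
        (aeval (MvPolynomial.X 0 : MvPolynomial (Fin 2) k) P) = aeval x P := by
      intro P
      rw [← Polynomial.aeval_algHom_apply, MvPolynomial.aeval_X]
      rfl
    rw [map_add, map_mul, h1, h1, MvPolynomial.aeval_X]
    rfl

end

end Pool.Agent.Helper6.FT
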