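import Pool.Agent.Helper6.EU.Ultra

/-! Ultraproducts of differential fields. -/

set_option autoImplicit false

namespace Pool.Agent.Helper6.FT

open Filter EU

section ultra

variable {ι : Type} (U : Ultrafilter ι) (K : ι → Type) [∀ i, Field (K i)]

/-- the ideal of the sequences which are zero almost everywhere for the ultrafilter -/
def dI : Ideal (∀ i, K i) where
  carrier := {x | ∀ᶠ i in (U : Filter ι), x i = 0}
  add_mem' := fun {x y} hx hy => by
    have hx' : ∀ᶠ i in (U : Filter ι), x i = 0 := hx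
    have hy' : ∀ᶠ i in (U : Filter ι), y i = 0 := hy
    change ∀ᶠ i in (U : Filter ι), (x + y) i = 0
    filter_upwards [hx', hy'] with i h1 h2
    rw [Pi.add_apply, h1, h2, add_zero]
  zero_mem' := Eventually.of_forall fun i => rfl
  smul_mem' := fun c x hx => by
    have hx' : ∀ᶠ i in (U : Filter ι), x i = 0 := hx
    change ∀ᶠ i in (U : Filter ι), (c • x) i = 0
    filter_upwards [hx'] with i h1
    rw [smul_eq_mul, Pi.mul_apply, h1, mul_zero]

variable {U K}

theorem mem_dI {x : ∀ i, K i} : x ∈ dI U K ↔ ∀ᶠ i in (U : Filter ι), x i = 0 := Iff.rfl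

variable (U K)

theorem dI_max : (dI U K).IsMaximal := by
  classical
  rw [Ideal.isMaximal_iff]
  refine ⟨fun h => ?_, fun J x hJ hx hxJ => ?_⟩
  · obtain ⟨i, hi⟩ := (mem_dI.1 h).exists
    exact one_ne_zero hi
  · have h1 : ∀ᶠ i in (U : Filter ι), x i ≠ 0 := Ultrafilter.eventually_not.2 hx
    have h2 : 1 - (fun i => (x i)⁻¹) * x ∈ dI U K := by
      rw [mem_dI]
      filter_upwards [h1] with i hi
      change 1 - (x i)⁻¹ * x i = 0
      rw [inv_mul_cancel₀ hi, sub_self]
    have h3 : (fun i => (x i)⁻¹) * x ∈ J := J.mul_mem_left _ hxJ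
    have h4 := J.add_mem (hJ h2) h3
    rwa [sub_add_cancel] at h4

/-- the ultraproduct of the fields -/
def DP : Type := (∀ i, K i) ⧸ dI U K

noncomputable instance : Field (DP U K) :=
  haveI := dI_max U K
  Ideal.Quotient.field (dI U K)

/-- the class of a sequence -/
noncomputable def dMk : (∀ i, K i) →+* DP U K := Ideal.Quotient.mk (dI U K)

variable {U K}

theorem dMk_surj : Function.Surjective (dMk U K) := Ideal.Quotient.mk_surjective

theorem dMk_eq_zero {x : ∀ i, K i} : dMk U K x = 0 ↔ ∀ᶠ i in (U : Filter ι), x i = 0 :=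
  (Ideal.Quotient.eq_zero_iff_mem (I := dI U K)).trans mem_dI

theorem dMk_eq {x y : ∀ i, K i} : dMk U K x = dMk U K y ↔ ∀ᶠ i in (U : Filter ι), x i = y i := by
  rw [← sub_eq_zero, ← map_sub, dMk_eq_zero]
  simp only [Pi.sub_apply, sub_eq_zero]

theorem dc_char [∀ i, CharZero (K i)] : CharZero (DP U K) := by
  refine ⟨fun a b h => ?_⟩
  rw [← map_natCast (dMk U K), ← map_natCast (dMk U K), dMk_eq] at h
  obtain ⟨i, hi⟩ := h.exists
  have h1 : (a : K i) = b := hi
  exact_mod_cast h1

theorem dc_closed [∀ i, IsAlgClosed (K i)] : IsAlgClosed (DP U K) := by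
  apply IsAlgClosed.of_exists_root
  intro p hp hirr
  obtain ⟨q, hq1, hq2, hq3⟩ := Polynomial.lifts_and_natDegree_eq_and_monic
    (f := dMk U K) (p := p) (by
      rw [Polynomial.lifts_iff_coeff_lifts]
      intro n
      exact dMk_surj _) hp
  have h1 : ∀ i : ι, ∃ z : K i, (q.map (Pi.evalRingHom K i)).eval z = 0 := by
    intro i
    refine IsAlgClosed.exists_root _ ?_
    have h2 := hq3.natDegree_map (Pi.evalRingHom K i)
    intro h3
    rw [Polynomial.degree_eq_natDegree (hq3.map _).ne_zero, h2, hq2] at h3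
    have h4 := hirr.natDegree_pos
    have h5 : p.natDegree = 0 := by exact_mod_cast h3
    omega
  choose z hz using h1
  refine ⟨dMk _ _ z, ?_⟩
  have h2 : q.eval z = 0 := by
    funext i
    have h3 := hz i
    rw [Polynomial.eval_map] at h3
    have h4 := Polynomial.eval₂_at_apply (p := q) (Pi.evalRingHom K i) z
    exact h4.symm.trans h3
  rw [← hq1, Polynomial.eval_map, Polynomial.eval₂_at_apply, h2, map_zero]

end ultra

section diff

variable {ι : Type} {U : Ultrafilter ι} {k K : ι → Type} [∀ i, Field (k i)] [∀ i, Field (K i)]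
  [∀ i, Algebra (k i) (K i)]

/-- constant sequences -/
def dal (k K : ι → Type) [∀ i, Field (k i)] [∀ i, Field (K i)] [∀ i, Algebra (k i) (K i)] :
    (∀ i, k i) →+* (∀ i, K i) where
  toFun := fun c i => algebraMap (k i) (K i) (c i)
  map_one' := by funext i; exact map_one _
  map_mul' := by intro x y; funext i; exact map_mul _ _ _
  map_zero' := by funext i; exact map_zero _
  map_add' := by intro x y; funext i; exact map_add _ _ _

/-- the map of the constants -/
noncomputable def dMap (U : Ultrafilter ι) (k K : ι → Type) [∀ i, Field (k i)]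
    [∀ i, Field (K i)] [∀ i, Algebra (k i) (K i)] : DP U k →+* DP U K :=
  Ideal.Quotient.lift (dI U k) ((dMk U K).comp (dal k K)) (by
    intro c hc
    have h1 : ∀ᶠ i in (U : Filter ι), c i = 0 := hc
    rw [RingHom.comp_apply, dMk_eq_zero]
    filter_upwards [h1] with i hi
    change algebraMap (k i) (K i) (c i) = 0
    rw [hi, map_zero])

/-- An ultraproduct of differential fields `K i` with the fields of constants `k i`. -/
structure Dlt (U : Ultrafilter ι) (D : ∀ i, Derivation (k i) (K i) (K i)) (C L : Type) [Field C]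
    [Field L] [Algebra C L] (D' : Derivation C L L) (π : (∀ i, K i) →+* L)
    (θ : (∀ i, k i) →+* C) : Prop where
  surj : Function.Surjective π
  tsurj : Function.Surjective θ
  zero : ∀ x, π x = 0 ↔ ∀ᶠ i in (U : Filter ι), x i = 0
  tzero : ∀ c, θ c = 0 ↔ ∀ᶠ i in (U : Filter ι), c i = 0
  alg : ∀ c : ∀ i, k i, π (fun i => algebraMap (k i) (K i) (c i)) = algebraMap C L (θ c)
  der : ∀ x, D' (π x) = π fun i => D i (x i)

theorem exists_dlt (U : Ultrafilter ι) [∀ i, CharZero (k i)] [∀ i, IsAlgClosed (k i)]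
    [∀ i, IsAlgClosed (K i)] (D : ∀ i, Derivation (k i) (K i) (K i)) :
    ∃ (C L : Type) (_ : Field C) (_ : Field L) (_ : Algebra C L) (_ : CharZero C)
      (_ : IsAlgClosed C) (_ : IsAlgClosed L) (D' : Derivation C L L) (π : (∀ i, K i) →+* L)
      (θ : (∀ i, k i) →+* C), Dlt U D C L D' π θ := by
  classical
  have hD : ∀ y : DP U K, ∃ y' : DP U K, ∀ x, dMk U K x = y →
      dMk U K (fun i => D i (x i)) = y' := by
    intro y
    obtain ⟨x, rfl⟩ := dMk_surj y
    refine ⟨dMk U K fun i => D i (x i), fun x' hx' => ?_⟩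
    rw [dMk_eq] at hx' ⊢
    filter_upwards [hx'] with i hi
    rw [hi]
  choose d hd using hD
  have hd' : ∀ x, d (dMk U K x) = dMk U K fun i => D i (x i) := fun x => (hd _ x rfl).symm
  let iA : Algebra (DP U k) (DP U K) := (dMap U k K).toAlgebra
  have hal : ∀ c : ∀ i, k i, dMk U K (fun i => algebraMap (k i) (K i) (c i)) =
      algebraMap (DP U k) (DP U K) (dMk U k c) := fun c => rfl
  have hadd : ∀ y z, d (y + z) = d y + d z := by
    intro y z
    obtain ⟨y, rfl⟩ := dMk_surj y
    obtain ⟨z, rfl⟩ := dMk_surj z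
    rw [← map_add, hd', hd', hd', ← map_add]
    congr 1
    funext i
    exact map_add (D i) _ _
  have hmul : ∀ y z, d (y * z) = y * d z + z * d y := by
    intro y z
    obtain ⟨y, rfl⟩ := dMk_surj y
    obtain ⟨z, rfl⟩ := dMk_surj z
    rw [← map_mul, hd', hd', hd', ← map_mul, ← map_mul, ← map_add]
    congr 1
    funext i
    exact (D i).leibniz _ _
  have hc : ∀ c, d (algebraMap (DP U k) (DP U K) c) = 0 := by
    intro c
    obtain ⟨c, rfl⟩ := dMk_surj c
    rw [← hal, hd', dMk_eq_zero]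
    exact Eventually.of_forall fun i => (D i).map_algebraMap _
  obtain ⟨D', hD'⟩ := der_of d hadd hmul hc
  exact ⟨DP U k, DP U K, inferInstance, inferInstance, iA, dc_char, dc_closed, dc_closed, D',
    dMk U K, dMk U k, ⟨dMk_surj, dMk_surj, fun x => dMk_eq_zero, fun x => dMk_eq_zero, hal,
      fun x => (hD' _).trans (hd' x)⟩⟩

variable {D : ∀ i, Derivation (k i) (K i) (K i)} {C L : Type} [Field C] [Field L] [Algebra C L]
  {D' : Derivation C L L} {π : (∀ i, K i) →+* L} {θ : (∀ i, k i) →+* C}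

theorem Dlt.eq (h : Dlt U D C L D' π θ) {x y : ∀ i, K i} :
    π x = π y ↔ ∀ᶠ i in (U : Filter ι), x i = y i := by
  rw [← sub_eq_zero, ← map_sub, h.zero]
  simp only [Pi.sub_apply, sub_eq_zero]

theorem Dlt.teq (h : Dlt U D C L D' π θ) {x y : ∀ i, k i} :
    θ x = θ y ↔ ∀ᶠ i in (U : Filter ι), x i = y i := by
  rw [← sub_eq_zero, ← map_sub, h.tzero]
  simp only [Pi.sub_apply, sub_eq_zero]

theorem Dlt.inv (h : Dlt U D C L D' π θ) (x : ∀ i, K i) : π (fun i => (x i)⁻¹) = (π x)⁻¹ := by
  by_cases h0 : π x = 0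
  · rw [h0, inv_zero, h.zero]
    filter_upwards [(h.zero x).1 h0] with i hi
    rw [hi, inv_zero]
  · apply eq_inv_of_mul_eq_one_left
    rw [← map_mul, ← map_one π, h.eq]
    have h1 : ∀ᶠ i in (U : Filter ι), x i ≠ 0 :=
      Ultrafilter.eventually_not.2 fun h1 => h0 ((h.zero x).2 h1)
    filter_upwards [h1] with i hi
    exact inv_mul_cancel₀ hi

theorem Dlt.div (h : Dlt U D C L D' π θ) (x y : ∀ i, K i) :
    π (fun i => x i / y i) = π x / π y := by
  rw [div_eq_mul_inv, ← h.inv, ← map_mul]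
  congr 1
  funext i
  exact div_eq_mul_inv _ _

theorem Dlt.con (h : Dlt U D C L D' π θ)
    (hC : ∀ i x, D i x = 0 → ∃ c : k i, algebraMap (k i) (K i) c = x) :
    ∀ x, D' x = 0 → ∃ c : C, algebraMap C L c = x := by
  intro y hy
  obtain ⟨y, rfl⟩ := h.surj y
  rw [h.der, h.zero] at hy
  have h1 : ∀ i, ∃ c : k i, D i (y i) = 0 → algebraMap (k i) (K i) c = y i := by
    intro i
    by_cases h0 : D i (y i) = 0
    · obtain ⟨c, hc⟩ := hC i _ h0
      exact ⟨c, fun _ => hc⟩
    · exact ⟨0, fun h => absurd h h0⟩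
  choose c hc using h1
  refine ⟨θ c, ?_⟩
  rw [← h.alg, h.eq]
  filter_upwards [hy] with i hi
  exact hc i hi

theorem Dlt.ne (h : Dlt U D C L D' π θ) {x : ∀ i, K i} :
    π x ≠ 0 ↔ ∀ᶠ i in (U : Filter ι), x i ≠ 0 := by
  rw [Ne, h.zero]
  exact Ultrafilter.eventually_not.symm

end diff

end Pool.Agent.Helper6.FT
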