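import Pool.Agent.Helper6.FT.Hg

/-! Heights of functions on elliptic curves. -/

set_option autoImplicit false
set_option linter.unusedSectionVars false

namespace Pool.Agent.Helper6.FT

open FF Pool.Agent.W603.LV EE Pool.Agent.Q33.FP IntermediateField Module

variable {k K : Type} [Field k] [Field K] [Algebra k K] [CharZero k] [IsFF k K] [IsAlgClosed k]

/-- the height is the degree -/
theorem hgt_finrank {f : K} (hf : Transcendental k f) : hgt k f = finrank k⟮f⟯ K := by
  classical
  obtain ⟨S, hS, hS2⟩ := poles (k := k) hf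
  obtain ⟨T, hT⟩ := exists_supp (k := k) (Finset.univ : Finset (Fin 1)) ![f]
  have h1 : ∀ P : Place k K, P.ord f ≠ 0 → P ∈ T := fun P => hT 0 (Finset.mem_univ _) P
  have hST : S ⊆ T := fun P hP => h1 P ((hS P).1 hP).ne
  rw [hgt_finset _ T h1, ← Finset.sum_sdiff hST, ← hS2]
  have h2 : ∑ P ∈ T \ S, max (-P.ord f) 0 = 0 := by
    refine Finset.sum_eq_zero fun P hP => ?_
    have h3 := (Finset.mem_sdiff.1 hP).2
    rw [hS] at h3
    omega
  rw [h2, zero_add]
  push_cast
  refine Finset.sum_congr rfl fun P hP => ?_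
  rw [deg_one, (hS P).1 hP |> fun h => max_eq_left (by omega : (0 : ℤ) ≤ -P.ord f)]
  have := (hS P).1 hP
  simp only [Nat.cast_one, mul_one]
  omega

/-- comparison of the heights of functions in `k(x, y)` -/
theorem hgt_x_le {a b : k} {x y ψ : K} (hx : Transcendental k x)
    (hy : y ^ 2 = x ^ 3 + algebraMap k K a * x + algebraMap k K b) (hψ : Transcendental k ψ)
    (hm : ψ ∈ IntermediateField.adjoin k {x, y}) : hgt k x ≤ 2 * hgt k ψ := by
  rw [hgt_finrank hx, hgt_finrank hψ]
  set F := IntermediateField.adjoin k {x, y} with hF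
  have hxF : k⟮x⟯ ≤ F := IntermediateField.adjoin.mono _ _ _ (by simp)
  have hψF : k⟮ψ⟯ ≤ F := by
    rw [IntermediateField.adjoin_le_iff]
    intro z hz
    rw [Set.mem_singleton_iff] at hz
    rw [hz]
    exact hm
  have h1 := IntermediateField.relfinrank_mul_finrank_top hxF
  have h2 := IntermediateField.relfinrank_mul_finrank_top hψF
  have hfin := IsFF.finite hψ
  have h3 : 0 < finrank k⟮ψ⟯ K := Module.finrank_pos
  have h4 : finrank F K ≤ finrank k⟮ψ⟯ K := by
    rw [← h2]
    have h5 : 0 < IntermediateField.relfinrank k⟮ψ⟯ F := by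
      rcases Nat.eq_zero_or_pos (IntermediateField.relfinrank k⟮ψ⟯ F) with h6 | h6
      · rw [h6, zero_mul] at h2
        omega
      · exact h6
    exact Nat.le_mul_of_pos_left _ h5
  have h5 : IntermediateField.relfinrank k⟮x⟯ F ≤ 2 := by
    rw [IntermediateField.relfinrank_eq_finrank_of_le hxF,
      IntermediateField.extendScalars_adjoin hxF]
    have h6 : IntermediateField.adjoin k⟮x⟯ {x, y} = IntermediateField.adjoin k⟮x⟯ {y} := by
      apply le_antisymm
      · rw [IntermediateField.adjoin_le_iff]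
        intro z hz
        rcases hz with rfl | hz
        · exact (IntermediateField.adjoin k⟮z⟯ {y}).algebraMap_mem
            ⟨z, mem_adjoin_simple_self k z⟩
        · exact IntermediateField.subset_adjoin _ _ hz
      · exact IntermediateField.adjoin.mono _ _ _ (by simp)
    rw [h6]
    have h7 : x ^ 3 + algebraMap k K a * x + algebraMap k K b ∈ k⟮x⟯ := by
      have hxm : x ∈ k⟮x⟯ := mem_adjoin_simple_self k x
      exact add_mem (add_mem (pow_mem hxm 3)
        (mul_mem (IntermediateField.algebraMap_mem _ _) hxm))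
        (IntermediateField.algebraMap_mem _ _)
    set P : Polynomial k⟮x⟯ := Polynomial.X ^ 2 - Polynomial.C (⟨_, h7⟩ : k⟮x⟯) with hP
    have hPm : P.Monic := Polynomial.monic_X_pow_sub_C _ two_ne_zero
    have hPr : Polynomial.aeval y P = 0 := by
      rw [hP, map_sub, map_pow, Polynomial.aeval_X, Polynomial.aeval_C, hy]
      exact sub_self _
    have hyi : IsIntegral k⟮x⟯ y := ⟨P, hPm, hPr⟩
    rw [IntermediateField.adjoin.finrank hyi]
    have h8 := Polynomial.natDegree_le_natDegree
      (minpoly.degree_le_of_ne_zero k⟮x⟯ y hPm.ne_zero hPr)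
    refine h8.trans ?_
    rw [hP, Polynomial.natDegree_X_pow_sub_C]
  have h6 : finrank k⟮x⟯ K ≤ 2 * finrank k⟮ψ⟯ K := by
    rw [← h1]
    exact Nat.mul_le_mul h5 h4
  exact_mod_cast h6

/-- **Doubling** increases the height. -/
theorem double {a b : k} (hd : 4 * a ^ 3 + 27 * b ^ 2 ≠ 0) {x y : K} (hx : Transcendental k x)
    (hy : y ^ 2 = x ^ 3 + algebraMap k K a * x + algebraMap k K b) :
    ∃ x' y' : K, Transcendental k x' ∧
      y' ^ 2 = x' ^ 3 + algebraMap k K a * x' + algebraMap k K b ∧ hgt k x + 1 ≤ hgt k x' := by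
  classical
  have hK : CharZero K := cz (C := k) K
  set A := algebraMap k K a with hA
  set B := algebraMap k K b with hB
  have hyc : ∀ c : k, algebraMap k K c ≠ y := by
    intro c hc
    apply hx
    refine ⟨Polynomial.X ^ 3 + Polynomial.C a * Polynomial.X + Polynomial.C (b - c ^ 2), ?_, ?_⟩
    · intro h0
      have h1 := congrArg (fun p => p.coeff 3) h0
      simp only [Polynomial.coeff_add, Polynomial.coeff_X_pow, if_true, Polynomial.coeff_C_mul,
        Polynomial.coeff_zero] at h1
      rw [Polynomial.coeff_X_of_ne_one (by norm_num),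
        Polynomial.coeff_C_of_ne_zero (by norm_num)] at h1
      simp at h1
    · simp only [map_add, map_mul, map_pow, Polynomial.aeval_X, Polynomial.aeval_C, map_sub, hc]
      linear_combination -hy
  have hy0 : y ≠ 0 := by
    intro h
    exact hyc 0 (by rw [map_zero, h])
  have hx0 : x ≠ 0 := by
    rintro rfl
    exact hx isAlgebraic_zero
  set l := (3 * x ^ 2 + A) / (2 * y) with hl
  set x' := l ^ 2 - 2 * x with hx'
  set y' := l * (x - x') - y with hy'
  have hly : 2 * y * l = 3 * x ^ 2 + A := by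
    rw [hl]; field_simp
  have heq : y' ^ 2 = x' ^ 3 + A * x' + B := by
    rw [hy', hx']
    linear_combination hy + (l ^ 2 - 2 * x - x) * hly
  set N := x ^ 4 - 2 * A * x ^ 2 - 8 * B * x + A ^ 2 with hN
  have h40 : (4 : K) ≠ 0 := by norm_num
  have h4k : (4 : k) ≠ 0 := by norm_num
  have hxN : x' = N / (4 * y ^ 2) := by
    rw [eq_div_iff (mul_ne_zero h40 (pow_ne_zero 2 hy0)), hx', hN]
    linear_combination (2 * y * l + (3 * x ^ 2 + A)) * hly - 8 * x * hy
  have h4 : ∀ P : Place k K, P.ord (4 : K) = 0 := by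
    intro P
    have h5 : algebraMap k K 4 = (4 : K) := by rw [map_ofNat]
    rw [← h5]
    exact P.ord_const h4k
  have hden : ∀ P : Place k K, P.ord (4 * y ^ 2) = 2 * P.ord y := by
    intro P
    rw [P.ord_mul h40 (pow_ne_zero 2 hy0), h4, P.ord_pow]
    push_cast; ring
  -- poles of `x`
  have hpole : ∀ P : Place k K, P.ord x < 0 → P.ord x' = P.ord x := by
    intro P hP
    obtain ⟨-, h5⟩ := pole_xy P hP hy
    have h6 : Ge P (P.ord (x ^ 4) + 1) (-(2 * A * x ^ 2) - 8 * B * x + A ^ 2) := by
      rw [P.ord_pow]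
      have hxx : Ge P (P.ord x) x := Or.inr le_rfl
      have e1 : (2 : K) * A = algebraMap k K (2 * a) := by rw [map_mul, map_ofNat]
      have e2 : (8 : K) * B = algebraMap k K (8 * b) := by rw [map_mul, map_ofNat]
      have e3 : A ^ 2 = algebraMap k K (a ^ 2) := by rw [map_pow]
      refine Ge.add (Ge.sub (Ge.neg ?_) ?_) ?_
      · rw [e1]
        exact ((Ge.const (P := P) (2 * a)).mul (hxx.pow 2)).mono (by push_cast; omega)
      · rw [e2]
        exact ((Ge.const (P := P) (8 * b)).mul hxx).mono (by push_cast; omega)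
      · rw [e3]
        exact (Ge.const (P := P) (a ^ 2)).mono (by push_cast; omega)
    obtain ⟨h7, h8⟩ := ge_add_lt P (pow_ne_zero 4 hx0) h6
    have h9 : x ^ 4 + (-(2 * A * x ^ 2) - 8 * B * x + A ^ 2) = N := by rw [hN]; ring
    rw [h9] at h7 h8
    rw [hxN, P.ord_div h7 (mul_ne_zero h40 (pow_ne_zero 2 hy0)), h8, hden, P.ord_pow]
    push_cast; omega
  -- zeros of `y`
  obtain ⟨P0, hP0⟩ : ∃ P : Place k K, P.ord y⁻¹ < 0 := by
    apply exists_pole
    intro c hc
    apply hyc c⁻¹
    rw [map_inv₀, hc, inv_inv]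
  rw [P0.ord_inv] at hP0
  have hx1 : 0 ≤ P0.ord x := by
    by_contra h5
    obtain ⟨-, h6⟩ := pole_xy P0 (by omega) hy
    omega
  have hP0' : P0.ord x' < 0 := by
    have hxx : Ge P0 0 x := Or.inr hx1
    have h5 : (3 * x ^ 2 + 4 * A) * N = algebraMap k K (4 * a ^ 3 + 27 * b ^ 2) +
        (3 * x ^ 3 - 5 * A * x - 27 * B) * y ^ 2 := by
      rw [hN, hy]
      simp only [map_add, map_mul, map_pow, map_ofNat, ← hA, ← hB]
      ring
    have e0 : ∀ m : ℕ, Ge P0 0 (m : K) := fun m => Ge.natCast m
    have eA : Ge P0 0 A := Ge.const a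
    have eB : Ge P0 0 B := Ge.const b
    have h6 : Ge P0 0 (3 * x ^ 2 + 4 * A) := by
      refine Ge.add ?_ ?_
      · have := (e0 3).mul (hxx.pow 2)
        simpa using this
      · have := (e0 4).mul eA
        simpa using this
    have h7 : Ge P0 0 N := by
      rw [hN]
      refine Ge.add (Ge.sub (Ge.sub ?_ ?_) ?_) ?_
      · simpa using hxx.pow 4
      · have := ((e0 2).mul eA).mul (hxx.pow 2)
        simpa using this
      · have := ((e0 8).mul eB).mul hxx
        simpa using this
      · simpa using eA.pow 2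
    have h8 : Ge P0 1 ((3 * x ^ 3 - 5 * A * x - 27 * B) * y ^ 2) := by
      have h9 : Ge P0 0 (3 * x ^ 3 - 5 * A * x - 27 * B) := by
        refine Ge.sub (Ge.sub ?_ ?_) ?_
        · have := (e0 3).mul (hxx.pow 3)
          simpa using this
        · have := ((e0 5).mul eA).mul hxx
          simpa using this
        · have := (e0 27).mul eB
          simpa using this
      have h10 : Ge P0 1 (y ^ 2) := by
        right
        rw [P0.ord_pow]
        push_cast; omega
      simpa using h9.mul h10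
    have hdc : algebraMap k K (4 * a ^ 3 + 27 * b ^ 2) ≠ 0 := by
      rw [Ne, map_eq_zero]; exact hd
    have h9 := ge_add_lt P0 hdc (g := (3 * x ^ 3 - 5 * A * x - 27 * B) * y ^ 2) (by
      rw [P0.ord_const hd]; exact h8)
    rw [← h5, P0.ord_const hd] at h9
    obtain ⟨h10, h11⟩ := h9
    have h12 := left_ne_zero_of_mul h10
    have h13 := right_ne_zero_of_mul h10
    rw [P0.ord_mul h12 h13] at h11
    have h14 := h6.resolve_left h12
    have h15 := h7.resolve_left h13
    rw [hxN, P0.ord_div h13 (mul_ne_zero h40 (pow_ne_zero 2 hy0)), hden]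
    omega
  -- comparison
  have hcmp : hgt k x + 1 ≤ hgt k x' := by
    obtain ⟨T, hT⟩ := exists_supp (k := k) (Finset.univ : Finset (Fin 2)) ![x, x']
    have h5 : ∀ P : Place k K, P.ord x ≠ 0 → P ∈ T := fun P => hT 0 (Finset.mem_univ _) P
    have h6 : ∀ P : Place k K, P.ord x' ≠ 0 → P ∈ T := fun P => hT 1 (Finset.mem_univ _) P
    have h7 : P0 ∈ T := h6 P0 hP0'.ne
    rw [hgt_finset _ T h5, hgt_finset _ T h6, ← Finset.add_sum_erase T _ h7,
      ← Finset.add_sum_erase T (fun P => max (-P.ord x') 0) h7]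
    have h8 : ∑ P ∈ T.erase P0, max (-P.ord x) 0 ≤ ∑ P ∈ T.erase P0, max (-P.ord x') 0 := by
      refine Finset.sum_le_sum fun P _ => ?_
      by_cases h9 : P.ord x < 0
      · rw [hpole P h9]
      · rw [max_eq_right (by omega)]
        exact le_max_right _ _
    have h9 : max (-P0.ord x) 0 = 0 := max_eq_right (by omega)
    have h10 : 1 ≤ max (-P0.ord x') 0 := by omega
    omega
  refine ⟨x', y', ?_, heq, hcmp⟩
  intro halg
  obtain ⟨c, hc⟩ := Pool.Agent.W602.GT.const_of_algebraic halg
  have h5 : hgt k x' = 0 := by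
    rw [hc]
    refine le_antisymm ?_ (hgt_nonneg _)
    by_cases h : c = 0
    · rw [h, map_zero, hgt_zero]
    · rw [hgt_finset (k := k) _ ∅ (fun P hP => absurd (P.ord_const h) hP)]
      rfl
  have h6 := hgt_nonneg (k := k) x
  omega

/-- points of large height -/
theorem exists_big {a b : k} (hd : 4 * a ^ 3 + 27 * b ^ 2 ≠ 0) {x y : K}
    (hx : Transcendental k x) (hy : y ^ 2 = x ^ 3 + algebraMap k K a * x + algebraMap k K b)
    (n : ℕ) : ∃ x' y' : K, Transcendental k x' ∧
      y' ^ 2 = x' ^ 3 + algebraMap k K a * x' + algebraMap k K b ∧ (n : ℤ) ≤ hgt k x' := by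
  induction n with
  | zero => exact ⟨x, y, hx, hy, by simpa using hgt_nonneg x⟩
  | succ n ih =>
    obtain ⟨x1, y1, h1, h2, h3⟩ := ih
    obtain ⟨x2, y2, h4, h5, h6⟩ := double hd h1 h2
    exact ⟨x2, y2, h4, h5, by push_cast; omega⟩

end Pool.Agent.Helper6.FT
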