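import Mathlib

/-! Rational and elliptic curves in projective algebraic sets, given by polynomials. -/

set_option autoImplicit false

namespace Pool.Agent.Helper6.FT

open Polynomial

variable {κ k₀ M : Type} [Field k₀] [Field M] [Algebra k₀ M]

/-- `V` is a nonconstant rational curve of degree at most `d` over the field `M` in the zero set of
the forms in `S`: the homogeneous coordinates are polynomials `V j` of degree at most `d` in one
variable, they satisfy the equations, and two of them are not proportional. -/
structure RatCurve (S : Set (MvPolynomial κ k₀)) (d : ℕ) (V : κ → M[X]) : Prop where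
  deg : ∀ j, (V j).natDegree ≤ d
  nonconst : ∃ i j m l, (V i).coeff m * (V j).coeff l ≠ (V j).coeff m * (V i).coeff l
  mem : ∀ F ∈ S, (MvPolynomial.aeval V F : M[X]) = 0

/-- the polynomial `A(x) + B(x) y` in two variables -/
noncomputable def onE (A B : M[X]) : M[X][X] := C A + C B * X

/-- the equation `y² - (x³ + a x + b)` -/
noncomputable def wei (a b : M) : M[X][X] := X ^ 2 - C (X ^ 3 + C a * X + C b)

/-- the coefficients of `A(x) + B(x) y` -/
noncomputable def cfs (A B : M[X]) : ℕ ⊕ ℕ → M := Sum.elim A.coeff B.coeff

/-- `A(x) + B(x) y` is a nonconstant curve in the zero set of the forms in `S`, parametrised by the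
elliptic curve `y² = x³ + a x + b`: the homogeneous coordinates are `A j (x) + B j (x) y` with
polynomials `A j`, `B j` of degree at most `d` over the field `M`, they satisfy the equations on
the elliptic curve, and two of them are not proportional. -/
structure EllCurve (S : Set (MvPolynomial κ k₀)) (d : ℕ) (a b : M) (A B : κ → M[X]) : Prop where
  disc : 4 * a ^ 3 + 27 * b ^ 2 ≠ 0
  deg : ∀ j, (A j).natDegree ≤ d ∧ (B j).natDegree ≤ d
  nonconst : ∃ i j s t, cfs (A i) (B i) s * cfs (A j) (B j) t ≠
    cfs (A j) (B j) s * cfs (A i) (B i) t
  mem : ∀ F ∈ S, wei a b ∣ (MvPolynomial.aeval (fun j => onE (A j) (B j)) F : M[X][X])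

/-- The point with the homogeneous coordinates `η` lies on a nonconstant rational curve of degree
at most `d` over `M` in the zero set of the forms in `S`. -/
def OnRat (S : Set (MvPolynomial κ k₀)) (d : ℕ) (η : κ → M) : Prop :=
  ∃ V : κ → M[X], RatCurve S d V ∧ ∃ g q : M, ∀ j, η j = g * (V j).eval q

/-- The point with the homogeneous coordinates `η` over `M` lies on a nonconstant elliptic curve of
degree at most `d` in the zero set of the forms in `S`; the elliptic curve `y² = x³ + a x + b` has
coefficients in the subfield `k` (so it is constant), the curve in the zero set is defined over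
`M`. -/
def OnEll (k : Type) [Field k] [Algebra k M] (S : Set (MvPolynomial κ k₀)) (d : ℕ) (η : κ → M) :
    Prop :=
  ∃ (a b : k) (A B : κ → M[X]), EllCurve S d (algebraMap k M a) (algebraMap k M b) A B ∧
    ∃ g x y : M, y ^ 2 = x ^ 3 + algebraMap k M a * x + algebraMap k M b ∧
      ∀ j, η j = g * ((A j).eval x + (B j).eval x * y)

end Pool.Agent.Helper6.FT
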