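import Pool.Agent.Helper6.EE.Lev

/-! Division of points over algebraically closed fields. -/

set_option autoImplicit false
set_option linter.unusedSectionVars false

namespace Pool.Agent.Helper6.FT

open EE Polynomial IntermediateField

section

variable {C L : Type} [Field C] [CharZero C] [Field L] [Algebra C L]

/-- multiples of generic points are generic -/
theorem gen_zsmul {τ : AGp C} (hτ : Nice τ) {G : IntermediateField C L} (hG : acl G ≤ G)
    {P : τ.G L} (hP : τ.Gen G P) {n : ℤ} (hn : n ≠ 0) : τ.Gen G (n • P) := by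
  by_contra hc
  have hL := cz (C := C) L
  have h1 := not_gen_rat hc
  obtain ⟨δ, hδ⟩ := hτ.exd G P hP
  have h2 : τ.lam (δ.restrictScalars C) (n • P) = 0 := by
    apply τ.lam_of_const
    intro x hx
    exact δ.map_algebraMap ⟨x, hG (h1 x hx)⟩
  rw [lam_nat_smul, hδ, mul_one] at h2
  exact hn (by exact_mod_cast h2)

theorem val_comp_incl {F E : IntermediateField C L} (h : F ≤ E) :
    E.val.comp (IntermediateField.inclusion h) = F.val := by
  apply AlgHom.ext
  intro x
  rfl

/-- extension of embeddings -/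
theorem ext_hom {L' : Type} [Field L'] [Algebra C L'] [IsAlgClosed L'] {F E : IntermediateField C L}
    (hFE : F ≤ E) (hE : E ≤ acl F) (φ : F →ₐ[C] L') :
    ∃ ψ : E →ₐ[C] L', ∀ x (hx : x ∈ F) (h : x ∈ E), ψ ⟨x, h⟩ = φ ⟨x, hx⟩ := by
  let iE : Algebra F E := (IntermediateField.inclusion hFE).toRingHom.toAlgebra
  let iL : Algebra F L' := φ.toRingHom.toAlgebra
  have h1 : IsScalarTower F E L := IsScalarTower.of_algebraMap_eq fun x => rfl
  have h2 : IsScalarTower C F E := IsScalarTower.of_algebraMap_eq fun x => rfl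
  have h3 : IsScalarTower C F L' := IsScalarTower.of_algebraMap_eq fun x => (φ.commutes x).symm
  have h4 : Algebra.IsAlgebraic F E := by
    constructor
    rintro ⟨x, hx⟩
    have h5 := mem_acl.1 (hE hx)
    exact (isAlgebraic_algebraMap_iff (A := L) (algebraMap E L).injective).1 h5
  let ψ : E →ₐ[F] L' := IsAlgClosed.lift
  refine ⟨ψ.restrictScalars C, fun x hx h => ?_⟩
  exact ψ.commutes ⟨x, hx⟩

variable [IsAlgClosed L]

/-- division of generic points -/
theorem div_gen {τ : AGp C} (hτ : Nice τ) {G : IntermediateField C L} (hG : acl G ≤ G)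
    {P Q : τ.G L} (hP : τ.Gen G P) (hQ : τ.Gen G Q) {N : ℕ} (hN : 0 < N) :
    ∃ P' : τ.G L, (N : ℤ) • P' = Q := by
  have hN0 : (N : ℤ) ≠ 0 := by exact_mod_cast hN.ne'
  have h1 := gen_zsmul hτ hG hP hN0
  obtain ⟨φ, hφ1, hφ2⟩ := hτ.lift G ((N : ℤ) • P) Q h1 hQ
  have hle : τ.adj G ((N : ℤ) • P) ≤ τ.adj G P :=
    τ.adj_le (τ.le_adj G P) ((τ.rat_adj G P).zsmul N)
  have hal : τ.adj G P ≤ acl (τ.adj G ((N : ℤ) • P)) :=
    alg_of_gen hτ hP h1 ((τ.rat_adj G P).zsmul N) (τ.le_adj G _) (τ.rat_adj G _)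
  obtain ⟨ψ, hψ⟩ := ext_hom hle hal φ
  obtain ⟨P₀, hP₀⟩ := (τ.rat_iff _ _).1 (τ.rat_adj G P)
  obtain ⟨Q₀, hQ₀⟩ := (τ.rat_iff _ _).1 (τ.rat_adj G ((N : ℤ) • P))
  have h2 := hφ2 Q₀ hQ₀
  refine ⟨τ.map ψ P₀, ?_⟩
  rw [← map_zsmul, ← h2]
  have h3 : (N : ℤ) • P₀ = τ.map (IntermediateField.inclusion hle) Q₀ := by
    apply τ.map_inj (τ.adj G P).val
    rw [map_zsmul, hP₀, τ.map_map]
    rw [val_comp_incl hle, hQ₀]
  rw [h3, τ.map_map]
  apply τ.map_congr
  intro x _
  exact hψ x x.2 (hle x.2)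

/-- generic points -/
theorem exists_gen {E : C → C → Prop} {τ : AGp C} (hA : A1 E τ) {G : IntermediateField C L}
    {t : L} (ht : Transcendental G t) : ∃ P : τ.G L, τ.Gen G P := by
  have hL := cz (C := C) L
  rcases hA with rfl | ⟨a, b, -, -, rfl⟩
  · have ht0 : t ≠ 0 := by
      rintro rfl
      exact ht isAlgebraic_zero
    exact ⟨Additive.ofMul (Units.mk0 t ht0), t, List.mem_singleton_self _, ht⟩
  · obtain ⟨y, hy⟩ := IsAlgClosed.exists_pow_nat_eq
      (t ^ 3 + algebraMap C L a * t + algebraMap C L b) (n := 2) two_pos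
    have h1 : 3 * t ^ 2 + algebraMap C L a ≠ 0 := by
      intro h0
      apply ht
      refine ⟨Polynomial.C 3 * X ^ 2 + Polynomial.C (algebraMap C G a), ?_, ?_⟩
      · intro h2
        have h3 := congrArg (fun p => p.coeff 2) h2
        simp only [coeff_add, coeff_C_mul, coeff_X_pow, if_true, mul_one, coeff_zero] at h3
        rw [coeff_C_of_ne_zero (by norm_num), add_zero] at h3
        have : CharZero G := cz (C := C) G
        exact three_ne_zero h3
      · simp only [map_add, map_mul, aeval_C, map_pow, aeval_X, map_ofNat]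
        exact h0
    have h2 : (WK a b L).Nonsingular t y := (WK_nonsingular a b t y).2 ⟨hy, Or.inl h1⟩
    refine ⟨WeierstrassCurve.Affine.Point.some t y h2, t, ?_, ht⟩
    change t ∈ [t, y]
    simp

/-- division of all points -/
theorem div_all {E : C → C → Prop} {τ : AGp C} (hA : A1 E τ) {G : IntermediateField C L}
    (hG : acl G ≤ G) {t : L} (ht : Transcendental G t) (P : τ.G L) {N : ℕ} (hN : 0 < N) :
    ∃ P' : τ.G L, (N : ℤ) • P' = P := by
  have hτ := hA.nice
  obtain ⟨P₁, hP₁⟩ := exists_gen hA ht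
  by_cases hP : τ.Gen G P
  · exact div_gen hτ hG hP₁ hP hN
  · have hr := not_gen_rat hP
    have h2 : τ.Gen G (P₁ + P) := by
      by_contra hc
      have h3 := (not_gen_rat hc).sub hr
      rw [add_sub_cancel_right] at h3
      exact rat_not_gen h3 hP₁
    obtain ⟨R, hR⟩ := div_gen hτ hG hP₁ hP₁ hN
    obtain ⟨S, hS⟩ := div_gen hτ hG hP₁ h2 hN
    refine ⟨S - R, ?_⟩
    rw [smul_sub, hS, hR]
    abel

/-- an intermediate field as a subspace -/
def usub (G : IntermediateField C L) : Submodule C L := Subalgebra.toSubmodule G.toSubalgebra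

theorem mem_usub {G : IntermediateField C L} {x : L} : x ∈ usub G ↔ x ∈ G := Iff.rfl

theorem hyp_of {E : C → C → Prop} {D : Derivation C L L}
    (hcon : ∀ x, D x = 0 → ∃ c : C, algebraMap C L c = x) {G : IntermediateField C L}
    (hst : Stab D G) (hG : acl G ≤ G) {t : L} (ht : Transcendental G t) :
    Hyp (A1 E) D G (usub G) where
  nice := fun τ h => h.nice
  con := hcon
  stab := hst
  le := fun x hx => hx
  div := fun τ hA P _ N hN => div_all hA hG ht P hN
  divG := fun τ hA P hP _ N hN => by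
    obtain ⟨P', hP'⟩ := div_all hA hG ht P hN
    refine ⟨P', ?_, hP'⟩
    have hN0 : (N : ℤ) ≠ 0 := by exact_mod_cast hN.ne'
    have h1 : ¬ τ.Gen G P' := by
      intro hc
      have h2 := gen_zsmul hA.nice hG hc hN0
      rw [hP'] at h2
      obtain ⟨x, hx, hxt⟩ := h2
      exact hxt (isAlgebraic_algebraMap (⟨x, hP x hx⟩ : G))
    exact (not_gen_rat h1).mono hG

end

end Pool.Agent.Helper6.FT
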