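import Pool.Graph.R_seed8.W603.LV.Root
import Pool.Graph.R_seed8.W602.GT.Der

/-! Derivations of the algebraic closure of a function field. -/

set_option autoImplicit false

namespace Pool.Agent.Helper6.FT

open Polynomial FF Pool.Agent.W603.LV

variable {k K Kb : Type} [Field k] [Field K] [Field Kb] [Algebra k K] [Algebra k Kb] [Algebra K Kb]
  [IsScalarTower k K Kb] [CharZero k]

/-- extension of derivations to algebraic extensions -/
theorem ext_der [Algebra.IsAlgebraic K Kb] (D : Derivation k K K) :
    ∃ D' : Derivation k Kb Kb, ∀ x : K, D' (algebraMap K Kb x) = algebraMap K Kb (D x) := by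
  have hchar : CharZero K := charZero_of_injective_algebraMap (algebraMap k K).injective
  have hsep : Algebra.IsSeparable K Kb := inferInstance
  have h1 : Algebra.FormallyEtale K Kb := Algebra.FormallyEtale.of_isSeparable _ _
  let e := KaehlerDifferential.tensorKaehlerEquivOfFormallyEtale k K Kb
  let l : Ω[K⁄k] →ₗ[K] Kb := (Algebra.linearMap K Kb).comp D.liftKaehlerDifferential
  let Λ : Ω[Kb⁄k] →ₗ[Kb] Kb := (LinearMap.liftBaseChange Kb l).comp e.symm.toLinearMap
  let D' : Derivation k Kb Kb := Λ.compDer (KaehlerDifferential.D k Kb)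
  refine ⟨D', fun x => ?_⟩
  change LinearMap.liftBaseChange Kb l (e.symm (KaehlerDifferential.D k Kb
    (algebraMap K Kb x))) = _
  rw [KaehlerDifferential.tensorKaehlerEquivOfFormallyEtale_symm_D_algebraMap]
  simp [l]

omit [CharZero k] in
/-- derivative of the value of a polynomial -/
theorem der_aeval (D : Derivation k K K) (D' : Derivation k Kb Kb)
    (h : ∀ x : K, D' (algebraMap K Kb x) = algebraMap K Kb (D x)) (p : K[X]) (x : Kb) :
    ∃ q : K[X], (∀ n, q.coeff n = D (p.coeff n)) ∧
      D' (aeval x p) = aeval x q + aeval x (derivative p) * D' x := by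
  induction p using Polynomial.induction_on' with
  | add p q hp hq =>
    obtain ⟨p', hp1, hp2⟩ := hp
    obtain ⟨q', hq1, hq2⟩ := hq
    refine ⟨p' + q', fun n => by rw [coeff_add, coeff_add, hp1, hq1, map_add], ?_⟩
    rw [map_add, map_add, hp2, hq2, map_add, derivative_add, map_add]
    ring
  | monomial n a =>
    refine ⟨monomial n (D a), fun m => ?_, ?_⟩
    · rw [coeff_monomial, coeff_monomial]
      split_ifs
      · rfl
      · rw [map_zero]
    · rw [aeval_monomial, aeval_monomial, D'.leibniz, D'.leibniz_pow, h, derivative_monomial,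
        aeval_monomial]
      simp only [smul_eq_mul, nsmul_eq_mul, map_mul, map_natCast]
      ring

/-- the constants of the algebraic closure -/
theorem const_ext [IsAlgClosed k] [IsFF k K] [Algebra.IsAlgebraic K Kb] {D : Derivation k K K}
    (hD : D ≠ 0) {D' : Derivation k Kb Kb}
    (h : ∀ x : K, D' (algebraMap K Kb x) = algebraMap K Kb (D x)) {x : Kb} (hx : D' x = 0) :
    ∃ c : k, algebraMap k Kb c = x := by
  have hint : IsIntegral K x := (Algebra.IsAlgebraic.isAlgebraic (R := K) x).isIntegral
  obtain ⟨q, hq, he⟩ := der_aeval D D' h (minpoly K x) x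
  rw [minpoly.aeval, map_zero, hx, mul_zero, add_zero] at he
  have hq0 : q = 0 := by
    by_contra hne
    have h1 := minpoly.degree_le_of_ne_zero K x hne he.symm
    have h2 : q.degree < (minpoly K x).degree := by
      rw [degree_eq_natDegree (minpoly.ne_zero hint)]
      rw [degree_lt_iff_coeff_zero]
      intro m hm
      rw [hq]
      rcases hm.lt_or_eq with hm | hm
      · rw [coeff_eq_zero_of_natDegree_lt hm, map_zero]
      · rw [← hm, (minpoly.monic hint).coeff_natDegree, Derivation.map_one_eq_zero]
    exact absurd h1 (not_le.2 h2)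
  have hc : ∀ n, ∃ c : k, (minpoly K x).coeff n = algebraMap k K c := by
    intro n
    apply const_of_der hD
    rw [← hq, hq0, coeff_zero]
  have halg : IsAlgebraic k x := by
    choose c hc using hc
    have hl : minpoly K x ∈ Polynomial.lifts (algebraMap k K) := by
      rw [Polynomial.lifts_iff_coeff_lifts]
      intro n
      exact ⟨c n, (hc n).symm⟩
    obtain ⟨P, hP⟩ := (Polynomial.mem_lifts _).1 hl
    refine ⟨P, ?_, ?_⟩
    · rintro rfl
      rw [Polynomial.map_zero] at hP
      exact minpoly.ne_zero hint hP.symm
    · have := minpoly.aeval K x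
      rw [← hP, aeval_map_algebraMap] at this
      exact this
  obtain ⟨c, hc⟩ := Pool.Agent.W602.GT.const_of_algebraic halg
  exact ⟨c, hc.symm⟩

end Pool.Agent.Helper6.FT
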