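import Pool.Graph.R_seed8.W603.LV.Root
import Pool.Graph.R_pool_sql_team_seeded_3997aac3.Q33.FP.Ht
import Pool.Agent.Helper6.EE.Pl3

/-! Heights of logarithmic derivatives. -/

set_option autoImplicit false
set_option linter.unusedSectionVars false

namespace Pool.Agent.Helper6.FT

open FF Pool.Agent.W603.LV EE

variable {k K : Type} [Field k] [Field K] [Algebra k K]

/-- A term over the function field `K` for the finite set `S` of places: a function without zeros
and poles outside `S`, or a coordinate `x` or `y` of a point of an elliptic curve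
`y² = x³ + a x + b` with constant coefficients. -/
def Term (S : Finset (Place k K)) (w : K) : Prop :=
  (w ≠ 0 ∧ ∀ P ∉ S, P.ord w = 0) ∨
  ∃ (a b : k) (x y : K), 4 * a ^ 3 + 27 * b ^ 2 ≠ 0 ∧
    y ^ 2 = x ^ 3 + algebraMap k K a * x + algebraMap k K b ∧ (w = x ∨ w = y)

theorem nonsing {C F : Type} [Field C] [Field F] [Algebra C F] [CharZero C] {a b : C}
    (hd : 4 * a ^ 3 + 27 * b ^ 2 ≠ 0) {x y : F}
    (hy : y ^ 2 = x ^ 3 + algebraMap C F a * x + algebraMap C F b) :
    (WK a b F).Nonsingular x y := by
  have hF := cz (C := C) F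
  refine (WK_nonsingular a b x y).2 ⟨hy, ?_⟩
  by_contra hcon
  push Not at hcon
  obtain ⟨h1, h2⟩ := hcon
  have hy0 : y = 0 := by
    have h3 : (2 : F) * y = 0 := by linear_combination h2
    exact (mul_eq_zero.1 h3).resolve_left two_ne_zero
  rw [hy0] at hy
  apply hd
  apply (algebraMap C F).injective
  rw [map_zero]
  simp only [map_add, map_mul, map_pow, map_ofNat]
  linear_combination (-(27 * algebraMap C F b - 18 * algebraMap C F a * x)) * hy +
    (6 * algebraMap C F a * x ^ 2 - 9 * algebraMap C F b * x + 4 * algebraMap C F a ^ 2) * h1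

variable [CharZero k] [IsFF k K] [IsAlgClosed k]

open Classical in
/-- the indicator function -/
noncomputable def chi (S : Finset (Place k K)) (P : Place k K) : ℤ := if P ∈ S then 1 else 0

/-- a derivation with small zeros -/
structure GoodD (S : Finset (Place k K)) (D : Derivation k K K) : Prop where
  ne : D ≠ 0
  vo : ∀ P, vo P D ≤ chi S P

theorem rs_self (D : Derivation k K K) : D.restrictScalars k = D := Derivation.ext fun _ => rfl

theorem exists_good {S : Finset (Place k K)} {w : K} (hw : Term S w)
    (hc : ∀ c : k, algebraMap k K c ≠ w) : ∃ D : Derivation k K K, GoodD S D := by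
  have hD0 := der_ne (k := k) (K := K)
  set D0 := der k K with hD0d
  rcases hw with ⟨h0, h1⟩ | ⟨a, b, x, y, hd, hy, hxy⟩
  · have h2 : D0 w ≠ 0 := by
      intro h
      obtain ⟨c, hc'⟩ := const_of_der hD0 h
      exact hc c hc'.symm
    set D : Derivation k K K := (w / D0 w) • D0 with hDd
    have hDw : D w = w := by
      rw [hDd, Derivation.coe_smul, Pi.smul_apply, smul_eq_mul]
      field_simp
    have hD : D ≠ 0 := by
      intro h
      rw [h] at hDw
      exact h0 hDw.symm
    refine ⟨D, hD, fun P => ?_⟩
    unfold chi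
    split_ifs with hP
    · have h3 := tgt_Gm (C := k) D hD P (Additive.ofMul (Units.mk0 w h0))
      change Ge P (vo P D - 1) (D w / w) at h3
      rw [hDw, div_self h0] at h3
      have h4 := h3.resolve_left one_ne_zero
      rw [P.ord_one] at h4
      omega
    · have h3 := der_ge P hD (f := w) (Or.inr (h1 P hP).ge)
      rw [hDw] at h3
      have h4 := h3.resolve_left h0
      rw [h1 P hP] at h4
      exact h4
  · have hns := nonsing hd hy
    set Q : (Ell a b).G K := WeierstrassCurve.Affine.Point.some x y hns with hQ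
    have hs : (Ell a b).lam D0 Q ≠ 0 := by
      intro h
      have h1 := (Ell a b).const_of_lam D0 Q h
      have h2 : ∀ z ∈ [x, y], D0 z = 0 := h1
      rcases hxy with rfl | rfl
      · obtain ⟨c, hc'⟩ := const_of_der hD0 (h2 w (by simp))
        exact hc c hc'.symm
      · obtain ⟨c, hc'⟩ := const_of_der hD0 (h2 w (by simp))
        exact hc c hc'.symm
    set D : Derivation k K K := ((Ell a b).lam D0 Q)⁻¹ • D0 with hDd
    have h1 : (Ell a b).lam D Q = 1 := by
      rw [hDd, (Ell a b).lam_smul, inv_mul_cancel₀ hs]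
    have hD : D ≠ 0 := by
      intro h
      rw [h, (Ell a b).lam_zero_der] at h1
      exact zero_ne_one h1
    refine ⟨D, hD, fun P => ?_⟩
    have h3 := tgtE_Ell hd D hD P Q
    rw [rs_self, h1] at h3
    have h4 := h3.resolve_left one_ne_zero
    rw [P.ord_one] at h4
    refine h4.trans ?_
    unfold chi
    split_ifs <;> norm_num

section bounds

variable {S : Finset (Place k K)} {D : Derivation k K K} (h : GoodD S D)
include h

/-- comparison of heights -/
theorem hgt_cmp (f g : K) (α : ℕ)
    (hP : ∀ P : Place k K, -P.ord g ≤ α * max (-P.ord f) 0 + (chi S P - vo P D)) :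
    hgt k g ≤ α * hgt k f + (canDeg k K + S.card) := by
  classical
  obtain ⟨T1, hT1⟩ := exists_supp (k := k) (Finset.univ : Finset (Fin 2)) ![f, g]
  set T : Finset (Place k K) := T1 ∪ (vo_finite h.ne).toFinset ∪ S with hT
  have h1 : ∀ P : Place k K, P.ord f ≠ 0 → P ∈ T := by
    intro P hP
    have := hT1 0 (Finset.mem_univ _) P hP
    simp [hT, this]
  have h2 : ∀ P : Place k K, P.ord g ≠ 0 → P ∈ T := by
    intro P hP
    have := hT1 1 (Finset.mem_univ _) P hP
    simp [hT, this]
  have h3 : ∀ P : Place k K, vo P D ≠ 0 → P ∈ T := by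
    intro P hP
    simp [hT, hP]
  have hST : S ⊆ T := by
    intro P hP
    simp [hT, hP]
  have h4 : ∑ P ∈ T, (chi S P - vo P D) = canDeg k K + S.card := by
    rw [Finset.sum_sub_distrib, canDeg_finset h.ne T h3]
    have h5 : ∑ P ∈ T, chi S P = S.card := by
      unfold chi
      rw [← Finset.sum_filter, Finset.filter_mem_eq_inter, Finset.inter_eq_right.2 hST]
      simp
    rw [h5]
    ring
  rw [hgt_finset _ T h1, hgt_finset _ T h2, ← h4, Finset.mul_sum, ← Finset.sum_add_distrib]
  refine Finset.sum_le_sum fun P _ => ?_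
  refine max_le (hP P) ?_
  have h5 := h.vo P
  have h6 : (0 : ℤ) ≤ α * max (-P.ord f) 0 := mul_nonneg (by positivity) (le_max_right _ _)
  omega

theorem z_nonneg : 0 ≤ canDeg k K + S.card := by
  have h1 := hgt_cmp h (0 : K) (0 : K) 0 (fun P => by
    rw [P.ord_zero]
    have := h.vo P
    push_cast
    omega)
  rw [hgt_zero] at h1
  simpa using h1

theorem hgt_D (f : K) : hgt k (D f) ≤ 2 * hgt k f + (canDeg k K + S.card) := by
  have h1 := hgt_cmp h f (D f) 2 (fun P => by
    have hv := h.vo P
    have hchi : 0 ≤ chi S P := by unfold chi; split_ifs <;> norm_num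
    by_cases h0 : P.ord f = 0
    · have h2 := der_ge P h.ne (f := f) (Or.inr h0.ge)
      rcases h2 with h2 | h2
      · rw [h2, P.ord_zero, h0]
        push_cast
        omega
      · rw [h0]
        push_cast
        omega
    · obtain ⟨-, h2⟩ := ord_der P h.ne h0
      rw [h2]
      push_cast
      omega)
  exact_mod_cast h1

theorem hgt_unit {w : K} (h0 : w ≠ 0) (h1 : ∀ P ∉ S, P.ord w = 0) :
    hgt k (D w / w) ≤ canDeg k K + S.card := by
  have h2 := hgt_cmp h (0 : K) (D w / w) 0 (fun P => by
    have hv := h.vo P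
    by_cases hP : P ∈ S
    · have h3 := tgt_Gm (C := k) D h.ne P (Additive.ofMul (Units.mk0 w h0))
      change Ge P (vo P D - 1) (D w / w) at h3
      have hchi : chi S P = 1 := by unfold chi; rw [if_pos hP]
      rcases h3 with h3 | h3
      · rw [h3, P.ord_zero]
        push_cast
        omega
      · push_cast
        omega
    · have h3 := Ge.div_unit (der_ge P h.ne (f := w) (Or.inr (h1 P hP).ge)) (h1 P hP)
      have hchi : chi S P = 0 := by unfold chi; rw [if_neg hP]
      rcases h3 with h3 | h3
      · rw [h3, P.ord_zero]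
        push_cast
        omega
      · push_cast
        omega)
  simpa using h2

theorem hgt_ell {a b : k} (hd : 4 * a ^ 3 + 27 * b ^ 2 ≠ 0) (Q : (Ell a b).G K) :
    hgt k ((Ell a b).lam D Q) ≤ canDeg k K + S.card := by
  have h2 := hgt_cmp h (0 : K) ((Ell a b).lam D Q) 0 (fun P => by
    have hv := h.vo P
    have hchi : 0 ≤ chi S P := by unfold chi; split_ifs <;> norm_num
    have h3 := tgtE_Ell hd D h.ne P Q
    rw [rs_self] at h3
    rcases h3 with h3 | h3
    · rw [h3, P.ord_zero]
      push_cast
      omega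
    · push_cast
      omega)
  simpa using h2

end bounds

section ht

open Pool.Agent.Q33.FP

/-- upper bound for the height of a point -/
theorem ht_le_sum {κ : Type} [Fintype κ] (p : κ → K) {l : κ} (hl : p l ≠ 0) :
    ht k p ≤ ∑ j, hgt k (p j / p l) := by
  classical
  have hfin : {c | p c ≠ 0}.Finite := Set.toFinite _
  have h1 : ht k (fun j => p j / p l) = ht k p :=
    ht_mul (a := (p l)⁻¹) hfin (inv_ne_zero hl) fun j => by rw [div_eq_mul_inv, mul_comm]
  rw [← h1]
  obtain ⟨T, hT⟩ := exists_supp (k := k) (Finset.univ : Finset κ) (fun j => p j / p l)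
  have hs : (Function.support fun P : Place k K => -∑ j, max (-P.ord (p j / p l)) 0) ⊆ T := by
    intro P hP
    by_contra hPT
    apply hP
    change -∑ j, max (-P.ord (p j / p l)) 0 = 0
    rw [neg_eq_zero]
    refine Finset.sum_eq_zero fun j _ => ?_
    have h2 : P.ord (p j / p l) = 0 := by
      by_contra h3
      exact hPT (hT j (Finset.mem_univ _) P h3)
    rw [h2]; rfl
  have h2 := ht_le (k := k) (x := fun j => p j / p l) (Set.toFinite _)
    ⟨l, by rw [div_self hl]; exact one_ne_zero⟩
    (fun P => -∑ j, max (-P.ord (p j / p l)) 0) (T.finite_toSet.subset hs) (by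
      intro P j
      right
      have h3 := Finset.single_le_sum (f := fun j => max (-P.ord (p j / p l)) 0)
        (fun j _ => le_max_right _ _) (Finset.mem_univ j)
      have h4 := le_max_left (-P.ord (p j / p l)) 0
      change -∑ j, max (-P.ord (p j / p l)) 0 ≤ P.ord (p j / p l)
      omega)
  refine h2.trans (le_of_eq ?_)
  rw [finsum_eq_sum_of_support_subset _ hs, Finset.sum_neg_distrib, neg_neg, Finset.sum_comm]
  refine Finset.sum_congr rfl fun j _ => ?_
  exact (hgt_finset _ T fun P hP => hT j (Finset.mem_univ _) P hP).symm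

/-- ratios of coefficients -/
theorem hgt_ratio_le {κ : Type} {c : κ → K} (hc : {a | c a ≠ 0}.Finite) {a b : κ}
    (hb : c b ≠ 0) : hgt k (c a / c b) ≤ ht k c := by
  by_cases ha : c a = 0
  · rw [ha, zero_div, hgt_zero]
    exact ht_nonneg hc
  · exact hgt_ratio (mo_supp hc) (fun P a => mo_ge P hc a) ha hb

end ht

end Pool.Agent.Helper6.FT
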