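import Pool.Agent.Helper6.FT.DU
import Pool.Agent.Helper6.EV.Ell

/-! Transfer of polynomial identities from the ultraproduct. -/

set_option autoImplicit false
set_option linter.unusedSectionVars false

namespace Pool.Agent.Helper6.FT

open EE EV EU Polynomial Filter

/-- the evaluation at an index -/
abbrev ev {ι : Type} {K : ι → Type} [∀ i, CommRing (K i)] (i : ι) : (∀ i, K i) →+* K i :=
  Pi.evalRingHom K i

/-- the equation of the curve over a ring -/
noncomputable def weqR {M : Type} [CommRing M] (a b : M) : M[X][X] :=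
  X ^ 2 - Polynomial.C (X ^ 3 + Polynomial.C a * X + Polynomial.C b)

theorem weqR_monic {M : Type} [CommRing M] (a b : M) : (weqR a b).Monic :=
  monic_X_pow_sub_C _ two_ne_zero

theorem weqR_eq {M : Type} [Field M] (a b : M) : weqR a b = weq a b := rfl

theorem weqR_map {M R : Type} [CommRing M] [CommRing R] (φ : M →+* R) (a b : M) :
    (weqR a b).map (mapRingHom φ) = weqR (φ a) (φ b) := by
  unfold weqR
  rw [Polynomial.map_sub, Polynomial.map_pow, map_X, map_C, coe_mapRingHom]
  simp

theorem ev2 {κ R0 R1 C0 L1 : Type} [CommRing R0] [CommRing R1] [CommRing C0] [CommRing L1]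
    (α : R0 →+* R1) (θ : R0 →+* C0) (P : R1 →+* L1) (γ : C0 →+* L1) (h : P.comp α = γ.comp θ)
    (F : MvPolynomial κ R0) (v : κ → R1) :
    P (MvPolynomial.eval₂ α v F) =
      MvPolynomial.eval₂ γ (fun j => P (v j)) (MvPolynomial.map θ F) := by
  rw [MvPolynomial.eval₂_map, ← h]
  exact MvPolynomial.eval₂_comp_left P α v F

section

variable {ι : Type} {U : Ultrafilter ι} {k K : ι → Type} [∀ i, Field (k i)] [∀ i, Field (K i)]
  [∀ i, Algebra (k i) (K i)] {L : Type} [Field L] {π : (∀ i, K i) →+* L}

theorem los_poly (h : ∀ x, π x = 0 ↔ ∀ᶠ i in (U : Filter ι), x i = 0) (P : (∀ i, K i)[X]) :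
    P.map π = 0 ↔ ∀ᶠ i in (U : Filter ι), P.map (ev i) = 0 := by
  constructor
  · intro h0
    have h1 : ∀ m ∈ P.support, ∀ᶠ i in (U : Filter ι), P.coeff m i = 0 := by
      intro m _
      rw [← h, ← coeff_map, h0, coeff_zero]
    filter_upwards [(eventually_all_finset _).2 h1] with i hi
    ext m
    rw [coeff_map, coeff_zero]
    by_cases hm : m ∈ P.support
    · exact hi m hm
    · rw [notMem_support_iff.1 hm]; rfl
  · intro h0
    ext m
    rw [coeff_map, coeff_zero, h]
    filter_upwards [h0] with i hi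
    have := congrArg (fun Q => Q.coeff m) hi
    simpa using this

theorem los_poly2 (h : ∀ x, π x = 0 ↔ ∀ᶠ i in (U : Filter ι), x i = 0) (P : (∀ i, K i)[X][X]) :
    P.map (mapRingHom π) = 0 ↔ ∀ᶠ i in (U : Filter ι), P.map (mapRingHom (ev i)) = 0 := by
  constructor
  · intro h0
    have h1 : ∀ m ∈ P.support, ∀ᶠ i in (U : Filter ι), (P.coeff m).map (ev i) = 0 := by
      intro m _
      rw [← los_poly h]
      have h2 := congrArg (fun Q => Q.coeff m) h0
      simpa using h2
    filter_upwards [(eventually_all_finset _).2 h1] with i hi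
    ext1 m
    rw [coeff_map, coeff_zero]
    by_cases hm : m ∈ P.support
    · exact hi m hm
    · rw [notMem_support_iff.1 hm, map_zero]
  · intro h0
    ext1 m
    rw [coeff_map, coeff_zero, coe_mapRingHom, los_poly h]
    filter_upwards [h0] with i hi
    have := congrArg (fun Q => Q.coeff m) hi
    simpa using this

variable {κ : Type} [Fintype κ]

/-- the class of a sequence of forms -/
noncomputable def til (e : ℕ) (F : ∀ i, MvPolynomial κ (k i)) : MvPolynomial κ (∀ i, k i) :=
  letI := Classical.decEq κ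
  ∑ m ∈ Finset.finsuppAntidiag (Finset.univ : Finset κ) e,
    MvPolynomial.monomial m fun i => (F i).coeff m

theorem til_hom {R : Type} [CommRing R] (e : ℕ) (F : ∀ i, MvPolynomial κ (k i))
    (φ : (∀ i, k i) →+* R) : (MvPolynomial.map φ (til e F)).IsHomogeneous e := by
  classical
  unfold til
  rw [map_sum]
  refine MvPolynomial.IsHomogeneous.sum _ _ _ fun m hm => ?_
  rw [MvPolynomial.map_monomial]
  apply MvPolynomial.isHomogeneous_monomial
  rw [Finset.mem_finsuppAntidiag] at hm
  rw [← hm.1, Finsupp.degree]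
  exact Finset.sum_subset (Finset.subset_univ _) fun x _ hx => Finsupp.notMem_support_iff.1 hx

theorem til_coeff {R : Type} [CommRing R] (e : ℕ) (F : ∀ i, MvPolynomial κ (k i))
    (φ : (∀ i, k i) →+* R) (m : κ →₀ ℕ) : (MvPolynomial.map φ (til e F)).coeff m = 0 ∨
      (MvPolynomial.map φ (til e F)).coeff m = φ fun i => (F i).coeff m := by
  classical
  unfold til
  rw [map_sum]
  simp only [MvPolynomial.map_monomial]
  rw [MvPolynomial.coeff_sum]
  simp only [MvPolynomial.coeff_monomial]
  rw [Finset.sum_ite_eq']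
  split_ifs with h1
  · exact Or.inr rfl
  · exact Or.inl rfl

theorem til_ev {e : ℕ} {F : ∀ i, MvPolynomial κ (k i)} {i : ι} (hF : (F i).IsHomogeneous e) :
    MvPolynomial.map (ev i) (til e F) = F i := by
  classical
  unfold til
  rw [map_sum]
  simp only [MvPolynomial.map_monomial]
  ext m
  rw [MvPolynomial.coeff_sum]
  simp only [MvPolynomial.coeff_monomial]
  rw [Finset.sum_ite_eq']
  split_ifs with h1
  · rfl
  · by_contra h2
    apply h1
    rw [Finset.mem_finsuppAntidiag]
    refine ⟨?_, Finset.subset_univ _⟩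
    have h3 := hF (Ne.symm h2)
    rw [Finsupp.weight_apply, Finsupp.sum_fintype] at h3
    · simpa using h3
    · intro i; simp

theorem dal_ev (i : ι) : (ev i : (∀ i, K i) →+* K i).comp (dal k K) =
    (algebraMap (k i) (K i)).comp (ev i) :=
  rfl

theorem los_val (h : ∀ x, π x = 0 ↔ ∀ᶠ i in (U : Filter ι), x i = 0) {e : ℕ}
    {F : ∀ i, MvPolynomial κ (k i)}
    (hF : ∀ᶠ i in (U : Filter ι), (F i).IsHomogeneous e) (v : κ → ∀ i, K i) :
    MvPolynomial.eval₂ (RingHom.id L) (fun j => π (v j))
      (MvPolynomial.map (π.comp (dal k K)) (til e F)) = 0 ↔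
      ∀ᶠ i in (U : Filter ι), MvPolynomial.aeval (fun j => v j i) (F i) = 0 := by
  rw [← ev2 (dal k K) (π.comp (dal k K)) π (RingHom.id L) rfl, h]
  have h1 : ∀ᶠ i in (U : Filter ι), MvPolynomial.eval₂ (dal k K) v (til e F) i =
      MvPolynomial.aeval (fun j => v j i) (F i) := by
    filter_upwards [hF] with i hi
    have h2 := ev2 (dal k K) (ev i) (ev i) (algebraMap (k i) (K i)) (dal_ev i) (til e F) v
    rw [til_ev hi] at h2
    exact h2
  constructor
  · intro h2
    filter_upwards [h1, h2] with i h3 h4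
    rw [← h3, h4]
  · intro h2
    filter_upwards [h1, h2] with i h3 h4
    rw [h3, h4]

theorem los_rat (h : ∀ x, π x = 0 ↔ ∀ᶠ i in (U : Filter ι), x i = 0) {e : ℕ}
    {F : ∀ i, MvPolynomial κ (k i)}
    (hF : ∀ᶠ i in (U : Filter ι), (F i).IsHomogeneous e) (V : κ → (∀ i, K i)[X]) :
    MvPolynomial.eval₂ Polynomial.C (fun j => (V j).map π)
      (MvPolynomial.map (π.comp (dal k K)) (til e F)) = 0 ↔
      ∀ᶠ i in (U : Filter ι),
        (MvPolynomial.aeval (fun j => (V j).map (ev i)) (F i) : (K i)[X]) = 0 := by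
  have h0 := ev2 (Polynomial.C.comp (dal k K)) (π.comp (dal k K)) (mapRingHom π) Polynomial.C (by
    apply RingHom.ext
    intro c
    simp only [RingHom.comp_apply, coe_mapRingHom, map_C]) (til e F) V
  simp only [coe_mapRingHom] at h0
  rw [← h0, los_poly h]
  have h1 : ∀ᶠ i in (U : Filter ι),
      (MvPolynomial.eval₂ (Polynomial.C.comp (dal k K)) V (til e F)).map (ev i) =
      (MvPolynomial.aeval (fun j => (V j).map (ev i)) (F i) : (K i)[X]) := by
    filter_upwards [hF] with i hi
    have h2 := ev2 (Polynomial.C.comp (dal k K)) (ev i) (mapRingHom (ev i))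
      (algebraMap (k i) (K i)[X]) (by
      apply RingHom.ext
      intro c
      simp only [RingHom.comp_apply, coe_mapRingHom, map_C]
      rw [Polynomial.algebraMap_apply]
      rfl) (til e F) V
    rw [til_ev hi] at h2
    exact h2
  constructor
  · intro h2
    filter_upwards [h1, h2] with i h3 h4
    rw [← h3, h4]
  · intro h2
    filter_upwards [h1, h2] with i h3 h4
    rw [h3, h4]

theorem los_ell (h : ∀ x, π x = 0 ↔ ∀ᶠ i in (U : Filter ι), x i = 0) {e : ℕ}
    {F : ∀ i, MvPolynomial κ (k i)}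
    (hF : ∀ᶠ i in (U : Filter ι), (F i).IsHomogeneous e) (A B : κ → (∀ i, K i)[X])
    (a b : ∀ i, K i) :
    (MvPolynomial.eval₂ (Polynomial.C.comp Polynomial.C)
        (fun j => two ((A j).map π) ((B j).map π))
        (MvPolynomial.map (π.comp (dal k K)) (til e F))) %ₘ weq (π a) (π b) = 0 ↔
      ∀ᶠ i in (U : Filter ι),
        (MvPolynomial.aeval (fun j => two ((A j).map (ev i)) ((B j).map (ev i)))
          (F i) : (K i)[X][X]) %ₘ weq (a i) (b i) = 0 := by
  have h0 := ev2 ((Polynomial.C.comp Polynomial.C).comp (dal k K)) (π.comp (dal k K))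
    (mapRingHom (mapRingHom π)) (Polynomial.C.comp Polynomial.C) (by
    apply RingHom.ext
    intro c
    simp only [RingHom.comp_apply, coe_mapRingHom, map_C]) (til e F) (fun j => two (A j) (B j))
  simp only [coe_mapRingHom, two_map] at h0
  have hw : weq (π a) (π b) = (weqR a b).map (mapRingHom π) := by
    rw [weqR_map, ← weqR_eq]
  rw [← h0, hw, ← Polynomial.map_modByMonic _ (weqR_monic _ _), los_poly2 h]
  have h1 : ∀ᶠ i in (U : Filter ι),
      (MvPolynomial.eval₂ ((Polynomial.C.comp Polynomial.C).comp (dal k K))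
        (fun j => two (A j) (B j)) (til e F) %ₘ weqR a b).map (mapRingHom (ev i)) =
      (MvPolynomial.aeval (fun j => two ((A j).map (ev i)) ((B j).map (ev i)))
          (F i) : (K i)[X][X]) %ₘ weq (a i) (b i) := by
    filter_upwards [hF] with i hi
    have h3 : ((mapRingHom (mapRingHom (ev i)) : (∀ i, K i)[X][X] →+* (K i)[X][X])).comp
        ((Polynomial.C.comp Polynomial.C).comp (dal k K)) =
        (algebraMap (k i) (K i)[X][X]).comp (ev i : (∀ i, k i) →+* k i) := by
      apply RingHom.ext
      intro c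
      simp only [RingHom.comp_apply, coe_mapRingHom, map_C]
      rw [Polynomial.algebraMap_apply, Polynomial.algebraMap_apply]
      rfl
    have h2 := ev2 (κ := κ) (R0 := ∀ i, k i) (R1 := (∀ i, K i)[X][X]) (C0 := k i)
      (L1 := (K i)[X][X])
      ((Polynomial.C.comp Polynomial.C).comp (dal k K)) (ev i) (mapRingHom (mapRingHom (ev i)))
      (algebraMap (k i) (K i)[X][X]) h3 (til e F) (fun j => two (A j) (B j))
    rw [til_ev hi] at h2
    simp only [coe_mapRingHom, two_map] at h2
    rw [Polynomial.map_modByMonic _ (weqR_monic _ _), weqR_map, h2, weqR_eq]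
    rfl
  constructor
  · intro h2
    filter_upwards [h1, h2] with i h3 h4
    rw [← h3, h4]
  · intro h2
    filter_upwards [h1, h2] with i h3 h4
    rw [h3, h4]

theorem lift_poly (hs : Function.Surjective π) (P : L[X]) :
    ∃ Q : (∀ i, K i)[X], Q.map π = P ∧ ∀ i, (Q.map (ev i)).natDegree ≤ P.natDegree := by
  classical
  have h1 : ∀ m, ∃ c : ∀ i, K i, π c = P.coeff m := fun m => hs _
  choose c hc using h1
  refine ⟨∑ m ∈ Finset.range (P.natDegree + 1), Polynomial.C (c m) * X ^ m, ?_, fun i => ?_⟩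
  · rw [Polynomial.map_sum]
    conv_rhs => rw [P.as_sum_range_C_mul_X_pow]
    refine Finset.sum_congr rfl fun m _ => ?_
    rw [Polynomial.map_mul, map_C, Polynomial.map_pow, map_X, hc]
  · rw [Polynomial.map_sum]
    refine natDegree_sum_le_of_forall_le _ _ fun m hm => ?_
    rw [Polynomial.map_mul, map_C, Polynomial.map_pow, map_X]
    exact (natDegree_C_mul_X_pow_le _ _).trans (Finset.mem_range_succ_iff.1 hm)

theorem coeff_ne (h : ∀ x, π x = 0 ↔ ∀ᶠ i in (U : Filter ι), x i = 0) {a b c d : ∀ i, K i}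
    (hne : π a * π b ≠ π c * π d) : ∀ᶠ i in (U : Filter ι), a i * b i ≠ c i * d i := by
  have h1 : π (a * b - c * d) ≠ 0 := by
    rw [map_sub, map_mul, map_mul]
    exact sub_ne_zero.2 hne
  rw [Ne, h, ← Ultrafilter.eventually_not] at h1
  filter_upwards [h1] with i hi h2
  apply hi
  rw [Pi.sub_apply, Pi.mul_apply, Pi.mul_apply, h2, sub_self]

end

end Pool.Agent.Helper6.FT
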