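import Pool.Agent.Helper6.FT.Div
import Pool.Agent.Helper6.FT.Ext
import Pool.Agent.Helper6.EV.Ell

/-! Stable algebraic closures, and the stages of chains. -/

set_option autoImplicit false
set_option linter.unusedSectionVars false

namespace Pool.Agent.Helper6.FT

open EE EV Polynomial IntermediateField

section

variable {C L : Type} [Field C] [CharZero C] [Field L] [Algebra C L]

theorem stab_acl {D : Derivation C L L} {M : IntermediateField C L} (h : Stab D M) :
    Stab D (acl M) := by
  intro x hx
  have hM : CharZero M := cz (C := C) M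
  have hx' := mem_acl.1 hx
  have hint : IsIntegral M x := hx'.isIntegral
  obtain ⟨q, -, he⟩ := der_aeval (rs D M h) D (fun y => rfl) (minpoly M x) x
  rw [minpoly.aeval, map_zero] at he
  have h2 : aeval x (derivative (minpoly M x)) ≠ 0 :=
    (minpoly.irreducible hint).separable.aeval_derivative_ne_zero (minpoly.aeval _ _)
  have h3 : ∀ p : M[X], aeval x p ∈ acl M := by
    intro p
    have h4 := SetLike.coe_mem (aeval (⟨x, hx⟩ : algebraicClosure M L) p)
    rw [← IntermediateField.aeval_coe] at h4
    exact h4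
  have h4 : D x = -(aeval x q) / aeval x (derivative (minpoly M x)) := by
    rw [eq_div_iff h2]
    linear_combination -he
  rw [h4]
  exact div_mem (neg_mem (h3 q)) (h3 _)

variable {κ : Type} [Finite κ]

/-- the last step of a chain over which a vector is not defined -/
theorem stageC {E : C → C → Prop} {D : Derivation C L L} {G : IntermediateField C L}
    {U : Submodule C L} {M : IntermediateField C L} (h : Ch (A1 E) D G U M) {v : κ → L}
    (h0 : ¬ Prp v G) : Prp v M →
    (∃ (F' : IntermediateField C L) (q : L), G ≤ F' ∧ Transcendental F' q ∧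
      Prp v (IntermediateField.adjoin C ((F' : Set L) ∪ {q})) ∧ ¬ Prp v F') ∨
    (∃ (F' : IntermediateField C L) (a b : C) (x y : L), G ≤ F' ∧ 4 * a ^ 3 + 27 * b ^ 2 ≠ 0 ∧
      Transcendental F' x ∧ y ^ 2 = x ^ 3 + algebraMap C L a * x + algebraMap C L b ∧
      Prp v (IntermediateField.adjoin C ((F' : Set L) ∪ {x, y})) ∧ ¬ Prp v F') := by
  induction h with
  | base => exact fun h => absurd h h0
  | @step F τ P h hτ hP hl ih =>
    intro hv
    by_cases hall : Prp v F
    · exact ih hall
    rcases hτ with rfl | ⟨a', b', -, hd, rfl⟩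
    · obtain ⟨q, hq, hqt⟩ := hP
      have hq' : q = ((Additive.toMul P : Lˣ) : L) := List.mem_singleton.1 hq
      refine Or.inl ⟨F, q, h.le, hqt, ?_, hall⟩
      have hadj : (Gm : AGp C).adj F P = IntermediateField.adjoin C ((F : Set L) ∪ {q}) := by
        rw [adj_eq]
        congr 2
        ext w
        rw [hq', Set.mem_singleton_iff]
        exact List.mem_singleton
      rwa [hadj] at hv
    · obtain ⟨x', y', hc, hx', -, -, heq⟩ := gen_ell hP
      have hF2 : (Ell a' b').adj F P =
          IntermediateField.adjoin C ((F : Set L) ∪ {x', y'}) := by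
        rw [adj_eq, hc]
        congr 2
        ext w
        simp
      rw [hF2] at hv
      exact Or.inr ⟨F, a', b', x', y', h.le, hd, hx', heq, hv, hall⟩

/-- a finite set of points lies in a chain -/
theorem pts_ch [IsAlgClosed C] {A : AGp C → Prop} {D : Derivation C L L}
    {G : IntermediateField C L} {U : Submodule C L} (hyp : Hyp A D G U) {r : ℕ} (w : Fin r → L)
    (hw : ∀ a, w a ∈ G ∨ ∃ (τ : AGp C) (P : τ.G L), A τ ∧ τ.lam D P ∈ U ∧ w a ∈ τ.coord P) :
    ∃ M, Ch A D G U M ∧ ∀ a, w a ∈ M := by
  have key : ∀ n : ℕ, n ≤ r → ∃ M, Ch A D G U M ∧ ∀ a : Fin r, (a : ℕ) < n → w a ∈ M := by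
    intro n
    induction n with
    | zero => exact fun _ => ⟨G, Ch.base, fun a ha => absurd ha (by omega)⟩
    | succ n ih =>
      intro hn
      obtain ⟨M, hM, h1⟩ := ih (by omega)
      rcases hw ⟨n, by omega⟩ with h2 | ⟨τ, P, hA, hl, h2⟩
      · refine ⟨M, hM, fun a ha => ?_⟩
        rcases Nat.lt_succ_iff_lt_or_eq.1 ha with h | h
        · exact h1 a h
        · have : a = ⟨n, by omega⟩ := Fin.ext h
          rw [this]
          exact hM.le h2
      · obtain ⟨M', h3, h4, h5⟩ := adj_ch hyp hM hA hl
        refine ⟨M', h4, fun a ha => ?_⟩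
        rcases Nat.lt_succ_iff_lt_or_eq.1 ha with h | h
        · exact h3 (h1 a h)
        · have : a = ⟨n, by omega⟩ := Fin.ext h
          rw [this]
          exact h5 _ h2
  obtain ⟨M, hM, h1⟩ := key r le_rfl
  exact ⟨M, hM, fun a => h1 a a.2⟩

end

end Pool.Agent.Helper6.FT
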