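import Pool.Agent.Helper6.FT.Hg
import Pool.Agent.Helper6.FT.DU
import Pool.Agent.Helper6.FT.Stg

/-! Small elements of the ultraproduct. -/

set_option autoImplicit false
set_option linter.unusedSectionVars false

namespace Pool.Agent.Helper6.FT

open FF Pool.Agent.W603.LV EE EV EU Filter Pool.Agent.Q33.FP

section

variable {k K : Type} [Field k] [Field K] [Algebra k K] [CharZero k] [IsFF k K] [IsAlgClosed k]

theorem hgt_mul' (f g : K) : hgt k (f * g) ≤ hgt k f + hgt k g := by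
  by_cases hf : f = 0
  · rw [hf, zero_mul, hgt_zero, zero_add]
    exact hgt_nonneg g
  by_cases hg : g = 0
  · rw [hg, mul_zero, hgt_zero, add_zero]
    exact hgt_nonneg f
  exact hgt_mul hf hg

theorem hgt_add (f g : K) : hgt k (f + g) ≤ hgt k f + hgt k g := by
  classical
  obtain ⟨T, hT⟩ := exists_supp (k := k) (Finset.univ : Finset (Fin 3)) ![f, g, f + g]
  have h1 : ∀ P : Place k K, P.ord f ≠ 0 → P ∈ T := fun P => hT 0 (Finset.mem_univ _) P
  have h2 : ∀ P : Place k K, P.ord g ≠ 0 → P ∈ T := fun P => hT 1 (Finset.mem_univ _) P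
  have h3 : ∀ P : Place k K, P.ord (f + g) ≠ 0 → P ∈ T := fun P => hT 2 (Finset.mem_univ _) P
  rw [hgt_finset _ T h1, hgt_finset _ T h2, hgt_finset _ T h3, ← Finset.sum_add_distrib]
  refine Finset.sum_le_sum fun P _ => ?_
  have h4 : Ge P (-(max (-P.ord f) 0 + max (-P.ord g) 0)) (f + g) := by
    refine Ge.add (Or.inr ?_) (Or.inr ?_)
    · have := le_max_left (-P.ord f) 0
      have := le_max_right (-P.ord g) 0
      omega
    · have := le_max_right (-P.ord f) 0
      have := le_max_left (-P.ord g) 0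
      omega
  refine max_le ?_ (add_nonneg (le_max_right _ _) (le_max_right _ _))
  rcases h4 with h4 | h4
  · rw [h4, P.ord_zero]
    have := le_max_right (-P.ord f) 0
    have := le_max_right (-P.ord g) 0
    omega
  · omega

theorem hgt_const (c : k) : hgt k (algebraMap k K c) = 0 := by
  by_cases h : c = 0
  · rw [h, map_zero, hgt_zero]
  · rw [hgt_finset (k := k) _ ∅ (fun P hP => absurd (P.ord_const h) hP)]
    rfl

end

section

variable {ι : Type} {U : Ultrafilter ι} {k K Kb : ι → Type} [∀ i, Field (k i)]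
  [∀ i, Field (K i)] [∀ i, Field (Kb i)] [∀ i, Algebra (k i) (K i)] [∀ i, Algebra (k i) (Kb i)]
  [∀ i, Algebra (K i) (Kb i)] [∀ i, IsScalarTower (k i) (K i) (Kb i)] [∀ i, CharZero (k i)]
  [∀ i, IsFF (k i) (K i)] [∀ i, IsAlgClosed (k i)]
  {D : ∀ i, Derivation (k i) (Kb i) (Kb i)} {C L : Type} [Field C] [CharZero C] [Field L]
  [Algebra C L] {D' : Derivation C L L} {π : (∀ i, Kb i) →+* L} {θ : (∀ i, k i) →+* C}

/-- the class of a sequence of functions -/
noncomputable def cls (K : ι → Type) [∀ i, Field (K i)] [∀ i, Algebra (K i) (Kb i)]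
    (π : (∀ i, Kb i) →+* L) : (∀ i, K i) →+* L := π.comp (dal K Kb)

theorem cls_eq (hu : Dlt U D C L D' π θ) {f g : ∀ i, K i} :
    cls K π f = cls K π g ↔ ∀ᶠ i in (U : Filter ι), f i = g i := by
  change π _ = π _ ↔ _
  rw [hu.eq]
  constructor
  · intro h
    filter_upwards [h] with i hi
    exact (algebraMap (K i) (Kb i)).injective hi
  · intro h
    filter_upwards [h] with i hi
    change algebraMap (K i) (Kb i) (f i) = algebraMap (K i) (Kb i) (g i)
    rw [hi]

theorem cls_ne (hu : Dlt U D C L D' π θ) {f : ∀ i, K i} :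
    cls K π f ≠ 0 ↔ ∀ᶠ i in (U : Filter ι), f i ≠ 0 := by
  rw [← map_zero (cls K π), Ne, cls_eq hu]
  exact Ultrafilter.eventually_not.symm

theorem cls_inv (hu : Dlt U D C L D' π θ) (f : ∀ i, K i) :
    cls K π (fun i => (f i)⁻¹) = (cls K π f)⁻¹ := by
  change π _ = (π _)⁻¹
  rw [← hu.inv]
  congr 1
  funext i
  exact map_inv₀ (algebraMap (K i) (Kb i)) (f i)

theorem cls_div (hu : Dlt U D C L D' π θ) (f g : ∀ i, K i) :
    cls K π (fun i => f i / g i) = cls K π f / cls K π g := by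
  rw [div_eq_mul_inv, ← cls_inv hu, ← map_mul]
  congr 1
  funext i
  exact div_eq_mul_inv _ _

/-- the small elements -/
noncomputable def Sm (hu : Dlt U D C L D' π θ) (h : ι → ℤ) :
    IntermediateField C L where
  carrier := {x | ∃ (f : ∀ i, K i) (B : ℕ), cls K π f = x ∧
    ∀ᶠ i in (U : Filter ι), hgt (k i) (f i) ≤ B * h i}
  mul_mem' := by
    rintro _ _ ⟨f, B, rfl, hf⟩ ⟨g, B', rfl, hg⟩
    refine ⟨f * g, B + B', map_mul _ _ _, ?_⟩
    filter_upwards [hf, hg] with i h1 h2
    have := hgt_mul' (k := k i) (f i) (g i)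
    rw [Pi.mul_apply]
    push_cast
    linarith
  add_mem' := by
    rintro _ _ ⟨f, B, rfl, hf⟩ ⟨g, B', rfl, hg⟩
    refine ⟨f + g, B + B', map_add _ _ _, ?_⟩
    filter_upwards [hf, hg] with i h1 h2
    have := hgt_add (k := k i) (f i) (g i)
    rw [Pi.add_apply]
    push_cast
    linarith
  algebraMap_mem' := by
    intro c
    obtain ⟨c, rfl⟩ := hu.tsurj c
    refine ⟨fun i => algebraMap (k i) (K i) (c i), 0, ?_, Eventually.of_forall fun i => ?_⟩
    · rw [← hu.alg]
      change π _ = π _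
      congr 1
      funext i
      exact (IsScalarTower.algebraMap_apply (k i) (K i) (Kb i) (c i)).symm
    · change hgt (k i) (algebraMap (k i) (K i) (c i)) ≤ _
      rw [hgt_const]
      simp
  inv_mem' := by
    rintro _ ⟨f, B, rfl, hf⟩
    refine ⟨fun i => (f i)⁻¹, B, cls_inv hu f, ?_⟩
    filter_upwards [hf] with i h1
    rw [hgt_inv]
    exact h1

theorem mem_Sm {hu : Dlt U D C L D' π θ} {h : ι → ℤ} {x : L} : x ∈ Sm (K := K) hu h ↔
    ∃ (f : ∀ i, K i) (B : ℕ), cls K π f = x ∧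
      ∀ᶠ i in (U : Filter ι), hgt (k i) (f i) ≤ B * h i := Iff.rfl

/-- membership for a given sequence -/
theorem bound_of_mem {hu : Dlt U D C L D' π θ} {h : ι → ℤ} {f : ∀ i, K i}
    (hf : cls K π f ∈ Sm (K := K) hu h) :
    ∃ B : ℕ, ∀ᶠ i in (U : Filter ι), hgt (k i) (f i) ≤ B * h i := by
  obtain ⟨g, B, h1, h2⟩ := hf
  rw [cls_eq hu] at h1
  refine ⟨B, ?_⟩
  filter_upwards [h1, h2] with i h3 h4
  rw [← h3]
  exact h4

theorem stab_Sm (hu : Dlt U D C L D' π θ) {h : ι → ℤ} {D0 : ∀ i, Derivation (k i) (K i) (K i)}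
    (hD : ∀ i (x : K i), D i (algebraMap (K i) (Kb i) x) = algebraMap (K i) (Kb i) (D0 i x))
    (S : ∀ i, Finset (Place (k i) (K i))) (hg : ∀ᶠ i in (U : Filter ι), GoodD (S i) (D0 i))
    (hz : ∀ᶠ i in (U : Filter ι), canDeg (k i) (K i) + (S i).card ≤ h i) :
    Stab D' (Sm (K := K) hu h) := by
  rintro _ ⟨f, B, rfl, hf⟩
  refine ⟨fun i => D0 i (f i), 2 * B + 1, ?_, ?_⟩
  · change π _ = D' (π _)
    rw [hu.der]
    congr 1
    funext i
    exact (hD i (f i)).symm
  · filter_upwards [hf, hg, hz] with i h1 h2 h3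
    have h4 := hgt_D h2 (f i)
    push_cast
    linarith

/-- the small elements are algebraically closed in the ultraproduct of the function fields -/
theorem alg_Sm (hu : Dlt U D C L D' π θ) {h : ι → ℤ} {f : ∀ i, K i}
    (hf : IsAlgebraic (Sm (K := K) hu h) (cls K π f)) : cls K π f ∈ Sm (K := K) hu h := by
  classical
  obtain ⟨p, hp, hpx⟩ := hf
  set N := p.natDegree with hN
  have h1 : ∀ d, ∃ (e : ∀ i, K i) (B : ℕ), cls K π e = (p.coeff d : L) ∧
      ∀ᶠ i in (U : Filter ι), hgt (k i) (e i) ≤ B * h i := fun d => (p.coeff d).2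
  choose e B he hB using h1
  have h2 : ∀ᶠ i in (U : Filter ι), e N i ≠ 0 := by
    rw [← cls_ne hu, he]
    have h3 : p.coeff N ≠ 0 := by
      rw [hN]
      exact Polynomial.leadingCoeff_ne_zero.2 hp
    intro h4
    exact h3 (Subtype.ext h4)
  have h3 : ∀ᶠ i in (U : Filter ι), ∑ d ∈ Finset.range (N + 1), e d i * f i ^ d = 0 := by
    have h4 : cls K π (∑ d ∈ Finset.range (N + 1), e d * f ^ d) = cls K π 0 := by
      rw [map_sum, map_zero, ← hpx, Polynomial.aeval_eq_sum_range]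
      refine Finset.sum_congr rfl fun d _ => ?_
      rw [map_mul, map_pow, he]
      rfl
    rw [cls_eq hu] at h4
    filter_upwards [h4] with i hi
    rw [Finset.sum_apply] at hi
    exact hi
  refine ⟨f, B N + ∑ d ∈ Finset.range N, B d, rfl, ?_⟩
  have h5 : ∀ᶠ i in (U : Filter ι), ∀ d ∈ Finset.range (N + 1), hgt (k i) (e d i) ≤ B d * h i :=
    (eventually_all_finset _).2 fun d _ => hB d
  filter_upwards [h2, h3, h5] with i h6 h7 h8
  have h9 := hgt_root (k := k i) (fun d => e d i) h6 (f i) h7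
  have h10 := h8 N (Finset.mem_range.2 (by omega))
  have h11 : ∑ d ∈ Finset.range N, hgt (k i) (e d i) ≤ ∑ d ∈ Finset.range N, (B d : ℤ) * h i :=
    Finset.sum_le_sum fun d hd => h8 d (Finset.mem_range.2 (by
      have := Finset.mem_range.1 hd
      omega))
  rw [← Finset.sum_mul] at h11
  push_cast
  rw [add_mul]
  exact h9.trans (add_le_add h10 h11)

/-- points of large height are not proportional to small vectors -/
theorem not_prp (hu : Dlt U D C L D' π θ) {h : ι → ℤ} {κ : Type} [Fintype κ]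
    (p : κ → ∀ i, K i) (hp : ∀ᶠ i in (U : Filter ι), ∃ l, p l i ≠ 0)
    (hbig : ∀ B : ℕ, ∀ᶠ i in (U : Filter ι), B * h i < ht (k i) (fun j => p j i)) :
    ¬ Prp (fun j => cls K π (p j)) (acl (Sm (K := K) hu h)) := by
  classical
  rintro ⟨g, u, hu1, hv⟩
  replace hv : ∀ j, cls K π (p j) = g * u j := hv
  rw [Ultrafilter.eventually_exists_iff] at hp
  obtain ⟨l, hl⟩ := hp
  have hl' := (cls_ne hu).2 hl
  have h1 : ∀ j, cls K π (fun i => p j i / p l i) ∈ Sm (K := K) hu h := by
    intro j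
    apply alg_Sm hu
    rw [← mem_acl, cls_div hu, hv j, hv l]
    have hg : g ≠ 0 := by
      rintro rfl
      rw [hv l, zero_mul] at hl'
      exact hl' rfl
    rw [mul_div_mul_left _ _ hg]
    exact div_mem (hu1 j) (hu1 l)
  have h2 : ∀ j, ∃ B : ℕ, ∀ᶠ i in (U : Filter ι), hgt (k i) (p j i / p l i) ≤ B * h i :=
    fun j => bound_of_mem (h1 j)
  choose B hB using h2
  obtain ⟨i, h3, h4, h5⟩ := ((eventually_all.2 hB).and (hl.and (hbig (∑ j, B j)))).exists
  have h6 := ht_le_sum (k := k i) (fun j => p j i) h4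
  have h7 : ∑ j, hgt (k i) (p j i / p l i) ≤ ∑ j, (B j : ℤ) * h i :=
    Finset.sum_le_sum fun j _ => h3 j
  rw [← Finset.sum_mul] at h7
  push_cast at h5
  exact absurd (h6.trans h7) (not_le.2 h5)

end

end Pool.Agent.Helper6.FT
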