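import Pool.Agent.Helper6.FT.Tf

/-! The statements about hyperbolicity. -/

set_option autoImplicit false

namespace Pool.Agent.Helper6.FT

open FF Polynomial
open Pool.Agent.W603.LV (canDeg)
open Pool.Agent.Q33.FP (ht)

/-- The height inequality with moving targets, with the constant `A`. Let `K` be a function field of
one variable over an algebraically closed field `k` of characteristic zero, `X` a set of forms over
`K` in `n + 1` variables, of degree at most `D` and with coefficient vectors of height at most `h`,
and `p` a point of the zero set of `X` over `K` whose coordinates are values of polynomials `F j`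
over `K` of degree at most `e` at `r` terms. Then the height of `p` is at most
`A (max (2 g - 2 + |S|) 0 + height of the coefficients of F + h)`, or `p` lies on a nonconstant
rational curve of degree at most `A`, over the algebraic closure of `K`, in the zero set of `X`, or
on a nonconstant image of an elliptic curve over `k`, of degree at most `A`. -/
def MovingBound (n D r e A : ℕ) : Prop :=
  ∀ (k K : Type) [Field k] [Field K] [Algebra k K] [CharZero k]
    [IsFF k K] [IsAlgClosed k] (X : Set (MvPolynomial (Fin (n + 1)) K)) (h : ℤ), 0 ≤ h →
    (∀ F ∈ X, (∃ e' ≤ D, F.IsHomogeneous e') ∧ ht k (fun m => F.coeff m) ≤ h) →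
    ∀ (S : Finset (Place k K)) (F : Fin (n + 1) → MvPolynomial (Fin r) K) (w : Fin r → K)
      (p : Fin (n + 1) → K), TermVec S r e F w p → p ≠ 0 →
      (∀ G ∈ X, MvPolynomial.eval p G = 0) →
      ht k p ≤ A * (max (canDeg k K + S.card) 0 + vht k F + h) ∨
        OnRat X A (fun j => algebraMap K (AlgebraicClosure K) (p j)) ∨
        OnEll k X A (fun j => algebraMap K (AlgebraicClosure K) (p j))

/-- The height inequality outside the exceptional set, with the constant `A`. Let `k` be an
algebraically closed field of characteristic zero, `X` a set of forms over `k` of degree at most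
`D`, and `G` a form over `k` which vanishes on all nonconstant rational and elliptic curves of
degree at most `A` in the zero set of `X`. Then for all function fields `K` over `k` and all points
`p` of the zero set of `X` over `K` whose coordinates are values of polynomials `F j` over `K` of
degree at most `e` at `r` terms either `G` vanishes at `p`, or the height of `p` is at most
`A (max (2 g - 2 + |S|) 0 + height of the coefficients of F)`. -/
def ExceptionalBound (n D r e A : ℕ) : Prop :=
  ∀ (k : Type) [Field k] [CharZero k] [IsAlgClosed k]
    (X : Set (MvPolynomial (Fin (n + 1)) k)), (∀ F ∈ X, ∃ e' ≤ D, F.IsHomogeneous e') →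
    ∀ G : MvPolynomial (Fin (n + 1)) k, (∃ e', G.IsHomogeneous e') → Vanish X A G →
    ∀ (K : Type) [Field K] [Algebra k K] [IsFF k K] (S : Finset (Place k K))
      (F : Fin (n + 1) → MvPolynomial (Fin r) K) (w : Fin r → K) (p : Fin (n + 1) → K),
      TermVec S r e F w p → p ≠ 0 → (∀ F ∈ X, MvPolynomial.aeval p F = 0) →
      MvPolynomial.aeval p G = 0 ∨ ht k p ≤ A * (max (canDeg k K + S.card) 0 + vht k F)

section

variable {k : Type} [Field k] [CharZero k] [IsAlgClosed k] {n : ℕ}
  (X : Set (MvPolynomial (Fin (n + 1)) k))

/-- There are no nonconstant rational or elliptic curves in the zero set of `X`. -/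
def NoCurves : Prop :=
  ∀ d : ℕ, (∀ V : Fin (n + 1) → k[X], ¬ RatCurve X d V) ∧
    ∀ (a b : k) (A B : Fin (n + 1) → k[X]), ¬ EllCurve X d a b A B

/-- Logarithmic algebraic hyperbolicity with moving coefficients: for all `r`, `e` the height of all
points of the zero set of `X` whose coordinates are values of polynomials `F j` over `K` of degree at
most `e` at `r` terms is at most `A (max (2 g - 2 + |S|) 0 + height of the coefficients of F)`. -/
def LogHyp : Prop :=
  ∀ r e : ℕ, ∃ A : ℕ, ∀ (K : Type) [Field K] [Algebra k K] [IsFF k K]
    (S : Finset (Place k K)) (F : Fin (n + 1) → MvPolynomial (Fin r) K) (w : Fin r → K)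
    (p : Fin (n + 1) → K), TermVec S r e F w p → p ≠ 0 →
    (∀ F ∈ X, MvPolynomial.aeval p F = 0) →
    ht k p ≤ A * (max (canDeg k K + S.card) 0 + vht k F)

/-- Algebraic hyperbolicity: for all `r`, `e` the degree of all morphisms from curves of genus `g` to
the zero set of `X` whose coordinates are values of polynomials over `k` of degree at most `e` at
`r` terms, for `S = ∅`, is at most `A max (2 g - 2) 0`. -/
def AlgHyp : Prop :=
  ∀ r e : ℕ, ∃ A : ℕ, ∀ (K : Type) [Field K] [Algebra k K] [IsFF k K]
    (p : Fin (n + 1) → K), TermPt (∅ : Finset (Place k K)) r e p → p ≠ 0 →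
    (∀ F ∈ X, MvPolynomial.aeval p F = 0) → ht k p ≤ A * max (canDeg k K) 0

/-- Boundedness: for all `r`, `e` and each curve the degrees of all morphisms from the curve to the
zero set of `X` whose coordinates are values of polynomials over `k` of degree at most `e` at `r`
terms, for `S = ∅`, are bounded. -/
def BddMaps : Prop :=
  ∀ (r e : ℕ) (K : Type) [Field K] [Algebra k K] [IsFF k K], ∃ A : ℕ,
    ∀ p : Fin (n + 1) → K, TermPt (∅ : Finset (Place k K)) r e p → p ≠ 0 →
    (∀ F ∈ X, MvPolynomial.aeval p F = 0) → ht k p ≤ A

/-- All morphisms from curves of genus at most one to the zero set of `X`, whose coordinates are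
values of polynomials over `k` at terms for `S = ∅`, are constant. -/
def LowGenus : Prop :=
  ∀ (r e : ℕ) (K : Type) [Field K] [Algebra k K] [IsFF k K], canDeg k K ≤ 0 →
    ∀ p : Fin (n + 1) → K, TermPt (∅ : Finset (Place k K)) r e p → p ≠ 0 →
    (∀ F ∈ X, MvPolynomial.aeval p F = 0) → ht k p = 0

end

end Pool.Agent.Helper6.FT
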