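import Pool.Agent.Helper6.FT.Cnv

/-! The equivalences. -/

set_option autoImplicit false
set_option linter.unusedSectionVars false

namespace Pool.Agent.Helper6.FT

open FF Pool.Agent.W603.LV EE EV Pool.Agent.Q33.FP IntermediateField Polynomial

section

variable {k : Type} [Field k] {κ : Type}

/-- a rational curve is also parametrised by any elliptic curve -/
theorem ell_of_rat {X : Set (MvPolynomial κ k)} {d : ℕ} {V : κ → k[X]} (hV : RatCurve X d V)
    {a b : k} (hd : 4 * a ^ 3 + 27 * b ^ 2 ≠ 0) : EllCurve X d a b V (fun _ => 0) := by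
  obtain ⟨h1, ⟨i, j, m, l, h2⟩, h3⟩ := hV
  refine ⟨hd, fun j => ⟨h1 j, by simp⟩, ⟨i, j, Sum.inl m, Sum.inl l, h2⟩, fun F hF => ?_⟩
  have h4 := MvPolynomial.comp_aeval_apply (f := V)
    ((Algebra.ofId k[X] k[X][X]).restrictScalars k) F
  rw [h3 F hF, map_zero] at h4
  have h5 : (fun j => onE (V j) (0 : k[X])) =
      fun j => ((Algebra.ofId k[X] k[X][X]).restrictScalars k) (V j) := by
    funext j
    unfold onE
    rw [map_zero, zero_mul, add_zero]
    rfl
  rw [h5, ← h4]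
  exact dvd_zero _

variable {K : Type} [Field K] [Algebra k K]

/-- the points of the curve lie in the zero set -/
theorem mem_curve {X : Set (MvPolynomial κ k)} {d : ℕ} {a b : k} {A B : κ → k[X]}
    (hV : EllCurve X d a b A B) {x y : K}
    (hy : y ^ 2 = x ^ 3 + algebraMap k K a * x + algebraMap k K b) :
    ∀ F ∈ X, MvPolynomial.aeval (fun j => aeval x (A j) + aeval x (B j) * y) F = 0 := by
  intro F hF
  obtain ⟨Q, hQ⟩ := hV.mem F hF
  have h3 := MvPolynomial.comp_aeval_apply (f := fun j => onE (A j) (B j))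
    (aevalAeval x y : k[X][X] →ₐ[k] K) F
  have h4 : (fun j => aeval x (A j) + aeval x (B j) * y) =
      fun i => (aevalAeval x y : k[X][X] →ₐ[k] K) (onE (A i) (B i)) := by
    funext j
    exact (two_aeval x y (A j) (B j)).symm
  have h5 : aevalAeval x y (wei a b) = 0 := by
    unfold wei
    rw [map_sub, map_pow, aevalAeval_Y, aevalAeval_C]
    simp only [map_add, map_mul, map_pow, aeval_X, aeval_C]
    rw [hy]
    simp
  rw [h4, ← h3, hQ, map_mul, h5, zero_mul]

end

/-- **The equivalences.** -/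
theorem tfae {k : Type} [Field k] [CharZero k] [IsAlgClosed k] {n D : ℕ}
    (X : Set (MvPolynomial (Fin (n + 1)) k)) (hX : ∀ F ∈ X, ∃ e' ≤ D, F.IsHomogeneous e') :
    List.TFAE [
      ∀ d : ℕ, (∀ V : Fin (n + 1) → k[X], ¬ RatCurve X d V) ∧
        ∀ (a b : k) (A B : Fin (n + 1) → k[X]), ¬ EllCurve X d a b A B,
      ∀ r e : ℕ, ∃ A : ℕ, ∀ (K : Type) [Field K] [Algebra k K] [IsFF k K]
        (S : Finset (Place k K)) (F : Fin (n + 1) → MvPolynomial (Fin r) K) (w : Fin r → K)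
        (p : Fin (n + 1) → K), TermVec S r e F w p → p ≠ 0 →
        (∀ F ∈ X, MvPolynomial.aeval p F = 0) →
        ht k p ≤ A * (max (canDeg k K + S.card) 0 + vht k F),
      ∀ r e : ℕ, ∃ A : ℕ, ∀ (K : Type) [Field K] [Algebra k K] [IsFF k K]
        (p : Fin (n + 1) → K), TermPt (∅ : Finset (Place k K)) r e p → p ≠ 0 →
        (∀ F ∈ X, MvPolynomial.aeval p F = 0) → ht k p ≤ A * max (canDeg k K) 0,
      ∀ (r e : ℕ) (K : Type) [Field K] [Algebra k K] [IsFF k K], ∃ A : ℕ,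
        ∀ p : Fin (n + 1) → K, TermPt (∅ : Finset (Place k K)) r e p → p ≠ 0 →
        (∀ F ∈ X, MvPolynomial.aeval p F = 0) → ht k p ≤ A,
      ∀ (r e : ℕ) (K : Type) [Field K] [Algebra k K] [IsFF k K], canDeg k K ≤ 0 →
        ∀ p : Fin (n + 1) → K, TermPt (∅ : Finset (Place k K)) r e p → p ≠ 0 →
        (∀ F ∈ X, MvPolynomial.aeval p F = 0) → ht k p = 0] := by
  have h10 : (1 : ℕ) ≤ 1 := le_rfl
  tfae_have 1 → 2 := by
    intro h r e
    obtain ⟨A, hA⟩ := uniform_const n D r e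
    refine ⟨A, fun K _ _ _ S F w p h1 h2 h3 => ?_⟩
    rcases hA k X hX 1 ⟨0, MvPolynomial.isHomogeneous_one _ _⟩
      ⟨fun V hV => absurd hV ((h A).1 V), fun a b A' B' hV => absurd hV ((h A).2 a b A' B')⟩
      K S F w p h1 h2 h3 with h4 | h4
    · rw [map_one] at h4
      exact absurd h4 one_ne_zero
    · exact h4
  tfae_have 2 → 3 := by
    intro h r e
    obtain ⟨A, hA⟩ := h r e
    refine ⟨A, fun K _ _ _ p h1 h2 h3 => ?_⟩
    obtain ⟨F, w, h4, h5⟩ := h1.vec
    have h6 := hA K ∅ F w p h4 h2 h3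
    rw [h5, Finset.card_empty] at h6
    simpa using h6
  tfae_have 3 → 4 := by
    intro h r e K _ _ _
    obtain ⟨A, hA⟩ := h r e
    refine ⟨A * (max (canDeg k K) 0).toNat, fun p h1 h2 h3 => ?_⟩
    have h4 := hA K p h1 h2 h3
    have h5 : (((max (canDeg k K) 0).toNat : ℕ) : ℤ) = max (canDeg k K) 0 :=
      Int.toNat_of_nonneg (le_max_right _ _)
    push_cast
    rw [Int.toNat_of_nonneg (le_max_right _ _)]
    exact h4
  tfae_have 3 → 5 := by
    intro h r e K _ _ _ hK p h1 h2 h3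
    obtain ⟨A, hA⟩ := h r e
    have h4 := hA K p h1 h2 h3
    rw [max_eq_right hK, mul_zero] at h4
    exact le_antisymm h4 (ht_nonneg (Set.toFinite _))
  -- converses
  have hell : (∀ (d : ℕ) (a b : k) (A B : Fin (n + 1) → k[X]), ¬ EllCurve X d a b A B) →
      ∀ d : ℕ, (∀ V : Fin (n + 1) → k[X], ¬ RatCurve X d V) ∧
        ∀ (a b : k) (A B : Fin (n + 1) → k[X]), ¬ EllCurve X d a b A B := by
    intro h d
    refine ⟨fun V hV => ?_, h d⟩
    have hd : 4 * (0 : k) ^ 3 + 27 * (1 : k) ^ 2 ≠ 0 := by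
      norm_num
    exact h d 0 1 _ _ (ell_of_rat hV hd)
  tfae_have 4 → 1 := by
    intro h
    apply hell
    intro d a b A B hV
    obtain ⟨K, _, _, _, x, y, hx, hy, -⟩ := exists_ellff hV.disc
    obtain ⟨A0, hA0⟩ := h 2 (d + 1) K
    obtain ⟨x', y', hx', hy', hbig⟩ := exists_big hV.disc hx hy (2 * A0 + 1)
    obtain ⟨⟨j, hj⟩, h2⟩ := ht_curve hx' hy' hV.nonconst
    have h3 := hA0 _ (termPt_curve hV.disc hy' hV.deg) (fun h0 => hj (congrFun h0 j))
      (mem_curve hV hy')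
    push_cast at hbig
    linarith
  tfae_have 5 → 1 := by
    intro h
    apply hell
    intro d a b A B hV
    obtain ⟨K, _, _, _, x, y, hx, hy, hc⟩ := exists_ellff hV.disc
    obtain ⟨⟨j, hj⟩, h2⟩ := ht_curve hx hy hV.nonconst
    have h3 := h 2 (d + 1) K hc _ (termPt_curve hV.disc hy hV.deg)
      (fun h0 => hj (congrFun h0 j)) (mem_curve hV hy)
    rw [h3, mul_zero] at h2
    obtain ⟨c, hc'⟩ := const_of_hgt h2
    apply hx
    rw [hc']
    exact isAlgebraic_algebraMap c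
  tfae_finish

end Pool.Agent.Helper6.FT
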