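import Pool.Agent.Helper6.FT.Stg
import Pool.Agent.Helper6.FT.Los
import Pool.Agent.Helper6.FT.Defs

/-! From the ultraproduct to curves over the factors, of bounded degree. -/

set_option autoImplicit false
set_option linter.unusedSectionVars false

namespace Pool.Agent.Helper6.FT

open EE EV EU Polynomial Filter IntermediateField

section

variable {C L : Type} [Field C] [CharZero C] [Field L] [Algebra C L] {κ : Type}

theorem prp_mono {F : IntermediateField C L} {C' : Type} [Field C'] [Algebra C' L]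
    {F' : IntermediateField C' L} (h : ∀ x ∈ F, x ∈ F') {v : κ → L} (hv : Prp v F) : Prp v F' := by
  obtain ⟨g, u, h1, h2⟩ := hv
  exact ⟨g, u, fun j => h _ (h1 j), h2⟩

theorem mem_bot_iff {F : IntermediateField C L} {x : L} :
    x ∈ (⊥ : IntermediateField F L) ↔ x ∈ F := by
  rw [IntermediateField.mem_bot]
  constructor
  · rintro ⟨y, rfl⟩
    exact y.2
  · intro h
    exact ⟨⟨x, h⟩, rfl⟩

theorem tr_bot {F : IntermediateField C L} {q : L} (hq : Transcendental F q) :
    Transcendental (⊥ : IntermediateField F L) q := by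
  intro h
  apply hq
  have h1 : Algebra.IsAlgebraic F (⊥ : IntermediateField F L) := by
    constructor
    rintro ⟨x, hx⟩
    obtain ⟨y, hy⟩ := IntermediateField.mem_bot.1 hx
    have : (⟨x, hx⟩ : (⊥ : IntermediateField F L)) =
        algebraMap F (⊥ : IntermediateField F L) y := Subtype.ext hy.symm
    rw [this]
    exact isAlgebraic_algebraMap y
  exact IsAlgebraic.restrictScalars F h

theorem adj_sub {F : IntermediateField C L} {T : Set L} :
    ∀ x ∈ IntermediateField.adjoin C ((F : Set L) ∪ T),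
      x ∈ IntermediateField.adjoin F (((⊥ : IntermediateField F L) : Set L) ∪ T) := by
  intro x hx
  rw [← IntermediateField.restrictScalars_adjoin] at hx
  have h1 : IntermediateField.adjoin F T ≤
      IntermediateField.adjoin F (((⊥ : IntermediateField F L) : Set L) ∪ T) :=
    IntermediateField.adjoin.mono _ _ _ Set.subset_union_right
  exact h1 hx

theorem lift_form {F' : IntermediateField C L} {P : MvPolynomial κ L} (h : ∀ m, P.coeff m ∈ F')
    {e : ℕ} (hP : P.IsHomogeneous e) : ∃ Q : MvPolynomial κ F', Q.IsHomogeneous e ∧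
      MvPolynomial.map (algebraMap F' L) Q = P := by
  classical
  refine ⟨∑ m ∈ P.support, MvPolynomial.monomial m (⟨P.coeff m, h m⟩ : F'), ?_, ?_⟩
  · refine MvPolynomial.IsHomogeneous.sum _ _ _ fun m hm => ?_
    apply MvPolynomial.isHomogeneous_monomial
    have h1 := hP (MvPolynomial.mem_support_iff.1 hm)
    rw [← h1, Finsupp.weight_apply, Finsupp.sum, Finsupp.degree]
    simp
  · rw [map_sum]
    conv_rhs => rw [P.as_sum]
    refine Finset.sum_congr rfl fun m _ => ?_
    rw [MvPolynomial.map_monomial]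
    rfl

variable [Finite κ]

/-- the rational stage, for forms over the smaller field -/
theorem rat_stg {F' : IntermediateField C L} {q : L} (hq : Transcendental F' q) {v : κ → L}
    (h1 : Prp v (IntermediateField.adjoin C ((F' : Set L) ∪ {q}))) (h2 : ¬ Prp v F') :
    ∃ (g : L) (V : κ → L[X]), (∀ j, v j = g * (V j).eval q) ∧
      (∃ i j m k, (V i).coeff m * (V j).coeff k ≠ (V j).coeff m * (V i).coeff k) ∧
      ∀ (e : ℕ) (G : MvPolynomial κ L), (∀ m, G.coeff m ∈ F') → G.IsHomogeneous e →
        MvPolynomial.eval₂ (RingHom.id L) v G = 0 → MvPolynomial.eval₂ Polynomial.C V G = 0 := by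
  have hF : CharZero F' := cz (C := C) F'
  obtain ⟨g, V, hV1, hV2, hV3⟩ := rat_stage (C := F') (F' := ⊥) (tr_bot hq) (v := v)
    (prp_mono adj_sub h1) (fun h => h2 (prp_mono (fun x hx => mem_bot_iff.1 hx) h))
  refine ⟨g, V, hV1, hV2, fun e G hG hGe hGv => ?_⟩
  obtain ⟨Q, hQ, rfl⟩ := lift_form hG hGe
  rw [MvPolynomial.eval₂_map] at hGv ⊢
  have h3 := hV3 e Q hQ (by
    rw [← hGv, MvPolynomial.aeval_def]
    rfl)
  rw [← h3, MvPolynomial.aeval_def]
  rfl

/-- the elliptic stage, for forms over the smaller field -/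
theorem ell_stg {F' : IntermediateField C L} {a b : C} {x y : L} (hx : Transcendental F' x)
    (hy : y ^ 2 = x ^ 3 + algebraMap C L a * x + algebraMap C L b) {v : κ → L}
    (h1 : Prp v (IntermediateField.adjoin C ((F' : Set L) ∪ {x, y}))) (h2 : ¬ Prp v F') :
    ∃ (g : L) (A B : κ → L[X]), (∀ j, v j = g * ((A j).eval x + (B j).eval x * y)) ∧
      (∃ i j s t, cf (A i) (B i) s * cf (A j) (B j) t ≠ cf (A j) (B j) s * cf (A i) (B i) t) ∧
      ∀ (e : ℕ) (G : MvPolynomial κ L), (∀ m, G.coeff m ∈ F') → G.IsHomogeneous e →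
        MvPolynomial.eval₂ (RingHom.id L) v G = 0 →
        (MvPolynomial.eval₂ (Polynomial.C.comp Polynomial.C) (fun j => two (A j) (B j)) G) %ₘ
          weq (algebraMap C L a) (algebraMap C L b) = 0 := by
  have hF : CharZero F' := cz (C := C) F'
  obtain ⟨g, A, B, hV1, hV2, hV3⟩ := ell_stage (C := F') (F' := ⊥) (a := algebraMap C F' a)
    (b := algebraMap C F' b) (tr_bot hx) hy (v := v)
    (prp_mono adj_sub h1) (fun h => h2 (prp_mono (fun x hx => mem_bot_iff.1 hx) h))
  refine ⟨g, A, B, hV1, hV2, fun e G hG hGe hGv => ?_⟩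
  obtain ⟨Q, hQ, rfl⟩ := lift_form hG hGe
  rw [MvPolynomial.eval₂_map] at hGv ⊢
  have h3 := hV3 e Q hQ (by
    rw [← hGv, MvPolynomial.aeval_def]
    rfl)
  rw [MvPolynomial.aeval_def] at h3
  exact h3

end

end Pool.Agent.Helper6.FT
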