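import Pool.Agent.Helper6.FT.Tra

/-! From the ultraproduct to curves over the factors, of bounded degree. -/

set_option autoImplicit false
set_option linter.unusedSectionVars false

namespace Pool.Agent.Helper6.FT

open EE EV EU Polynomial Filter IntermediateField

/-- forms in the sets of equations -/
theorem forms_ev {ι : Type} {U : Ultrafilter ι} {κ : Type} {k : ι → Type} [∀ i, Field (k i)]
    {D0 : ℕ} {S : ∀ i, Set (MvPolynomial κ (k i))}
    (hS : ∀ i, ∀ F ∈ S i, ∃ e ≤ D0, F.IsHomogeneous e) {R : ∀ i, MvPolynomial κ (k i) → Prop}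
    (h : ∀ (e : ℕ) (F : ∀ i, MvPolynomial κ (k i)),
      (∀ᶠ i in (U : Filter ι), (F i).IsHomogeneous e) →
      (∀ᶠ i in (U : Filter ι), F i ∈ S i) → ∀ᶠ i in (U : Filter ι), R i (F i)) :
    ∀ᶠ i in (U : Filter ι), ∀ F ∈ S i, R i F := by
  classical
  by_contra hcon
  rw [← Ultrafilter.eventually_not] at hcon
  have h1 : ∀ᶠ i in (U : Filter ι), ∃ e ∈ Set.Iic D0, ∃ F : MvPolynomial κ (k i),
      F ∈ S i ∧ F.IsHomogeneous e ∧ ¬ R i F := by
    filter_upwards [hcon] with i hi
    push Not at hi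
    obtain ⟨F, hF, hR⟩ := hi
    obtain ⟨e, he, hh⟩ := hS i F hF
    exact ⟨e, he, F, hF, hh, hR⟩
  rw [Ultrafilter.eventually_exists_mem_iff (Set.finite_Iic D0)] at h1
  obtain ⟨e, -, h2⟩ := h1
  have h3 : ∀ i, ∃ F : MvPolynomial κ (k i), (∃ F : MvPolynomial κ (k i),
      F ∈ S i ∧ F.IsHomogeneous e ∧ ¬ R i F) → F ∈ S i ∧ F.IsHomogeneous e ∧ ¬ R i F := by
    intro i
    by_cases hi : ∃ F : MvPolynomial κ (k i), F ∈ S i ∧ F.IsHomogeneous e ∧ ¬ R i F
    · obtain ⟨F, hF⟩ := hi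
      exact ⟨F, fun _ => hF⟩
    · exact ⟨0, fun h => absurd h hi⟩
  choose F hF using h3
  have hF' : ∀ᶠ i in (U : Filter ι), F i ∈ S i ∧ (F i).IsHomogeneous e ∧ ¬ R i (F i) :=
    h2.mono fun i hi => hF i hi
  obtain ⟨i, h3, h4⟩ := ((h e F (hF'.mono fun i hi => hi.2.1) (hF'.mono fun i hi => hi.1)).and
    hF').exists
  exact h4.2.2 h3

theorem cfs_eq {M : Type} [Field M] (A B : M[X]) : cfs A B = cf A B := rfl

section

variable {ι : Type} {U : Ultrafilter ι} {k k₀ K : ι → Type} [∀ i, Field (k i)]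
  [∀ i, Field (k₀ i)] [∀ i, Field (K i)] [∀ i, Algebra (k i) (K i)] [∀ i, Algebra (k₀ i) (K i)]
  {D : ∀ i, Derivation (k i) (K i) (K i)} {C L : Type} [Field C] [CharZero C] [Field L]
  [Algebra C L] {D' : Derivation C L L} {π : (∀ i, K i) →+* L} {θ : (∀ i, k i) →+* C}
  {κ : Type} [Fintype κ]

/-- **Transfer.** -/
theorem transfer (hu : Dlt U D C L D' π θ) {E : C → C → Prop} {G : IntermediateField C L}
    {U' : Submodule C L} {M : IntermediateField C L} (hM : Ch (A1 E) D' G U' M)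
    (v : κ → ∀ i, K i) (h0 : ¬ Prp (fun j => π (v j)) G) (h1 : Prp (fun j => π (v j)) M) (D0 : ℕ)
    (S : ∀ i, Set (MvPolynomial κ (k₀ i))) (hS : ∀ i, ∀ F ∈ S i, ∃ e ≤ D0, F.IsHomogeneous e)
    (hv : ∀ᶠ i in (U : Filter ι), ∀ F ∈ S i, MvPolynomial.aeval (fun j => v j i) F = 0)
    (hco : ∀ F : ∀ i, MvPolynomial κ (k₀ i), (∀ᶠ i in (U : Filter ι), F i ∈ S i) →
      ∃ c : L, c ≠ 0 ∧ ∀ m, c * π (fun i => algebraMap (k₀ i) (K i) ((F i).coeff m)) ∈ G) :
    ∃ d, ∀ᶠ i in (U : Filter ι), OnRat (S i) d (fun j => v j i) ∨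
      OnEll (k i) (S i) d (fun j => v j i) := by
  classical
  set γ : (∀ i, k₀ i) →+* L := π.comp (dal k₀ K) with hγ
  -- normalised forms
  have hform : ∀ (e : ℕ) (F : ∀ i, MvPolynomial κ (k₀ i)),
      (∀ᶠ i in (U : Filter ι), (F i).IsHomogeneous e) → (∀ᶠ i in (U : Filter ι), F i ∈ S i) →
      ∃ c : L, c ≠ 0 ∧ (∀ m, (MvPolynomial.C c * MvPolynomial.map γ (til e F)).coeff m ∈ G) ∧
        (MvPolynomial.C c * MvPolynomial.map γ (til e F)).IsHomogeneous e ∧
        MvPolynomial.eval₂ (RingHom.id L) (fun j => π (v j))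
          (MvPolynomial.C c * MvPolynomial.map γ (til e F)) = 0 := by
    intro e F hF hFS
    obtain ⟨c, hc, hcG⟩ := hco F hFS
    refine ⟨c, hc, fun m => ?_, ?_, ?_⟩
    · rw [MvPolynomial.coeff_C_mul]
      rcases til_coeff e F γ m with h | h
      · rw [h, mul_zero]; exact zero_mem _
      · rw [h]
        exact hcG m
    · have h2 := (MvPolynomial.isHomogeneous_C κ c).mul (til_hom e F γ)
      rwa [zero_add] at h2
    · rw [MvPolynomial.eval₂_mul, (los_val hu.zero hF v).2, mul_zero]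
      filter_upwards [hv, hFS] with i h2 h3
      exact h2 _ h3
  rcases stageC hM h0 h1 with ⟨F', q, hGF, hq, h3, h4⟩ | ⟨F', a, b, x, y, hGF, hd, hx, hy, h3, h4⟩
  · obtain ⟨g, V, hV1, ⟨i1, i2, m1, m2, hV2⟩, hV3⟩ := rat_stg hq h3 h4
    obtain ⟨g, rfl⟩ := hu.surj g
    obtain ⟨q, rfl⟩ := hu.surj q
    have hW : ∀ j, ∃ Q : (∀ i, K i)[X], Q.map π = V j ∧
        ∀ i, (Q.map (ev i)).natDegree ≤ (V j).natDegree := fun j => lift_poly hu.surj (V j)
    choose W hW1 hW2 using hW
    refine ⟨Finset.univ.sup fun j => (V j).natDegree, ?_⟩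
    have e1 : ∀ᶠ i in (U : Filter ι), ∀ j, v j i = g i * ((W j).map (ev i)).eval (q i) := by
      rw [eventually_all]
      intro j
      have h5 : π (v j) = π (g * (W j).eval q) := by
        rw [map_mul, ← eval₂_at_apply, ← eval_map, hW1 j]
        exact hV1 j
      rw [hu.eq] at h5
      filter_upwards [h5] with i hi
      rw [hi, Pi.mul_apply, eval_map]
      congr 1
      exact (eval₂_at_apply (p := W j) (ev i) q).symm
    have e2 : ∀ᶠ i in (U : Filter ι), ((W i1).map (ev i)).coeff m1 *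
        ((W i2).map (ev i)).coeff m2 ≠
        ((W i2).map (ev i)).coeff m1 * ((W i1).map (ev i)).coeff m2 := by
      rw [← hW1 i1, ← hW1 i2, coeff_map, coeff_map, coeff_map, coeff_map] at hV2
      simp only [coeff_map]
      exact coeff_ne hu.zero hV2
    have e3 : ∀ᶠ i in (U : Filter ι), ∀ F ∈ S i,
        (MvPolynomial.aeval (fun j => (W j).map (ev i)) F : (K i)[X]) = 0 := by
      apply forms_ev (U := U) hS
      intro e F hF hFS
      rw [← los_rat hu.zero hF]
      obtain ⟨c, hc, h5, h6, h7⟩ := hform e F hF hFS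
      have h8 := hV3 e _ (fun m => hGF (h5 m)) h6 h7
      rw [MvPolynomial.eval₂_mul, MvPolynomial.eval₂_C, mul_eq_zero, or_iff_right
        (Polynomial.C_ne_zero.2 hc)] at h8
      rw [← h8]
      congr 1
      funext j
      exact hW1 j
    filter_upwards [e1, e2, e3] with i h5 h6 h7
    left
    exact ⟨fun j => (W j).map (ev i), ⟨fun j => (hW2 j i).trans
      (Finset.le_sup (f := fun j => (V j).natDegree) (Finset.mem_univ j)), ⟨i1, i2, m1, m2, h6⟩,
      h7⟩, g i, q i, h5⟩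
  · obtain ⟨g, A, B, hV1, ⟨i1, i2, s1, s2, hV2⟩, hV3⟩ := ell_stg hx hy h3 h4
    obtain ⟨g, rfl⟩ := hu.surj g
    obtain ⟨x, rfl⟩ := hu.surj x
    obtain ⟨y, rfl⟩ := hu.surj y
    obtain ⟨a, rfl⟩ := hu.tsurj a
    obtain ⟨b, rfl⟩ := hu.tsurj b
    have hW : ∀ j, ∃ Q : (∀ i, K i)[X], Q.map π = A j ∧
        ∀ i, (Q.map (ev i)).natDegree ≤ (A j).natDegree := fun j => lift_poly hu.surj (A j)
    choose W hW1 hW2 using hW
    have hW' : ∀ j, ∃ Q : (∀ i, K i)[X], Q.map π = B j ∧
        ∀ i, (Q.map (ev i)).natDegree ≤ (B j).natDegree := fun j => lift_poly hu.surj (B j)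
    choose W' hW1' hW2' using hW'
    refine ⟨max (Finset.univ.sup fun j => (A j).natDegree)
      (Finset.univ.sup fun j => (B j).natDegree), ?_⟩
    have e1 : ∀ᶠ i in (U : Filter ι), ∀ j, v j i =
        g i * (((W j).map (ev i)).eval (x i) + ((W' j).map (ev i)).eval (x i) * y i) := by
      rw [eventually_all]
      intro j
      have h5 : π (v j) = π (g * ((W j).eval x + (W' j).eval x * y)) := by
        rw [map_mul, map_add, map_mul, ← eval₂_at_apply, ← eval_map, hW1 j, ← eval₂_at_apply,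
          ← eval_map, hW1' j]
        exact hV1 j
      rw [hu.eq] at h5
      filter_upwards [h5] with i hi
      rw [hi, Pi.mul_apply, Pi.add_apply, Pi.mul_apply, eval_map, eval_map]
      congr 2
      · exact (eval₂_at_apply (p := W j) (ev i) x).symm
      · congr 1
        exact (eval₂_at_apply (p := W' j) (ev i) x).symm
    have hcf : ∀ (P Q : (∀ i, K i)[X]) t, cf (P.map π) (Q.map π) t = π (cf P Q t) := by
      intro P Q t
      rcases t with t | t
      · exact coeff_map _ _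
      · exact coeff_map _ _
    have hcf' : ∀ (i : ι) (P Q : (∀ i, K i)[X]) t, cf (P.map (ev i)) (Q.map (ev i)) t =
        (cf P Q t) i := by
      intro i P Q t
      rcases t with t | t
      · exact coeff_map _ _
      · exact coeff_map _ _
    have e2 : ∀ᶠ i in (U : Filter ι), cf ((W i1).map (ev i)) ((W' i1).map (ev i)) s1 *
        cf ((W i2).map (ev i)) ((W' i2).map (ev i)) s2 ≠
        cf ((W i2).map (ev i)) ((W' i2).map (ev i)) s1 *
          cf ((W i1).map (ev i)) ((W' i1).map (ev i)) s2 := by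
      rw [← hW1 i1, ← hW1 i2, ← hW1' i1, ← hW1' i2, hcf, hcf, hcf, hcf] at hV2
      simp only [hcf']
      exact coeff_ne hu.zero hV2
    have e3 : ∀ᶠ i in (U : Filter ι), ∀ F ∈ S i,
        (MvPolynomial.aeval (fun j => two ((W j).map (ev i)) ((W' j).map (ev i))) F :
          (K i)[X][X]) %ₘ weq (algebraMap (k i) (K i) (a i)) (algebraMap (k i) (K i) (b i)) = 0 := by
      apply forms_ev (U := U) hS
      intro e F hF hFS
      have h9 := los_ell hu.zero hF W W' (fun i => algebraMap (k i) (K i) (a i))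
        (fun i => algebraMap (k i) (K i) (b i))
      refine h9.1 ?_
      rw [hu.alg, hu.alg]
      obtain ⟨c, hc, h5, h6, h7⟩ := hform e F hF hFS
      have h8 := hV3 e _ (fun m => hGF (h5 m)) h6 h7
      rw [MvPolynomial.eval₂_mul, MvPolynomial.eval₂_C,
        Polynomial.modByMonic_eq_zero_iff_dvd (weq_monic _ _), RingHom.comp_apply] at h8
      rw [Polynomial.modByMonic_eq_zero_iff_dvd (weq_monic _ _)]
      have h10 : IsUnit (Polynomial.C (Polynomial.C c) : L[X][X]) :=
        Polynomial.isUnit_C.2 (Polynomial.isUnit_C.2 (isUnit_iff_ne_zero.2 hc))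
      have h11 := (IsUnit.dvd_mul_left h10).1 h8
      convert h11 using 2
      funext j
      rw [hW1 j, hW1' j]
    have e4 : ∀ᶠ i in (U : Filter ι), y i ^ 2 = x i ^ 3 + algebraMap (k i) (K i) (a i) * x i +
        algebraMap (k i) (K i) (b i) := by
      rw [← hu.alg, ← hu.alg, ← map_pow, ← map_pow, ← map_mul, ← map_add, ← map_add,
        hu.eq] at hy
      exact hy
    have e5 : ∀ᶠ i in (U : Filter ι), 4 * a i ^ 3 + 27 * b i ^ 2 ≠ 0 := by
      have h12 : θ (4 * a ^ 3 + 27 * b ^ 2) ≠ 0 := by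
        simpa only [map_add, map_mul, map_pow, map_ofNat] using hd
      rw [Ne, hu.tzero, ← Ultrafilter.eventually_not] at h12
      exact h12
    filter_upwards [e1, e2, e3, e4, e5] with i h5 h6 h7 h8 h9
    right
    refine ⟨a i, b i, fun j => (W j).map (ev i), fun j => (W' j).map (ev i),
      ⟨?_, fun j => ⟨?_, ?_⟩, ⟨i1, i2, s1, s2, h6⟩, fun F hF => ?_⟩, g i, x i, y i, h8, h5⟩
    · have h12 : algebraMap (k i) (K i) (4 * a i ^ 3 + 27 * b i ^ 2) ≠ 0 := by
        rw [Ne, map_eq_zero]; exact h9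
      simpa only [map_add, map_mul, map_pow, map_ofNat] using h12
    · exact ((hW2 j i).trans
        (Finset.le_sup (f := fun j => (A j).natDegree) (Finset.mem_univ j))).trans
        (le_max_left _ _)
    · exact ((hW2' j i).trans
        (Finset.le_sup (f := fun j => (B j).natDegree) (Finset.mem_univ j))).trans
        (le_max_right _ _)
    · exact (Polynomial.modByMonic_eq_zero_iff_dvd (weq_monic _ _)).1 (h7 F hF)

end

end Pool.Agent.Helper6.FT
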