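import Pool.Agent.Helper6.FT.Sml

/-! The classes of terms. -/

set_option autoImplicit false
set_option linter.unusedSectionVars false

namespace Pool.Agent.Helper6.FT

open FF Pool.Agent.W603.LV EE EV EU Filter Pool.Agent.Q33.FP

section

variable {ι : Type} {U : Ultrafilter ι} {k K Kb : ι → Type} [∀ i, Field (k i)]
  [∀ i, Field (K i)] [∀ i, Field (Kb i)] [∀ i, Algebra (k i) (K i)] [∀ i, Algebra (k i) (Kb i)]
  [∀ i, Algebra (K i) (Kb i)] [∀ i, IsScalarTower (k i) (K i) (Kb i)] [∀ i, CharZero (k i)]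
  [∀ i, IsFF (k i) (K i)] [∀ i, IsAlgClosed (k i)]
  {D : ∀ i, Derivation (k i) (Kb i) (Kb i)} {C L : Type} [Field C] [CharZero C] [Field L]
  [Algebra C L] {D' : Derivation C L L} {π : (∀ i, Kb i) →+* L} {θ : (∀ i, k i) →+* C}

theorem cls_der (hu : Dlt U D C L D' π θ) {D0 : ∀ i, Derivation (k i) (K i) (K i)}
    (hD : ∀ i (x : K i), D i (algebraMap (K i) (Kb i) x) = algebraMap (K i) (Kb i) (D0 i x))
    (f : ∀ i, K i) : D' (cls K π f) = cls K π fun i => D0 i (f i) := by
  change D' (π _) = π _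
  rw [hu.der]
  congr 1
  funext i
  exact hD i (f i)

theorem cls_alg (hu : Dlt U D C L D' π θ) (c : ∀ i, k i) :
    cls K π (fun i => algebraMap (k i) (K i) (c i)) = algebraMap C L (θ c) := by
  rw [← hu.alg]
  change π _ = π _
  congr 1
  funext i
  exact (IsScalarTower.algebraMap_apply (k i) (K i) (Kb i) (c i)).symm

theorem term_cls (hu : Dlt U D C L D' π θ) {h : ι → ℤ}
    {D0 : ∀ i, Derivation (k i) (K i) (K i)}
    (hD : ∀ i (x : K i), D i (algebraMap (K i) (Kb i) x) = algebraMap (K i) (Kb i) (D0 i x))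
    (S : ∀ i, Finset (Place (k i) (K i))) (hg : ∀ᶠ i in (U : Filter ι), GoodD (S i) (D0 i))
    (hz : ∀ᶠ i in (U : Filter ι), canDeg (k i) (K i) + (S i).card ≤ h i) (w : ∀ i, K i)
    (hw : ∀ᶠ i in (U : Filter ι), Term (S i) (w i)) :
    ∃ (τ : AGp C) (P : τ.G L), A1 (fun _ _ => True) τ ∧
      τ.lam D' P ∈ usub (acl (Sm (K := K) hu h)) ∧ cls K π w ∈ τ.coord P := by
  classical
  have hLz := cz (C := C) L
  have hle : ∀ x, x ∈ Sm (K := K) hu h → x ∈ usub (acl (Sm (K := K) hu h)) := fun x hx =>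
    le_acl _ hx
  unfold Term at hw
  rw [Ultrafilter.eventually_or] at hw
  rcases hw with hw | hw
  · have h1 : cls K π w ≠ 0 := (cls_ne hu).2 (hw.mono fun i hi => hi.1)
    refine ⟨Gm, Additive.ofMul (Units.mk0 _ h1), Or.inl rfl, hle _ ?_, List.mem_singleton_self _⟩
    change D' (cls K π w) / cls K π w ∈ _
    rw [cls_der hu hD, ← cls_div hu]
    refine ⟨_, 1, rfl, ?_⟩
    filter_upwards [hw, hg, hz] with i h2 h3 h4
    have := hgt_unit h3 h2.1 h2.2
    push_cast
    linarith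
  · have h1 : ∀ i, ∃ q : k i × k i × K i × K i, (∃ (a b : k i) (x y : K i),
        4 * a ^ 3 + 27 * b ^ 2 ≠ 0 ∧ y ^ 2 = x ^ 3 + algebraMap (k i) (K i) a * x +
          algebraMap (k i) (K i) b ∧ (w i = x ∨ w i = y)) →
        4 * q.1 ^ 3 + 27 * q.2.1 ^ 2 ≠ 0 ∧ q.2.2.2 ^ 2 = q.2.2.1 ^ 3 +
          algebraMap (k i) (K i) q.1 * q.2.2.1 + algebraMap (k i) (K i) q.2.1 ∧
          (w i = q.2.2.1 ∨ w i = q.2.2.2) := by
      intro i
      by_cases hi : ∃ (a b : k i) (x y : K i),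
        4 * a ^ 3 + 27 * b ^ 2 ≠ 0 ∧ y ^ 2 = x ^ 3 + algebraMap (k i) (K i) a * x +
          algebraMap (k i) (K i) b ∧ (w i = x ∨ w i = y)
      · obtain ⟨a, b, x, y, hh⟩ := hi
        exact ⟨⟨a, b, x, y⟩, fun _ => hh⟩
      · exact ⟨⟨0, 0, 0, 0⟩, fun h => absurd h hi⟩
    choose q hq using h1
    have hq' := hw.mono fun i hi => hq i hi
    set a : ∀ i, k i := fun i => (q i).1 with ha
    set b : ∀ i, k i := fun i => (q i).2.1 with hb
    set x : ∀ i, K i := fun i => (q i).2.2.1 with hx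
    set y : ∀ i, K i := fun i => (q i).2.2.2 with hy
    have hd : 4 * θ a ^ 3 + 27 * θ b ^ 2 ≠ 0 := by
      have h2 : θ (4 * a ^ 3 + 27 * b ^ 2) ≠ 0 := by
        rw [Ne, hu.tzero, ← Ultrafilter.eventually_not]
        exact hq'.mono fun i hi => hi.1
      simpa only [map_add, map_mul, map_pow, map_ofNat] using h2
    have heq : cls K π y ^ 2 = cls K π x ^ 3 + algebraMap C L (θ a) * cls K π x +
        algebraMap C L (θ b) := by
      rw [← cls_alg (K := K) hu, ← cls_alg (K := K) hu, ← map_pow, ← map_pow, ← map_mul, ← map_add, ← map_add,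
        cls_eq hu]
      exact hq'.mono fun i hi => hi.2.1
    have hns := nonsing hd heq
    refine ⟨Ell (θ a) (θ b), WeierstrassCurve.Affine.Point.some (cls K π x) (cls K π y) hns,
      Or.inr ⟨_, _, trivial, hd, rfl⟩, hle _ ?_, ?_⟩
    · change D' (cls K π x) / (2 * cls K π y) ∈ _
      have h2 : (2 : L) * cls K π y = cls K π fun i => 2 * y i := by
        rw [← map_ofNat (cls K π) 2, ← map_mul]
        rfl
      rw [cls_der hu hD, h2, ← cls_div hu]
      refine ⟨_, 1, rfl, ?_⟩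
      filter_upwards [hq', hg, hz] with i h3 h4 h5
      have h6 := hgt_ell h4 h3.1
        (WeierstrassCurve.Affine.Point.some (x i) (y i) (nonsing h3.1 h3.2.1))
      change hgt (k i) (D0 i (x i) / (2 * y i)) ≤ _ at h6
      push_cast
      linarith
    · change cls K π w ∈ [cls K π x, cls K π y]
      have h2 : ∀ᶠ i in (U : Filter ι), w i = x i ∨ w i = y i := hq'.mono fun i hi => hi.2.2
      rw [Ultrafilter.eventually_or] at h2
      rcases h2 with h2 | h2
      · rw [(cls_eq hu).2 h2]; simp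
      · rw [(cls_eq hu).2 h2]; simp

end

end Pool.Agent.Helper6.FT
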