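import Pool.Agent.Helper6.FT.Vec

/-! The uniform theorem. -/

set_option autoImplicit false
set_option linter.unusedSectionVars false

namespace Pool.Agent.Helper6.FT

open FF Pool.Agent.W603.LV EE EV EU Filter Pool.Agent.Q33.FP

/-- counterexamples -/
structure CE (n D0 r e i : ℕ) where
  k : Type
  K : Type
  Kb : Type
  [fk : Field k]
  [fK : Field K]
  [fKb : Field Kb]
  [a1 : Algebra k K]
  [a2 : Algebra k Kb]
  [a3 : Algebra K Kb]
  [tow : IsScalarTower k K Kb]
  [cz : CharZero k]
  [ff : IsFF k K]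
  [ac : IsAlgClosed k]
  [acb : IsAlgClosed Kb]
  [alg : Algebra.IsAlgebraic K Kb]
  X : Set (MvPolynomial (Fin (n + 1)) K)
  h : ℤ
  h0 : 0 ≤ h
  hX : ∀ F ∈ X, ∃ e' ≤ D0, F.IsHomogeneous e'
  hXh : ∀ F ∈ X, ht k (fun m => F.coeff m) ≤ h
  S : Finset (Place k K)
  F : Fin (n + 1) → MvPolynomial (Fin r) K
  w : Fin r → K
  p : Fin (n + 1) → K
  tv : TermVec S r e F w p
  pne : ∃ j, p j ≠ 0
  van : ∀ G ∈ X, MvPolynomial.eval p G = 0
  big : (i : ℤ) * (max (canDeg k K + S.card) 0 + vht k F + h) < ht k p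
  nrat : ¬ OnRat X i (fun j => algebraMap K Kb (p j))
  nell : ¬ OnEll k X i (fun j => algebraMap K Kb (p j))

attribute [instance] CE.fk CE.fK CE.fKb CE.a1 CE.a2 CE.a3 CE.tow CE.cz CE.ff CE.ac CE.acb CE.alg

theorem Dlt.con' {ι : Type} {U : Ultrafilter ι} {k K : ι → Type} [∀ i, Field (k i)]
    [∀ i, Field (K i)] [∀ i, Algebra (k i) (K i)] {D : ∀ i, Derivation (k i) (K i) (K i)}
    {C L : Type} [Field C] [Field L] [Algebra C L] {D' : Derivation C L L}
    {π : (∀ i, K i) →+* L} {θ : (∀ i, k i) →+* C} (h : Dlt U D C L D' π θ)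
    (hC : ∀ᶠ i in (U : Filter ι), ∀ x, D i x = 0 → ∃ c : k i, algebraMap (k i) (K i) c = x) :
    ∀ x, D' x = 0 → ∃ c : C, algebraMap C L c = x := by
  intro y hy
  obtain ⟨y, rfl⟩ := h.surj y
  rw [h.der, h.zero] at hy
  have h1 : ∀ i, ∃ c : k i, (∃ c : k i, algebraMap (k i) (K i) c = y i) →
      algebraMap (k i) (K i) c = y i := by
    intro i
    by_cases h0 : ∃ c : k i, algebraMap (k i) (K i) c = y i
    · obtain ⟨c, hc⟩ := h0
      exact ⟨c, fun _ => hc⟩
    · exact ⟨0, fun h => absurd h h0⟩
  choose c hc using h1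
  refine ⟨θ c, ?_⟩
  rw [← h.alg, h.eq]
  filter_upwards [hy, hC] with i hi h2
  exact hc i (h2 _ hi)

theorem ev_ge (n : ℕ) : ∀ᶠ i in ((hyperfilter ℕ : Ultrafilter ℕ) : Filter ℕ), n ≤ i := by
  have h6 : ∀ᶠ i in (cofinite : Filter ℕ), n ≤ i := by
    rw [Nat.cofinite_eq_atTop]
    exact eventually_ge_atTop n
  exact hyperfilter_le_cofinite h6

theorem no_CE {n D0 r e : ℕ} (c : ∀ i : ℕ, CE n D0 r e i) : False := by
  classical
  set h : ℕ → ℤ := fun i => max (canDeg (c i).k (c i).K + (c i).S.card) 0 +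
    vht (c i).k (c i).F + (c i).h with hh
  have hv0 : ∀ i, 0 ≤ vht (c i).k (c i).F := fun i => ht_nonneg (vfin _)
  have hh0 : ∀ i, 0 ≤ h i := fun i =>
    add_nonneg (add_nonneg (le_max_right _ _) (hv0 i)) (c i).h0
  have hz : ∀ i, canDeg (c i).k (c i).K + (c i).S.card ≤ h i := fun i => by
    have h1 := le_max_left (canDeg (c i).k (c i).K + (c i).S.card) 0
    have h2 := hv0 i
    have h3 := (c i).h0
    simp only [hh]
    linarith
  have hvh : ∀ i, vht (c i).k (c i).F ≤ h i := fun i => by
    have h1 := le_max_right (canDeg (c i).k (c i).K + (c i).S.card) 0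
    have h3 := (c i).h0
    simp only [hh]
    linarith
  have hXh : ∀ i, (c i).h ≤ h i := fun i => by
    have h1 := le_max_right (canDeg (c i).k (c i).K + (c i).S.card) 0
    have h2 := hv0 i
    simp only [hh]
    linarith
  -- the derivations
  have hD0 : ∀ i, ∃ D : Derivation (c i).k (c i).K (c i).K,
      1 ≤ i → GoodD (c i).S D := by
    intro i
    by_cases hi : 1 ≤ i
    · by_contra hcon
      push Not at hcon
      have h1 : ∀ a, ∃ d : (c i).k, algebraMap (c i).k (c i).K d = (c i).w a := by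
        intro a
        by_contra h2
        push Not at h2
        obtain ⟨D, hD⟩ := exists_good ((c i).tv.term a) h2
        exact (hcon D).2 hD
      have h2 := ht_const (c i).tv (c i).pne h1
      have h3 := (c i).big
      have h4 : h i ≤ (i : ℤ) * h i := by
        have h5 : (1 : ℤ) ≤ i := by exact_mod_cast hi
        nlinarith [hh0 i]
      have h5 := hvh i
      have h6 : (i : ℤ) * h i < ht (c i).k (c i).p := h3
      linarith
    · exact ⟨0, fun h => absurd h hi⟩
  choose D0 hD0 using hD0
  have hDb : ∀ i, ∃ D' : Derivation (c i).k (c i).Kb (c i).Kb,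
      ∀ x : (c i).K, D' (algebraMap (c i).K (c i).Kb x) = algebraMap (c i).K (c i).Kb (D0 i x) :=
    fun i => ext_der (D0 i)
  choose Db hDb using hDb
  have hczb : ∀ i, CharZero (c i).Kb := fun i =>
    charZero_of_injective_algebraMap (algebraMap (c i).k (c i).Kb).injective
  obtain ⟨C, L, _, _, _, _, _, _, D', π, θ, hu⟩ := exists_dlt (hyperfilter ℕ) Db
  have hcon : ∀ x, D' x = 0 → ∃ c : C, algebraMap C L c = x := by
    apply hu.con'
    filter_upwards [ev_ge 1] with i hi x hx
    exact const_ext (hD0 i hi).ne (hDb i) hx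
  have hgood : ∀ᶠ i in ((hyperfilter ℕ : Ultrafilter ℕ) : Filter ℕ), GoodD (c i).S (D0 i) := by
    filter_upwards [ev_ge 1] with i hi
    exact hD0 i hi
  set Sm' : IntermediateField C L := Sm (K := fun i => (c i).K) hu h with hSm
  set G := acl Sm' with hG
  have hst : EE.Stab D' G := stab_acl (stab_Sm hu hDb (fun i => (c i).S) hgood
    (Eventually.of_forall hz))
  have hGG : acl G ≤ G := acl_idem _
  -- the point
  have hbig : ∀ B : ℕ, ∀ᶠ i in ((hyperfilter ℕ : Ultrafilter ℕ) : Filter ℕ),
      B * h i < ht (c i).k (c i).p := by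
    intro B
    filter_upwards [ev_ge B] with i hi
    have h1 : (i : ℤ) * h i < ht (c i).k (c i).p := (c i).big
    refine lt_of_le_of_lt ?_ h1
    exact mul_le_mul_of_nonneg_right (by exact_mod_cast hi) (hh0 i)
  have hpn : ¬ Prp (fun j => cls (fun i => (c i).K) π (fun i => (c i).p j)) G :=
    not_prp hu (fun j i => (c i).p j) (Eventually.of_forall fun i => (c i).pne) hbig
  obtain ⟨t, ht⟩ : ∃ t : L, Transcendental G t := by
    by_contra hno
    push Not at hno
    apply hpn
    refine ⟨1, _, fun j => ?_, fun j => (one_mul _).symm⟩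
    apply hGG
    rw [mem_acl]
    by_contra h1
    exact hno _ h1
  have hyp := hyp_of (E := fun _ _ => True) hcon hst hGG ht
  obtain ⟨M, hM, hwM⟩ := pts_ch hyp (fun a => cls (fun i => (c i).K) π (fun i => (c i).w a)) (by
    intro a
    right
    exact term_cls hu hDb (fun i => (c i).S) hgood (Eventually.of_forall hz) _
      (Eventually.of_forall fun i => (c i).tv.term a))
  have hpM : Prp (fun j => cls (fun i => (c i).K) π (fun i => (c i).p j)) M :=
    vec_cls hu (fun i => (c i).S) (Eventually.of_forall fun i => (c i).tv)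
      (Eventually.of_forall fun i => (c i).pne) (Eventually.of_forall hvh)
      ((le_acl Sm').trans hM.le) hwM
  obtain ⟨d, hd⟩ := transfer (k₀ := fun i => (c i).K) hu hM
    (fun j i => algebraMap (c i).K (c i).Kb ((c i).p j)) hpn hpM _ (fun i => (c i).X)
    (fun i => (c i).hX) (by
      refine Eventually.of_forall fun i F hF => ?_
      have h1 := (c i).van F hF
      rw [← MvPolynomial.aeval_eq_eval] at h1
      have h2 := MvPolynomial.aeval_algebraMap_apply (A := (c i).K) (B := (c i).Kb)
        (c i).p F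
      rw [show (fun j => algebraMap (c i).K (c i).Kb ((c i).p j)) =
        algebraMap (c i).K (c i).Kb ∘ (c i).p from rfl, h2, h1, map_zero]) (by
      intro F hF
      by_cases h0 : ∀ᶠ i in ((hyperfilter ℕ : Ultrafilter ℕ) : Filter ℕ), F i = 0
      · refine ⟨1, one_ne_zero, fun m => ?_⟩
        have h1 : π (fun i => algebraMap (c i).K (c i).Kb ((F i).coeff m)) = 0 := by
          rw [hu.zero]
          filter_upwards [h0] with i hi
          rw [hi, MvPolynomial.coeff_zero, map_zero]
        rw [h1, mul_zero]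
        exact zero_mem _
      · rw [← Ultrafilter.eventually_not] at h0
        have h1 : ∀ i, ∃ m : Fin (n + 1) →₀ ℕ, F i ≠ 0 → (F i).coeff m ≠ 0 := by
          intro i
          by_cases hi : F i = 0
          · exact ⟨0, fun h => absurd hi h⟩
          · obtain ⟨m, hm⟩ := MvPolynomial.ne_zero_iff.1 hi
            exact ⟨m, fun _ => hm⟩
        choose m0 hm0 using h1
        have h2 : ∀ᶠ i in ((hyperfilter ℕ : Ultrafilter ℕ) : Filter ℕ),
            (F i).coeff (m0 i) ≠ 0 := h0.mono fun i hi => hm0 i hi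
        have h3 := (cls_ne (K := fun i => (c i).K) hu (f := fun i => (F i).coeff (m0 i))).2 h2
        refine ⟨(cls (fun i => (c i).K) π fun i => (F i).coeff (m0 i))⁻¹, inv_ne_zero h3,
          fun m => ?_⟩
        apply le_acl
        have h4 : (cls (fun i => (c i).K) π fun i => (F i).coeff (m0 i))⁻¹ *
            π (fun i => algebraMap (c i).K (c i).Kb ((F i).coeff m)) =
            cls (fun i => (c i).K) π fun i => (F i).coeff m / (F i).coeff (m0 i) := by
          rw [cls_div hu, div_eq_mul_inv, mul_comm]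
          rfl
        rw [h4]
        refine ⟨_, 1, rfl, ?_⟩
        filter_upwards [h2, hF] with i h5 h6
        have h7 := hgt_ratio_le (k := (c i).k) (cfin (F i)) (a := m) (b := m0 i) h5
        have h8 := (c i).hXh _ h6
        have h9 := hXh i
        push_cast
        linarith)
  obtain ⟨i, h1, h2⟩ := (hd.and (ev_ge d)).exists
  rcases h1 with h1 | h1
  · exact (c i).nrat (h1.mono h2)
  · exact (c i).nell (h1.mono h2)

end Pool.Agent.Helper6.FT
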