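import Pool.Agent.Helper6.FT.Trm
import Pool.Agent.Helper6.FT.Tra2

/-! Vectors of polynomials in terms. -/

set_option autoImplicit false
set_option linter.unusedSectionVars false

namespace Pool.Agent.Helper6.FT

open FF Pool.Agent.W603.LV EE EV EU Filter Pool.Agent.Q33.FP

section defs

variable (k : Type) {K : Type} [Field k] [Field K] [Algebra k K] {κ σ : Type}

/-- the height of the vector of all coefficients of the polynomials `F j` -/
noncomputable def vht (F : κ → MvPolynomial σ K) : ℤ :=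
  ht k fun q : κ × (σ →₀ ℕ) => (F q.1).coeff q.2

variable {k}

/-- The coordinates of `p` are values of the polynomials `F j` of degree at most `e` over `K` at
the `r` terms `w a`. -/
structure TermVec (S : Finset (Place k K)) (r e : ℕ) (F : κ → MvPolynomial (Fin r) K)
    (w : Fin r → K) (p : κ → K) : Prop where
  term : ∀ a, Term S (w a)
  deg : ∀ j, (F j).totalDegree ≤ e
  eq : ∀ j, p j = MvPolynomial.eval w (F j)

theorem vfin [Finite κ] (F : κ → MvPolynomial σ K) :
    {q : κ × (σ →₀ ℕ) | (F q.1).coeff q.2 ≠ 0}.Finite := by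
  classical
  have := Fintype.ofFinite κ
  refine (Set.Finite.subset (Finset.finite_toSet
    ((Finset.univ : Finset κ).biUnion fun j => (F j).support.image fun m => (j, m))) ?_)
  rintro ⟨j, m⟩ h
  simp only [Finset.coe_biUnion, Set.mem_iUnion]
  refine ⟨j, Finset.mem_coe.2 (Finset.mem_univ j), ?_⟩
  rw [Finset.mem_coe, Finset.mem_image]
  exact ⟨m, MvPolynomial.mem_support_iff.2 h, rfl⟩

theorem cfin (F : MvPolynomial σ K) : {m : σ →₀ ℕ | F.coeff m ≠ 0}.Finite := by
  refine (Finset.finite_toSet F.support).subset fun m h => ?_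
  exact MvPolynomial.mem_support_iff.2 h

/-- the monomials of degree at most `e` -/
noncomputable def mons (r e : ℕ) : Finset (Fin r →₀ ℕ) :=
  (Finset.range (e + 1)).biUnion fun d => Finset.finsuppAntidiag (Finset.univ : Finset (Fin r)) d

theorem supp_mons {r e : ℕ} {F : MvPolynomial (Fin r) K} (h : F.totalDegree ≤ e) :
    F.support ⊆ mons r e := by
  classical
  intro m hm
  unfold mons
  rw [Finset.mem_biUnion]
  refine ⟨∑ a, m a, ?_, ?_⟩
  · rw [Finset.mem_range]
    have h1 := MvPolynomial.le_totalDegree hm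
    rw [Finsupp.sum_fintype _ _ (fun _ => rfl)] at h1
    omega
  · rw [Finset.mem_finsuppAntidiag]
    exact ⟨rfl, Finset.subset_univ _⟩

theorem eval_mons {r e : ℕ} {F : MvPolynomial (Fin r) K} (h : F.totalDegree ≤ e) (w : Fin r → K) :
    MvPolynomial.eval w F = ∑ m ∈ mons r e, F.coeff m * ∏ a, w a ^ m a := by
  classical
  rw [MvPolynomial.eval_eq']
  refine Finset.sum_subset (supp_mons h) fun m _ hm => ?_
  rw [MvPolynomial.notMem_support_iff.1 hm, zero_mul]

end defs

section const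

variable {k K : Type} [Field k] [Field K] [Algebra k K] [CharZero k] [IsFF k K] [IsAlgClosed k]
  {κ : Type} [Fintype κ]

/-- vectors in constant terms -/
theorem ht_const {S : Finset (Place k K)} {r e : ℕ} {F : κ → MvPolynomial (Fin r) K}
    {w : Fin r → K} {p : κ → K} (h : TermVec S r e F w p) (hp : ∃ j, p j ≠ 0)
    (hw : ∀ a, ∃ c : k, algebraMap k K c = w a) : ht k p ≤ vht k F := by
  classical
  choose c hc using hw
  have h1 := ht_le (k := k) (x := p) (Set.toFinite _) hp
    (fun P => mo P fun q : κ × (Fin r →₀ ℕ) => (F q.1).coeff q.2) (mo_supp (vfin F)) (by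
      intro P j
      rw [h.eq, eval_mons (h.deg j)]
      refine Ge.sum _ _ fun m _ => ?_
      have h2 := mo_ge P (vfin F) (j, m)
      have h3 : Ge P 0 (∏ a, w a ^ m a) := by
        have h4 : ∏ a, w a ^ m a = algebraMap k K (∏ a, c a ^ m a) := by
          rw [map_prod]
          refine Finset.prod_congr rfl fun a _ => ?_
          rw [map_pow, hc]
        rw [h4]
        exact Ge.const _
      simpa using h2.mul h3)
  exact h1

end const

section mono

variable {κ k₀ M : Type} [Field k₀] [Field M] [Algebra k₀ M]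

theorem OnRat.mono {S : Set (MvPolynomial κ k₀)} {d d' : ℕ} (h : d ≤ d') {η : κ → M}
    (hη : OnRat S d η) : OnRat S d' η := by
  obtain ⟨V, ⟨h1, h2, h3⟩, h4⟩ := hη
  exact ⟨V, ⟨fun j => (h1 j).trans h, h2, h3⟩, h4⟩

theorem OnEll.mono {k : Type} [Field k] [Algebra k M] {S : Set (MvPolynomial κ k₀)} {d d' : ℕ}
    (h : d ≤ d') {η : κ → M} (hη : OnEll k S d η) : OnEll k S d' η := by
  obtain ⟨a, b, A, B, ⟨h1, h2, h3, h4⟩, h5⟩ := hη
  exact ⟨a, b, A, B, ⟨h1, fun j => ⟨(h2 j).1.trans h, (h2 j).2.trans h⟩, h3, h4⟩, h5⟩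

end mono

section

variable {ι : Type} {U : Ultrafilter ι} {k K Kb : ι → Type} [∀ i, Field (k i)]
  [∀ i, Field (K i)] [∀ i, Field (Kb i)] [∀ i, Algebra (k i) (K i)] [∀ i, Algebra (k i) (Kb i)]
  [∀ i, Algebra (K i) (Kb i)] [∀ i, IsScalarTower (k i) (K i) (Kb i)] [∀ i, CharZero (k i)]
  [∀ i, IsFF (k i) (K i)] [∀ i, IsAlgClosed (k i)]
  {D : ∀ i, Derivation (k i) (Kb i) (Kb i)} {C L : Type} [Field C] [CharZero C] [Field L]
  [Algebra C L] {D' : Derivation C L L} {π : (∀ i, Kb i) →+* L} {θ : (∀ i, k i) →+* C}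
  {κ : Type} [Fintype κ]

/-- the class of a vector in terms -/
theorem vec_cls (hu : Dlt U D C L D' π θ) {h : ι → ℤ} (S : ∀ i, Finset (Place (k i) (K i)))
    {r e : ℕ} {F : ∀ i, κ → MvPolynomial (Fin r) (K i)} {w : ∀ i, Fin r → K i} {p : ∀ i, κ → K i}
    (hv : ∀ᶠ i in (U : Filter ι), TermVec (S i) r e (F i) (w i) (p i))
    (hp : ∀ᶠ i in (U : Filter ι), ∃ j, p i j ≠ 0)
    (hh : ∀ᶠ i in (U : Filter ι), vht (k i) (F i) ≤ h i) {M : IntermediateField C L}
    (hM : Sm (K := K) hu h ≤ M) (hw : ∀ a, cls K π (fun i => w i a) ∈ M) :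
    Prp (fun j => cls K π fun i => p i j) M := by
  classical
  have h1 : ∀ᶠ i in (U : Filter ι), ∃ q ∈ ((Finset.univ : Finset κ) ×ˢ mons r e : Set _),
      (F i (q : κ × (Fin r →₀ ℕ)).1).coeff q.2 ≠ 0 := by
    filter_upwards [hv, hp] with i h2 h3
    by_contra hcon
    push Not at hcon
    obtain ⟨j, hj⟩ := h3
    apply hj
    rw [h2.eq, eval_mons (h2.deg j)]
    refine Finset.sum_eq_zero fun m hm => ?_
    rw [hcon (j, m) ⟨Finset.mem_coe.2 (Finset.mem_univ j), Finset.mem_coe.2 hm⟩, zero_mul]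
  rw [Ultrafilter.eventually_exists_mem_iff (Set.Finite.prod (Finset.finite_toSet _)
    (Finset.finite_toSet _))] at h1
  obtain ⟨⟨j0, m0⟩, -, h2⟩ := h1
  set c : ∀ i, K i := fun i => (F i j0).coeff m0 with hc
  have hc0 : cls K π c ≠ 0 := (cls_ne hu).2 h2
  have h3 : ∀ j m, cls K π (fun i => (F i j).coeff m / c i) ∈ M := by
    intro j m
    apply hM
    refine ⟨_, 1, rfl, ?_⟩
    filter_upwards [h2, hh] with i h4 h5
    have h6 := hgt_ratio_le (k := k i) (vfin (F i)) (a := (j, m)) (b := (j0, m0)) h4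
    push_cast
    rw [one_mul]
    exact h6.trans h5
  refine ⟨cls K π c, fun j => ∑ m ∈ mons r e, cls K π (fun i => (F i j).coeff m / c i) *
    ∏ a, cls K π (fun i => w i a) ^ m a, fun j => ?_, fun j => ?_⟩
  · exact sum_mem fun m _ => mul_mem (h3 j m) (prod_mem fun a _ => pow_mem (hw a) _)
  · rw [Finset.mul_sum]
    have h4 : ∀ m ∈ mons r e, cls K π c * (cls K π (fun i => (F i j).coeff m / c i) *
        ∏ a, cls K π (fun i => w i a) ^ m a) =
        cls K π (fun i => (F i j).coeff m * ∏ a, w i a ^ m a) := by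
      intro m _
      rw [cls_div hu, ← mul_assoc, mul_div_cancel₀ _ hc0]
      have h5 : (fun i => (F i j).coeff m * ∏ a, w i a ^ m a) =
          (fun i => (F i j).coeff m) * ∏ a, (fun i => w i a) ^ m a := by
        funext i
        rw [Pi.mul_apply, Finset.prod_apply]
        rfl
      rw [h5, map_mul, map_prod]
      congr 1
      exact Finset.prod_congr rfl fun a _ => (map_pow _ _ _).symm
    rw [Finset.sum_congr rfl h4, ← map_sum, cls_eq hu]
    filter_upwards [hv] with i h5
    rw [h5.eq, eval_mons (h5.deg j), Finset.sum_apply]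

end

end Pool.Agent.Helper6.FT
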